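import Pool.Agent.Work.MP_1ce82a_an.Defs

-- merged part: Pool.Agent.Work.MP_1ce82a_an.A.PathB
section
-- merged part: Pool.Agent.Work.MP_1ce82a_an.Int
section
/-! Internal definitions: paths, domination, calibration, modulus classes, critical pairs,
quadratic growth, Jacobi pairing, good parameters. -/

open Set Filter Topology MeasureTheory
open scoped ContDiff

namespace Pool.Agent.Work.MP_1ce82a_an

/-- Paths are Lipschitz curves on a compact interval. -/
def IsPath (z : ℝ → E) (a b : ℝ) : Prop := a ≤ b ∧ ∃ K : NNReal, LipschitzOnWith K z (Icc a b)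

/-- The action. -/
noncomputable def act (F : E × E → ℝ) (z : ℝ → E) (a b : ℝ) : ℝ := ∫ t in a..b, F (ph z t)

/-- The integral of a potential along a curve. -/
noncomputable def pot (g : E → ℝ) (z : ℝ → E) (a b : ℝ) : ℝ := ∫ t in a..b, g (z t)

/-- Dominated functions. -/
def Dom (F : E × E → ℝ) (u : E → ℝ) : Prop :=
  ∀ (z : ℝ → E) (a b : ℝ), IsPath z a b → u (z b) - u (z a) ≤ act F z a b

/-- The calibration defect. -/
noncomputable def dfc (F : E × E → ℝ) (u : E → ℝ) (z : ℝ → E) (a b : ℝ) : ℝ :=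
  act F z a b - (u (z b) - u (z a))

/-- Calibrated paths. -/
def Cal (F : E × E → ℝ) (u : E → ℝ) (z : ℝ → E) (a b : ℝ) : Prop :=
  IsPath z a b ∧ dfc F u z a b = 0

/-- Complete calibrated curves. -/
def CalR (F : E × E → ℝ) (u : E → ℝ) (z : ℝ → E) : Prop := ∀ a b : ℝ, a ≤ b → Cal F u z a b

/-- The momentum along a curve. -/
noncomputable def mo (F : E × E → ℝ) (z : ℝ → E) (t : ℝ) : E →L[ℝ] ℝ :=
  vpart (fderiv ℝ F (ph z t))

/-- Solutions of the Euler-Lagrange equation at all times of a compact interval. -/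
def OrbOn (F : E × E → ℝ) (z : ℝ → E) (a b : ℝ) : Prop :=
  ∀ t ∈ Icc a b, HasDerivAt z (deriv z t) t ∧ ContinuousAt (deriv z) t ∧
    HasDerivAt (mo F z) (xpart (fderiv ℝ F (ph z t))) t

/-- Affine modification of a curve, moving the end points by `h0` and `h1`. -/
noncomputable def aff (z : ℝ → E) (a b : ℝ) (h0 h1 : E) : ℝ → E :=
  fun t => z t + ((b - t) / (b - a)) • h0 + ((t - a) / (b - a)) • h1

/-- The first variation of the action for the affine modification. -/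
noncomputable def fv (F : E × E → ℝ) (z : ℝ → E) (a b : ℝ) (h0 h1 : E) : ℝ :=
  ∫ t in a..b, fderiv ℝ F (ph z t)
    (((b - t) / (b - a)) • h0 + ((t - a) / (b - a)) • h1, (1 / (b - a)) • (h1 - h0))

/-- Concatenation at time `b`. -/
noncomputable def cat (z y : ℝ → E) (b : ℝ) : ℝ → E := fun t => if t ≤ b then z t else y t

/-- Moduli of superlinearity, of the `C^2` norm and of convexity. -/
structure Md where
  th : ℝ → ℝ
  La : ℝ → ℝ
  mu : ℝ → ℝ
  th_nonneg : ∀ A, 0 ≤ th A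
  La_nonneg : ∀ K, 0 ≤ La K
  mu_pos : ∀ K, 0 < mu K

/-- Lagrangians with given moduli over the ball of radius `R`. -/
structure Cls (m : Md) (R : ℝ) (F : E × E → ℝ) : Prop where
  c2 : ContDiff ℝ 2 F
  conv : ∀ (z : E × E) (w : E), w ≠ 0 → 0 < D2 F z (0, w) (0, w)
  sup : ∀ (A : ℝ) (x v : E), ‖x‖ ≤ R → A * ‖v‖ - m.th A ≤ F (x, v)
  bd0 : ∀ (K : ℝ) (x v : E), ‖x‖ ≤ R → ‖v‖ ≤ K → |F (x, v)| ≤ m.La K
  bd1 : ∀ (K : ℝ) (x v : E), ‖x‖ ≤ R → ‖v‖ ≤ K → ‖fderiv ℝ F (x, v)‖ ≤ m.La K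
  bd2 : ∀ (K : ℝ) (x v : E), ‖x‖ ≤ R → ‖v‖ ≤ K → ‖D2 F (x, v)‖ ≤ m.La K
  lo : ∀ (K : ℝ) (x v w : E), ‖x‖ ≤ R → ‖v‖ ≤ K → m.mu K * ‖w‖ ^ 2 ≤ D2 F (x, v) (0, w) (0, w)

/-- Lagrangians having moduli over every ball. -/
def Ton0 (F : E × E → ℝ) : Prop := ∀ R : ℝ, ∃ m : Md, Cls m R F

/-- `C^2` smallness on a ball. -/
def Small (R ε : ℝ) (h : E → ℝ) : Prop :=
  ∀ x : E, ‖x‖ ≤ R → |h x| ≤ ε ∧ ‖fderiv ℝ h x‖ ≤ ε ∧ ‖fderiv ℝ (fderiv ℝ h) x‖ ≤ ε

variable {Γ : Grp}

/-- Equivariant functions. -/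
def Eqv (c : H1 Γ) (u : E → ℝ) : Prop := ∀ (γ : Γ) (x : E), u (γ • x) = u x + c.1 γ

/-- Invariant functions. -/
def Inv (Γ : Grp) (g : E → ℝ) : Prop := ∀ (γ : Γ) (x : E), g (γ • x) = g x

/-- Invariant Lagrangians. -/
def InvL (Γ : Grp) (F : E × E → ℝ) : Prop :=
  ∀ (γ : Γ) (x v : E), F (γ • x, dk γ x v) = F (x, v)

/-- Lifts of closed curves. -/
def IsLoop (z : ℝ → E) (T : ℝ) (γ : Γ) : Prop := 0 < T ∧ IsPath z 0 T ∧ z T = γ • z 0

/-- Critical pairs: the critical value defined by loops vanishes. -/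
def Crit (F : E × E → ℝ) (c : H1 Γ) : Prop :=
  (∀ (z : ℝ → E) (T : ℝ) (γ : Γ), IsLoop z T γ → c.1 γ ≤ act F z 0 T) ∧
    ∀ δ : ℝ, 0 < δ → ∃ (z : ℝ → E) (T : ℝ) (γ : Γ), IsLoop z T γ ∧ act F z 0 T - c.1 γ ≤ δ * T

/-- Equivariant dominated functions. -/
def InS (F : E × E → ℝ) (c : H1 Γ) (u : E → ℝ) : Prop := Eqv c u ∧ Dom F u

/-- The critical value defined by loops. -/
noncomputable def alc (F : E × E → ℝ) (c : H1 Γ) : ℝ :=
  sSup {r | ∃ (z : ℝ → E) (T : ℝ) (γ : Γ), IsLoop z T γ ∧ r = (c.1 γ - act F z 0 T) / T}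

/-- Perturbations: a potential and a class. -/
abbrev Par (Γ : Grp) : Type := (E → ℝ) × H1 Γ

/-- Admissible perturbations. -/
def Adm (F : E × E → ℝ) (p : Par Γ) : Prop :=
  ContDiff ℝ 2 p.1 ∧ Inv Γ p.1 ∧ Crit (addPot F p.1) p.2

/-- The filter of small critical perturbations of `(F, c)`. -/
noncomputable def nb (F : E × E → ℝ) (c : H1 Γ) : Filter (Par Γ) :=
  𝓟 {p | Adm F p} ⊓ (⨅ (R : ℝ) (ε : ℝ) (_ : 0 < ε), 𝓟 {p : Par Γ | Small R ε p.1}) ⊓
    comap (fun p : Par Γ => (p.2.1 : Γ → ℝ)) (𝓝 c.1)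

/-- Pointwise limit of curves along an ultrafilter. -/
noncomputable def ulim {ι : Type} (U : Ultrafilter ι) (z : ι → ℝ → E) : ℝ → E :=
  fun t => limUnder (U : Filter ι) (fun i => z i t)

/-- The Lax-Oleinik operator. -/
noncomputable def lax (F : E × E → ℝ) (s : ℝ) (w : E → ℝ) (x : E) : ℝ :=
  sInf {r | ∃ z : ℝ → E, IsPath z (-s) 0 ∧ z 0 = x ∧ r = w (z (-s)) + act F z (-s) 0}

/-- Time reversed Lagrangian. -/
def revL (F : E × E → ℝ) : E × E → ℝ := fun z => F (z.1, -z.2)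

/-- First rotated coordinate. -/
noncomputable def X1 : Fin 4 → E →L[ℝ] ℝ :=
  ![ContinuousLinearMap.fst ℝ ℝ ℝ, ContinuousLinearMap.snd ℝ ℝ ℝ,
    -ContinuousLinearMap.fst ℝ ℝ ℝ, -ContinuousLinearMap.snd ℝ ℝ ℝ]

/-- Second rotated coordinate. -/
noncomputable def X2 : Fin 4 → E →L[ℝ] ℝ :=
  ![ContinuousLinearMap.snd ℝ ℝ ℝ, -ContinuousLinearMap.fst ℝ ℝ ℝ,
    -ContinuousLinearMap.snd ℝ ℝ ℝ, ContinuousLinearMap.fst ℝ ℝ ℝ]

/-- The point with given rotated coordinates. -/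
def mk (d : Fin 4) (a b : ℝ) : E := ![(a, b), (-b, a), (-a, -b), (b, -a)] d

/-- The area form. -/
def det2 (v w : E) : ℝ := v.1 * w.2 - v.2 * w.1

/-- A smooth plateau function, positive on `(a0, a3)`, equal to one on `[a1, a2]`. -/
noncomputable def bump (a0 a1 a2 a3 y : ℝ) : ℝ :=
  Real.smoothTransition ((y - a0) / (a1 - a0)) * Real.smoothTransition ((a3 - y) / (a3 - a2))

/-- Rational boxes in rotated coordinates. -/
structure Bx where
  d : Fin 4
  a0 : ℚ
  a1 : ℚ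
  a2 : ℚ
  a3 : ℚ
  b0 : ℚ
  b1 : ℚ
  b2 : ℚ
  b3 : ℚ
  ha01 : a0 < a1
  ha12 : a1 ≤ a2
  ha23 : a2 < a3
  hb01 : b0 < b1
  hb12 : b1 ≤ b2
  hb23 : b2 < b3

/-- The horizontal factor of the box function. -/
noncomputable def Bx.fa (B : Bx) (y : ℝ) : ℝ := bump B.a0 B.a1 B.a2 B.a3 y

/-- The vertical factor of the box function. -/
noncomputable def Bx.fb (B : Bx) (y : ℝ) : ℝ := bump B.b0 B.b1 B.b2 B.b3 y

/-- The box function. -/
noncomputable def Bx.f0 (B : Bx) (x : E) : ℝ := B.fa (X1 B.d x) * B.fb (X2 B.d x)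

/-- The box function times the height. -/
noncomputable def Bx.f1 (B : Bx) (x : E) : ℝ := X2 B.d x * B.f0 x

/-- Periodisation. -/
noncomputable def per (Γ : Grp) (b : E → ℝ) (x : E) : ℝ := ∑ᶠ γ : Γ, b (γ • x)

/-- Quadratic growth in the direction `(c', g)` with slope `m`. -/
def QG (F : E × E → ℝ) (c c' : H1 Γ) (g : E → ℝ) (m : ℝ) : Prop :=
  ∃ C s0 : ℝ, 0 ≤ C ∧ 0 < s0 ∧ ∀ (z : ℝ → E) (T : ℝ) (γ : Γ), IsLoop z T γ → ∀ s : ℝ, |s| ≤ s0 →
    s * (c'.1 γ + pot g z 0 T - m * T) ≤ act F z 0 T - c.1 γ + C * s ^ 2 * T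

/-- Quadratic growth in all cohomological directions and all box directions. -/
def QGall (F : E × E → ℝ) (c : H1 Γ) : Prop :=
  (∀ c' : H1 Γ, ∃ m, QG F c c' (fun _ => 0) m) ∧
    ∀ B : Bx, (∃ m, QG F c 0 (per Γ B.f0) m) ∧ ∃ m, QG F c 0 (per Γ B.f1) m

/-- Quadratic bound for the symmetric second difference at zero. -/
def SD (a : ℝ → ℝ) : Prop :=
  ∃ C δ : ℝ, 0 < δ ∧ ∀ s : ℝ, |s| ≤ δ → a s + a (-s) - 2 * a 0 ≤ C * s ^ 2

/-- The second variation along loops for constant coefficients. -/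
noncomputable def sv (B : E × E →L[ℝ] E × E →L[ℝ] ℝ) (h : ℝ → E) (a b : ℝ) : ℝ :=
  ∫ t in a..b, B (ph h t) (ph h t)

/-- Coercive second variation. -/
def Coer (B : E × E →L[ℝ] E × E →L[ℝ] ℝ) : Prop :=
  ∃ μ : ℝ, 0 < μ ∧ ∀ (h : ℝ → E) (a b : ℝ), IsPath h a b → h a = h b →
    μ * ∫ t in a..b, ‖h t‖ ^ 2 ≤ sv B h a b

/-- Second variation with a negative loop. -/
def NegL (B : E × E →L[ℝ] E × E →L[ℝ] ℝ) : Prop :=
  ∃ (h : ℝ → E) (a b : ℝ), IsPath h a b ∧ h a = h b ∧ sv B h a b < 0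

/-- At every minimiser in the ball of radius `R0` the second variation is coercive or has a
negative loop. -/
def Ogood (R0 : ℝ) (F : E × E → ℝ) : Prop :=
  ∀ x : E, ‖x‖ ≤ R0 → (∀ y : E, F (x, 0) ≤ F (y, 0)) → Coer (D2 F (x, 0)) ∨ NegL (D2 F (x, 0))

/-- The momentum of a variation field. -/
noncomputable def mom (F : E × E → ℝ) (x ξ : ℝ → E) (t : ℝ) : E →L[ℝ] ℝ :=
  vpart (D2 F (ph x t) (ph ξ t))

/-- The symplectic pairing of a variation field with a tangent vector. -/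
noncomputable def pr (F : E × E → ℝ) (x ξ : ℝ → E) (t : ℝ) (w : E × E) : ℝ :=
  D2 F (ph x t) w (0, ξ t) - mom F x ξ t w.1

/-- The symplectic pairing of two variation fields. -/
noncomputable def om (F : E × E → ℝ) (x ξ ζ : ℝ → E) (t : ℝ) : ℝ := pr F x ξ t (ph ζ t)

/-- The variation of the energy. -/
noncomputable def den (F : E × E → ℝ) (x ξ : ℝ → E) (t : ℝ) : ℝ :=
  mom F x ξ t (deriv x t) - xpart (fderiv ℝ F (ph x t)) (ξ t)

/-- Transport of a variation field by one period. -/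
noncomputable def Tp (x : ℝ → E) (P : ℝ) (σ : Γ) (ξ : ℝ → E) : ℝ → E :=
  fun t => dk σ (x (t - P)) (ξ (t - P))

/-- `τ` is the trace of the transport on the energy level modulo the flow direction. -/
def IsTr (F : E × E → ℝ) (x : ℝ → E) (P : ℝ) (σ : Γ) (τ : ℝ) : Prop :=
  ∃ e φ : ℝ → E, IsJacobi F x e ∧ IsJacobi F x φ ∧ φ 0 = 0 ∧ den F x e 0 = 0 ∧ den F x φ 0 = 0 ∧
    om F x e φ 0 = 1 ∧ τ = om F x (Tp x P σ e) φ 0 + om F x e (Tp x P σ φ) 0

/-- Periodic modulo the deck group. -/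
def Perd (x : ℝ → E) (P : ℝ) (σ : Γ) : Prop := 0 < P ∧ ∀ t, x (t + P) = σ • x t

/-- The curve is calibrated by all equivariant dominated functions. -/
def AllCal (F : E × E → ℝ) (c : H1 Γ) (x : ℝ → E) : Prop := ∀ u, InS F c u → CalR F u x

/-- All complete calibrated curves are translates of `x`. -/
def AllIn (F : E × E → ℝ) (c : H1 Γ) (x : ℝ → E) : Prop :=
  ∀ u, InS F c u → ∀ z, CalR F u z → ∃ (ρ : Γ) (s : ℝ), ∀ t, z t = ρ • x (t + s)

/-- Good periodic pairs. -/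
def GoodPer (F : E × E → ℝ) (c : H1 Γ) : Prop :=
  ∃ (x : ℝ → E) (P : ℝ) (σ : Γ) (τ : ℝ), Perd x P σ ∧ deriv x 0 ≠ 0 ∧ AllCal F c x ∧
    AllIn F c x ∧ IsTr F x P σ τ ∧ 2 < τ

/-- Good fixed pairs. -/
def GoodFix (F : E × E → ℝ) (c : H1 Γ) : Prop :=
  ∃ x0 : E, F (x0, 0) = 0 ∧ AllIn F c (fun _ => x0) ∧ Coer (D2 F (x0, 0))

/-- Good pairs. -/
def Good (F : E × E → ℝ) (c : H1 Γ) : Prop := GoodPer F c ∨ GoodFix F c

/-- The invariant neighbourhood of one period of `x`. -/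
def Nb (Γ : Grp) (x : ℝ → E) (P δ : ℝ) : Set E :=
  {y | ∃ (ρ : Γ) (s : ℝ), s ∈ Icc 0 P ∧ ‖ρ • y - x s‖ < δ}

/-- Exponential closeness during long stays near `x`. -/
def ExpC (F : E × E → ℝ) (c : H1 Γ) (x : ℝ → E) (P : ℝ) : Prop :=
  ∃ δ C κ : ℝ, 0 < δ ∧ 0 < κ ∧ ∀ u, InS F c u → ∀ z, CalR F u z → ∀ a l : ℝ, 0 ≤ l →
    (∀ t ∈ Icc a (a + l), z t ∈ Nb Γ x P δ) →
      ∃ t ∈ Icc a (a + l), ∃ (ρ : Γ) (s : ℝ), s ∈ Icc 0 P ∧
        ‖ρ • z t - x s‖ ≤ C * Real.exp (-(κ * l))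

/-- The curve starts on the section through `x 0`, near `x 0`. -/
def Start (d : Fin 4) (x : ℝ → E) (δ : ℝ) (z : ℝ → E) : Prop :=
  X1 d (z 0) = X1 d (x 0) ∧ ‖z 0 - x 0‖ ≤ δ

/-- Shift in time and translate back by a deck transformation. -/
def nxt (σ : Γ) (z : ℝ → E) (T : ℝ) : ℝ → E := fun t => σ⁻¹ • z (T + t)

/-- One curve of a perturbed Lagrangian shadowing one period of `x`. -/
structure Shad (F : E × E → ℝ) (x : ℝ → E) (P : ℝ) (σ : Γ) (d : Fin 4) (δ : ℝ) (h : E → ℝ)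
    (z : ℝ → E) (T : ℝ) : Prop where
  orb : OrbOn (addPot F h) z 0 (P + 1)
  near : ∀ t ∈ Icc 0 (P + 1), ‖ph z t - ph x t‖ ≤ δ
  time : |T - P| ≤ δ
  sec0 : X1 d (z 0) = X1 d (x 0)
  sec1 : X1 d (σ⁻¹ • z T) = X1 d (x 0)
  en : energy (addPot F h) (ph z 0) = 0

/-- Two shadowing curves lying in one Lipschitz graph. -/
structure Pair (F : E × E → ℝ) (x : ℝ → E) (P : ℝ) (σ : Γ) (d : Fin 4) (Λ δ : ℝ) (h : E → ℝ)
    (z1 z2 : ℝ → E) (T1 T2 : ℝ) : Prop where
  s1 : Shad F x P σ d δ h z1 T1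
  s2 : Shad F x P σ d δ h z2 T2
  lip : ∀ s ∈ Icc 0 (P + 1), ∀ t ∈ Icc 0 (P + 1),
    ‖deriv z1 s - deriv z2 t‖ ≤ Λ * ‖z1 s - z2 t‖

/-- The height difference on the section. -/
noncomputable def ht (d : Fin 4) (z1 z2 : ℝ → E) : ℝ := X2 d (z2 0 - z1 0)

end Pool.Agent.Work.MP_1ce82a_an
end

-- merged part: Pool.Agent.Work.MP_1ce82a_an.A.PathB
section
/-! Basic analysis of Lipschitz paths.
PLAN. norm_deriv_le_of_lipschitzOn on the open interval; almost everywhere differentiability from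
LipschitzOnWith.absolutelyContinuousOnInterval (coordinatewise) or Rademacher on the line;
integrability: deriv z is strongly measurable, z is continuous on the interval, the phase point stays in a
compact set for interior times; the fundamental theorem of calculus is
AbsolutelyContinuousOnInterval.integral_deriv_eq_sub applied to real valued Lipschitz functions
(coordinates of z, or u composed with z, which is Lipschitz since u is C^1 on a compact convex set). -/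

open Set Filter Topology MeasureTheory
open scoped ContDiff

namespace Pool.Agent.Work.MP_1ce82a_an

variable {Γ : Grp}

theorem IsPath.mono {z : ℝ → E} {a b c d : ℝ} (h : IsPath z a b) (hac : a ≤ c) (hcd : c ≤ d)
    (hdb : d ≤ b) : IsPath z c d := by
  obtain ⟨-, K, hK⟩ := h
  exact ⟨hcd, K, hK.mono (Icc_subset_Icc hac hdb)⟩

theorem IsPath.continuousOn {z : ℝ → E} {a b : ℝ} (h : IsPath z a b) :
    ContinuousOn z (Icc a b) := by
  obtain ⟨-, K, hK⟩ := h
  exact hK.continuousOn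

theorem IsPath.congr {z y : ℝ → E} {a b : ℝ} (h : IsPath z a b) (he : EqOn z y (Icc a b)) :
    IsPath y a b := by
  obtain ⟨hab, K, hK⟩ := h
  refine ⟨hab, K, fun s hs t ht => ?_⟩
  rw [← he hs, ← he ht]
  exact hK hs ht

theorem norm_deriv_le_lip {z : ℝ → E} {a b : ℝ} {K : NNReal} (h : LipschitzOnWith K z (Icc a b))
    {t : ℝ} (ht : t ∈ Ioo a b) : ‖deriv z t‖ ≤ K := by
  exact norm_deriv_le_of_lipschitzOn (Icc_mem_nhds ht.1 ht.2) h

theorem IsPath.ae_hasDerivAt {z : ℝ → E} {a b : ℝ} (h : IsPath z a b) :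
    ∀ᵐ t, t ∈ Ioo a b → HasDerivAt z (deriv z t) t := by
  obtain ⟨-, K, hK⟩ := h
  filter_upwards [hK.ae_differentiableWithinAt_of_mem_real] with t h1 ht
  exact ((h1 (Ioo_subset_Icc_self ht)).differentiableAt (Icc_mem_nhds ht.1 ht.2)).hasDerivAt

theorem IsPath.intervalIntegrable {G : Type} [NormedAddCommGroup G] {z : ℝ → E} {a b : ℝ}
    (h : IsPath z a b) {Φ : ℝ × (E × E) → G} (hΦ : Continuous Φ) :
    IntervalIntegrable (fun t => Φ (t, ph z t)) volume a b := by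
  have hc := h.continuousOn
  obtain ⟨hab, K, hK⟩ := h
  have hC : IsCompact (Icc a b ×ˢ ((z '' Icc a b) ×ˢ Metric.closedBall (0 : E) K)) :=
    isCompact_Icc.prod ((isCompact_Icc.image_of_continuousOn hc).prod (isCompact_closedBall _ _))
  obtain ⟨M, hM⟩ := hC.exists_bound_of_continuousOn hΦ.continuousOn
  rw [intervalIntegrable_iff_integrableOn_Ioo_of_le hab]
  refine Integrable.of_bound (hΦ.comp_aestronglyMeasurable (aestronglyMeasurable_id.prodMk
    (((hc.mono Ioo_subset_Icc_self).aestronglyMeasurable measurableSet_Ioo).prodMk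
      (stronglyMeasurable_deriv z).aestronglyMeasurable))) M ?_
  refine (ae_restrict_iff' measurableSet_Ioo).2 (Eventually.of_forall fun t ht => hM _ ?_)
  exact ⟨Ioo_subset_Icc_self ht, mem_image_of_mem z (Ioo_subset_Icc_self ht),
    mem_closedBall_zero_iff.2 (norm_deriv_le_lip hK ht)⟩

theorem IsPath.ii_act {z : ℝ → E} {a b : ℝ} (h : IsPath z a b) {F : E × E → ℝ}
    (hF : Continuous F) : IntervalIntegrable (fun t => F (ph z t)) volume a b := by
  exact h.intervalIntegrable (Φ := fun p => F p.2) (hF.comp continuous_snd)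

theorem IsPath.ii_pot {z : ℝ → E} {a b : ℝ} (h : IsPath z a b) {g : E → ℝ}
    (hg : Continuous g) : IntervalIntegrable (fun t => g (z t)) volume a b := by
  exact h.intervalIntegrable (Φ := fun p => g p.2.1) (hg.comp (continuous_fst.comp continuous_snd))

theorem PathB_ae {a b : ℝ} (hab : a ≤ b) : ∀ᵐ t, t ∈ uIoc a b → t ∈ Ioo a b := by
  have h : ∀ᵐ t : ℝ, t ≠ b := by simp [ae_iff, measure_singleton]
  filter_upwards [h] with t h1 ht
  rw [uIoc_of_le hab] at ht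
  exact ⟨ht.1, lt_of_le_of_ne ht.2 h1⟩

theorem ftc_lip {f f' : ℝ → ℝ} {a b : ℝ} {K : NNReal} (hab : a ≤ b)
    (hf : LipschitzOnWith K f (Icc a b)) (hd : ∀ᵐ t, t ∈ Ioo a b → HasDerivAt f (f' t) t) :
    IntervalIntegrable f' volume a b ∧ ∫ t in a..b, f' t = f b - f a := by
  have hac : AbsolutelyContinuousOnInterval f a b :=
    LipschitzOnWith.absolutelyContinuousOnInterval (K := K) (by rwa [uIcc_of_le hab])
  have he : ∀ᵐ t, t ∈ uIoc a b → deriv f t = f' t := by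
    filter_upwards [hd, PathB_ae hab] with t h1 h2 ht
    exact (h1 (h2 ht)).deriv
  refine ⟨hac.intervalIntegrable_deriv.congr_ae
    ((ae_restrict_iff' measurableSet_uIoc).2 he), ?_⟩
  rw [← intervalIntegral.integral_congr_ae he, hac.integral_deriv_eq_sub]

theorem IsPath.ftc {z : ℝ → E} {a b : ℝ} (h : IsPath z a b) :
    ∫ t in a..b, deriv z t = z b - z a := by
  have hi : IntervalIntegrable (fun t => deriv z t) volume a b :=
    h.intervalIntegrable (Φ := fun p => p.2.2) (continuous_snd.comp continuous_snd)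
  have key : ∀ l : E →L[ℝ] ℝ, l (∫ t in a..b, deriv z t) = l (z b - z a) := fun l => by
    rw [← l.intervalIntegral_comp_comm hi, map_sub]
    obtain ⟨K, hK⟩ := h.2
    refine (ftc_lip (f := fun t => l (z t)) h.1 (l.lipschitz.comp_lipschitzOnWith hK) ?_).2
    filter_upwards [h.ae_hasDerivAt] with t h1 ht
    exact l.hasFDerivAt.comp_hasDerivAt t (h1 ht)
  exact Prod.ext (key (ContinuousLinearMap.fst ℝ ℝ ℝ)) (key (ContinuousLinearMap.snd ℝ ℝ ℝ))

theorem IsPath.ftc_comp {z : ℝ → E} {a b : ℝ} (h : IsPath z a b) {u : E → ℝ}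
    (hu : ContDiff ℝ 1 u) : ∫ t in a..b, fderiv ℝ u (z t) (deriv z t) = u (z b) - u (z a) := by
  obtain ⟨K, hK⟩ := h.2
  obtain ⟨K', hK'⟩ :=
    (hu.locallyLipschitz.locallyLipschitzOn (s := z '' Icc a b)).exists_lipschitzOnWith_of_compact
      (isCompact_Icc.image_of_continuousOn h.continuousOn)
  refine (ftc_lip (f := fun t => u (z t)) h.1 (hK'.comp hK (mapsTo_image z _)) ?_).2
  filter_upwards [h.ae_hasDerivAt] with t h1 ht
  exact ((hu.differentiable one_ne_zero) (z t)).hasFDerivAt.comp_hasDerivAt t (h1 ht)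

theorem IsPath.norm_sub_le {z : ℝ → E} {a b : ℝ} (h : IsPath z a b) :
    ‖z b - z a‖ ≤ ∫ t in a..b, ‖deriv z t‖ := by
  rw [← h.ftc]
  exact intervalIntegral.norm_integral_le_integral_norm h.1

theorem isPath_of_hasDerivAt {z z' : ℝ → E} {a b : ℝ} (hab : a ≤ b)
    (hd : ∀ t ∈ Icc a b, HasDerivAt z (z' t) t) (hc : ContinuousOn z' (Icc a b)) :
    IsPath z a b := by
  obtain ⟨M, hM⟩ := isCompact_Icc.exists_bound_of_continuousOn hc
  refine ⟨hab, M.toNNReal, (convex_Icc a b).lipschitzOnWith_of_nnnorm_hasDerivWithin_le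
    (fun t ht => (hd t ht).hasDerivWithinAt) fun t ht => ?_⟩
  exact (Real.le_toNNReal_iff_coe_le ((norm_nonneg _).trans (hM t ht))).2 (hM t ht)

theorem isPath_of_contDiff {z : ℝ → E} (hz : ContDiff ℝ 1 z) {a b : ℝ} (hab : a ≤ b) :
    IsPath z a b := by
  exact isPath_of_hasDerivAt hab (fun t _ => ((hz.differentiable one_ne_zero) t).hasDerivAt)
    (hz.continuous_deriv le_rfl).continuousOn

theorem lipschitzOn_of_deriv_le {z : ℝ → E} {a b K : ℝ}
    (hd : ∀ t ∈ Icc a b, HasDerivAt z (deriv z t) t ∧ ‖deriv z t‖ ≤ K) :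
    LipschitzOnWith K.toNNReal z (Icc a b) := by
  refine (convex_Icc a b).lipschitzOnWith_of_nnnorm_hasDerivWithin_le
    (fun t ht => (hd t ht).1.hasDerivWithinAt) fun t ht => ?_
  exact (Real.le_toNNReal_iff_coe_le ((norm_nonneg _).trans (hd t ht).2)).2 (hd t ht).2

theorem act_congr (F : E × E → ℝ) {z y : ℝ → E} {a b : ℝ} (hab : a ≤ b)
    (he : EqOn z y (Icc a b)) : act F z a b = act F y a b := by
  refine intervalIntegral.integral_congr_ae ?_
  filter_upwards [PathB_ae hab] with t h1 ht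
  have h2 := h1 ht
  have h3 : z =ᶠ[𝓝 t] y := he.eventuallyEq_of_mem (Icc_mem_nhds h2.1 h2.2)
  rw [ph, ph, h3.deriv_eq, h3.eq_of_nhds]

theorem pot_congr (g : E → ℝ) {z y : ℝ → E} {a b : ℝ} (hab : a ≤ b)
    (he : EqOn z y (Icc a b)) : pot g z a b = pot g y a b := by
  refine intervalIntegral.integral_congr fun t ht => ?_
  rw [uIcc_of_le hab] at ht
  exact congrArg g (he ht)

theorem act_add {F : E × E → ℝ} (hF : Continuous F) {z : ℝ → E} {a b c : ℝ} (h : IsPath z a c)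
    (hab : a ≤ b) (hbc : b ≤ c) : act F z a b + act F z b c = act F z a c := by
  exact intervalIntegral.integral_add_adjacent_intervals ((h.mono le_rfl hab hbc).ii_act hF)
    ((h.mono hab hbc le_rfl).ii_act hF)

theorem pot_add {g : E → ℝ} (hg : Continuous g) {z : ℝ → E} {a b c : ℝ} (h : IsPath z a c)
    (hab : a ≤ b) (hbc : b ≤ c) : pot g z a b + pot g z b c = pot g z a c := by
  exact intervalIntegral.integral_add_adjacent_intervals ((h.mono le_rfl hab hbc).ii_pot hg)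
    ((h.mono hab hbc le_rfl).ii_pot hg)

theorem act_addPot {F : E × E → ℝ} (hF : Continuous F) {g : E → ℝ} (hg : Continuous g)
    {z : ℝ → E} {a b : ℝ} (h : IsPath z a b) :
    act (addPot F g) z a b = act F z a b + pot g z a b := by
  exact intervalIntegral.integral_add (h.ii_act hF) (h.ii_pot hg)

theorem pot_const (k : ℝ) (z : ℝ → E) (a b : ℝ) : pot (fun _ => k) z a b = k * (b - a) := by
  rw [pot, intervalIntegral.integral_const, smul_eq_mul, mul_comm]

theorem abs_pot_le {g : E → ℝ} {M : ℝ} {z : ℝ → E} {a b : ℝ} (hab : a ≤ b)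
    (hM : ∀ t ∈ Icc a b, |g (z t)| ≤ M) : |pot g z a b| ≤ M * (b - a) := by
  have h := intervalIntegral.norm_integral_le_of_norm_le_const (a := a) (b := b) (C := M)
    (f := fun t => g (z t)) fun t ht => by
      rw [uIoc_of_le hab] at ht
      exact hM t (Ioc_subset_Icc_self ht)
  rwa [abs_of_nonneg (sub_nonneg.2 hab)] at h

theorem addPot_zero (F : E × E → ℝ) : addPot F (fun _ => 0) = F := by
  funext z
  exact add_zero _

theorem addPot_addPot (F : E × E → ℝ) (f g : E → ℝ) :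
    addPot (addPot F f) g = addPot F (fun x => f x + g x) := by
  funext z
  exact add_assoc _ _ _

theorem isPath_line (x v : E) {a b : ℝ} (hab : a ≤ b) : IsPath (fun t => x + t • v) a b := by
  exact isPath_of_contDiff (by fun_prop) hab

theorem ph_line (x v : E) (t : ℝ) : ph (fun t => x + t • v) t = (x + t • v, v) := by
  have h : HasDerivAt (fun t : ℝ => x + t • v) ((1 : ℝ) • v) t :=
    ((hasDerivAt_id t).smul_const v).const_add x
  rw [ph, h.deriv, one_smul]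

theorem ph_const (x : E) (t : ℝ) : ph (fun _ => x) t = (x, 0) := by
  rw [ph, deriv_const]

end Pool.Agent.Work.MP_1ce82a_an
end

-- merged part: Pool.Agent.Work.MP_1ce82a_an.A.Grp
section
/-! Elementary facts on the deck group action.
PLAN. Chain rule for dk from mul_smul; finiteness for two compact sets from the union; an embedded ball:
only finitely many elements move the unit ball at x to itself, each of them is not the identity and moves x,
so shrink by continuity; Lipschitz and Taylor bounds from smoothness on compact convex balls;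
countability from the exhaustion by balls; boundedness of invariant continuous functions from the compact
fundamental set. -/

open Set Filter Topology MeasureTheory
open scoped ContDiff

namespace Pool.Agent.Work.MP_1ce82a_an

variable {Γ : Grp}

theorem Surf.cont (hS : Surf Γ) (γ : Γ) : Continuous (fun x : E => γ • x) :=
  (hS.smooth γ).continuous

theorem Surf.hasFDerivAt (hS : Surf Γ) (γ : Γ) (x : E) :
    HasFDerivAt (fun y : E => γ • y) (dk γ x) x :=
  ((contDiff_infty_iff_fderiv.1 (hS.smooth γ)).1 x).hasFDerivAt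

theorem Surf.contDiff_dk (hS : Surf Γ) (γ : Γ) : ContDiff ℝ ∞ (dk γ) :=
  (contDiff_infty_iff_fderiv.1 (hS.smooth γ)).2

theorem dk_one (x : E) : dk (1 : Γ) x = ContinuousLinearMap.id ℝ E := by
  simp only [dk, one_smul]
  exact fderiv_id

theorem Surf.dk_mul (hS : Surf Γ) (γ δ : Γ) (x v : E) :
    dk (γ * δ) x v = dk γ (δ • x) (dk δ x v) := by
  have h := (hS.hasFDerivAt γ (δ • x)).comp x (hS.hasFDerivAt δ x)
  have h' := hS.hasFDerivAt (γ * δ) x
  simp only [mul_smul] at h'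
  rw [h'.unique h]
  rfl

theorem Surf.dk_inv (hS : Surf Γ) (γ : Γ) (x v : E) : dk γ⁻¹ (γ • x) (dk γ x v) = v := by
  rw [← hS.dk_mul, inv_mul_cancel, dk_one]
  rfl

theorem Surf.dk_inv' (hS : Surf Γ) (γ : Γ) (x v : E) : dk γ (γ⁻¹ • x) (dk γ⁻¹ x v) = v := by
  rw [← hS.dk_mul, mul_inv_cancel, dk_one]
  rfl

theorem Surf.dk_ne_zero (hS : Surf Γ) (γ : Γ) (x : E) {v : E} (hv : v ≠ 0) : dk γ x v ≠ 0 :=
  fun h => hv (by rw [← hS.dk_inv γ x v, h, map_zero])

theorem Surf.hasDerivAt_smul (hS : Surf Γ) (γ : Γ) {z : ℝ → E} {v : E} {t : ℝ}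
    (hz : HasDerivAt z v t) : HasDerivAt (fun s => γ • z s) (dk γ (z t) v) t :=
  (hS.hasFDerivAt γ (z t)).comp_hasDerivAt t hz

/-- The formula for the derivative also holds at times where the curve is not differentiable. -/
theorem Surf.deriv_smul (hS : Surf Γ) (γ : Γ) (z : ℝ → E) (t : ℝ) :
    deriv (fun s => γ • z s) t = dk γ (z t) (deriv z t) := by
  by_cases h : DifferentiableAt ℝ z t
  · exact (hS.hasDerivAt_smul γ h.hasDerivAt).deriv
  · rw [deriv_zero_of_not_differentiableAt h, map_zero]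
    refine deriv_zero_of_not_differentiableAt fun h' => h ?_
    simpa only [inv_smul_smul] using (hS.hasDerivAt_smul γ⁻¹ h'.hasDerivAt).differentiableAt

theorem Surf.finite2 (hS : Surf Γ) {K L : Set E} (hK : IsCompact K) (hL : IsCompact L) :
    {γ : Γ | ∃ x ∈ K, γ • x ∈ L}.Finite :=
  (hS.proper _ (hK.union hL)).subset fun _ ⟨x, h1, h2⟩ => ⟨x, Or.inl h1, Or.inr h2⟩

theorem Surf.finite_ball (hS : Surf Γ) (R R' : ℝ) :
    {γ : Γ | ∃ x : E, ‖x‖ ≤ R ∧ ‖γ • x‖ ≤ R'}.Finite :=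
  (hS.finite2 (isCompact_closedBall 0 R) (isCompact_closedBall 0 R')).subset fun _ ⟨x, h1, h2⟩ =>
    ⟨x, mem_closedBall_zero_iff.2 h1, mem_closedBall_zero_iff.2 h2⟩

theorem Surf.exists_R0 (hS : Surf Γ) : ∃ R0 : ℝ, 0 < R0 ∧ ∀ x : E, ∃ γ : Γ, ‖γ • x‖ ≤ R0 := by
  obtain ⟨K, hK, h⟩ := hS.cocompact
  obtain ⟨R, hR, h'⟩ := hK.isBounded.exists_pos_norm_le
  exact ⟨R, hR, fun x => (h x).imp fun γ hγ => h' _ hγ⟩

theorem Surf.embedded (hS : Surf Γ) (x : E) : ∃ r : ℝ, 0 < r ∧ ∀ (γ : Γ) (y : E),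
    ‖y - x‖ ≤ r → ‖γ • y - x‖ ≤ r → γ = 1 := by
  have h : ∀ᶠ p in 𝓝 (x, x), ∀ γ ∈ {γ : Γ | ∃ y ∈ Metric.closedBall x 1,
      γ • y ∈ Metric.closedBall x 1}, γ ≠ 1 → γ • p.1 ≠ p.2 := by
    refine (eventually_all_finite (hS.proper _ (isCompact_closedBall x 1))).2 fun γ _ => ?_
    by_cases q : γ = 1
    · exact Eventually.of_forall fun _ h => absurd q h
    · exact ((isOpen_ne_fun ((hS.cont γ).comp continuous_fst) continuous_snd).eventually_mem
        (x := (x, x)) fun h => q (hS.free γ x h)).mono fun _ h _ => h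
  obtain ⟨r, hr, h'⟩ := Metric.nhds_basis_closedBall.eventually_iff.1 h
  refine ⟨min r 1, lt_min hr one_pos, fun γ y h1 h2 => by_contra fun q => ?_⟩
  rw [le_min_iff, ← mem_closedBall_iff_norm, ← mem_closedBall_iff_norm] at h1 h2
  refine h' (x := (y, γ • y)) ?_ γ ⟨y, h1.2, h2.2⟩ q rfl
  rw [← closedBall_prod_same]
  exact ⟨h1.1, h2.1⟩

theorem Surf.lip (hS : Surf Γ) (γ : Γ) (R : ℝ) : ∃ C : ℝ, 0 ≤ C ∧ ∀ x y : E, ‖x‖ ≤ R → ‖y‖ ≤ R →
    ‖γ • x - γ • y‖ ≤ C * ‖x - y‖ ∧ ‖dk γ x‖ ≤ C ∧ ‖dk γ x - dk γ y‖ ≤ C * ‖x - y‖ ∧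
      ‖γ • y - γ • x - dk γ x (y - x)‖ ≤ C * ‖y - x‖ ^ 2 := by
  have hc := isCompact_closedBall (0 : E) R
  have hv := convex_closedBall (0 : E) R
  obtain ⟨K1, h1⟩ := (hS.smooth γ).contDiffOn.exists_lipschitzOnWith (by simp) hv hc
  obtain ⟨K2, h2⟩ := (hS.contDiff_dk γ).contDiffOn.exists_lipschitzOnWith (by simp) hv hc
  obtain ⟨K3, h3⟩ := hc.exists_bound_of_continuousOn (hS.contDiff_dk γ).continuous.continuousOn
  have p1 := K1.coe_nonneg
  have p2 := K2.coe_nonneg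
  have p3 := abs_nonneg K3
  have p4 := le_abs_self K3
  refine ⟨K1 + K2 + |K3|, by positivity, fun x y hx hy => ?_⟩
  rw [← mem_closedBall_zero_iff] at hx hy
  refine ⟨(h1.norm_sub_le hx hy).trans (by gcongr; linarith), (h3 x hx).trans (by linarith),
    (h2.norm_sub_le hx hy).trans (by gcongr; linarith), ?_⟩
  have k := (hv.inter (convex_closedBall x ‖y - x‖)).norm_image_sub_le_of_norm_hasFDerivWithin_le'
    (φ := dk γ x) (C := K2 * ‖y - x‖) (fun p _ => (hS.hasFDerivAt γ p).hasFDerivWithinAt)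
    (fun p hp => (h2.norm_sub_le hp.1 hx).trans
      (mul_le_mul_of_nonneg_left (mem_closedBall_iff_norm.1 hp.2) p2))
    ⟨hx, Metric.mem_closedBall_self (norm_nonneg _)⟩ ⟨hy, mem_closedBall_iff_norm.2 le_rfl⟩
  refine k.trans ?_
  rw [mul_assoc, ← sq]
  gcongr
  linarith

/-- The same constants for all elements that move a point of one ball into another ball. -/
theorem Surf.lip_unif (hS : Surf Γ) (R R' : ℝ) : ∃ C : ℝ, 0 ≤ C ∧ ∀ (γ : Γ) (p : E), ‖p‖ ≤ R →
    ‖γ • p‖ ≤ R' → ∀ x y : E, ‖x‖ ≤ R → ‖y‖ ≤ R →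
    ‖γ • x‖ ≤ C ∧ ‖γ • x - γ • y‖ ≤ C * ‖x - y‖ ∧ ‖dk γ x‖ ≤ C ∧
      ‖dk γ x - dk γ y‖ ≤ C * ‖x - y‖ ∧
      ‖γ • y - γ • x - dk γ x (y - x)‖ ≤ C * ‖y - x‖ ^ 2 := by
  choose C h0 h1 using fun γ => hS.lip γ R
  choose B h2 using fun γ => (isCompact_closedBall (0 : E) R).exists_bound_of_continuousOn
    (hS.cont γ).continuousOn
  obtain ⟨M, hM⟩ := ((hS.finite_ball R R').image fun γ => max (C γ) (B γ)).bddAbove
  refine ⟨max M 0, le_max_right _ _, fun γ p hp hp' x y hx hy => ?_⟩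
  have k := max_le_iff.1 ((hM ⟨γ, ⟨p, hp, hp'⟩, rfl⟩).trans (le_max_left M 0))
  obtain ⟨a1, a2, a3, a4⟩ := h1 γ x y hx hy
  exact ⟨(h2 γ x (mem_closedBall_zero_iff.2 hx)).trans k.2,
    a1.trans (mul_le_mul_of_nonneg_right k.1 (norm_nonneg _)), a2.trans k.1,
    a3.trans (mul_le_mul_of_nonneg_right k.1 (norm_nonneg _)),
    a4.trans (mul_le_mul_of_nonneg_right k.1 (sq_nonneg _))⟩

theorem Surf.countable (hS : Surf Γ) : Countable Γ := by
  refine countable_univ_iff.1 ((countable_iUnion fun n : ℕ =>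
    (hS.finite_ball 0 n).countable).mono fun γ _ => ?_)
  obtain ⟨n, hn⟩ := exists_nat_ge ‖γ • (0 : E)‖
  exact mem_iUnion.2 ⟨n, 0, norm_zero.le, hn⟩

theorem Surf.bdd_inv (hS : Surf Γ) {g : E → ℝ} (hg : Continuous g) (hi : Inv Γ g) :
    ∃ M : ℝ, 0 ≤ M ∧ ∀ x, |g x| ≤ M := by
  obtain ⟨K, hK, h⟩ := hS.cocompact
  obtain ⟨M, hM⟩ := hK.exists_bound_of_continuousOn hg.continuousOn
  refine ⟨max M 0, le_max_right _ _, fun x => ?_⟩
  obtain ⟨γ, hγ⟩ := h x
  rw [← hi γ x]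
  exact (hM _ hγ).trans (le_max_left _ _)

theorem Grp_det (A : E →L[ℝ] E) (v w : E) : det2 (A v) (A w) = A.det * det2 v w := by
  have e : ∀ u : E, A u = u.1 • A (1, 0) + u.2 • A (0, 1) := fun u => by
    rw [← map_smul, ← map_smul, ← map_add]
    simp
  rw [ContinuousLinearMap.det, ← LinearMap.det_toMatrix (Module.Basis.finTwoProd ℝ),
    Matrix.det_fin_two, e v, e w]
  simp [LinearMap.toMatrix_apply, det2]
  ring

theorem Surf.det2_dk (hS : Surf Γ) (γ : Γ) (x v w : E) :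
    det2 (dk γ x v) (dk γ x w) = (dk γ x).det * det2 v w := by
  have _ := hS
  exact Grp_det _ v w

/-- The translates of a compact set form a closed set. -/
theorem Surf.isClosed_orbit (hS : Surf Γ) {K : Set E} (hK : IsCompact K) :
    IsClosed {x : E | ∃ γ : Γ, γ • x ∈ K} := by
  have h : LocallyFinite fun γ : Γ => (fun x : E => γ • x) ⁻¹' K := fun x =>
    ⟨Metric.closedBall x 1, Metric.closedBall_mem_nhds x one_pos,
      (hS.finite2 (isCompact_closedBall x 1) hK).subset fun _ ⟨y, h1, h2⟩ => ⟨y, h2, h1⟩⟩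
  rw [ofPred_exists]
  exact h.isClosed_iUnion fun γ => hK.isClosed.preimage (hS.cont γ)

theorem H1.map_one (c : H1 Γ) : c.1 1 = 0 := by
  have := c.2 1 1
  rw [one_mul] at this
  linarith

theorem H1.map_inv (c : H1 Γ) (γ : Γ) : c.1 γ⁻¹ = -c.1 γ := by
  have := c.2 γ⁻¹ γ
  rw [inv_mul_cancel, H1.map_one] at this
  linarith

theorem H1.map_mul (c : H1 Γ) (γ δ : Γ) : c.1 (γ * δ) = c.1 γ + c.1 δ := c.2 γ δ

end Pool.Agent.Work.MP_1ce82a_an
end

-- merged part: Pool.Agent.Work.MP_1ce82a_an.B.Per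
section
/-! Periodisation of compactly supported functions, smooth equivariant functions, finite dimensionality.
PLAN. per_finite from Surf.finite2 (closed ball and tsupport) and finsum_eq_sum_of_support_subset. Smoothness is local:
on an open ball per is a finite sum. Invariance: finsum_comp_equiv with right multiplication.
exists_eqv_smooth: take a smooth compactly supported b >= 0 positive on the ball of radius R0 (ContDiffBump), so that
per b > 0, and U x = - (finsum of b(g x) c(g)) / per b x (locally a finite sum).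
finDim: a class vanishing on the finite set S = {g : g moves a point of the ball of radius R0+1 into that ball}
vanishes: let G0 be the kernel (a subgroup containing S); the union of the translates of the open ball of radius R0+1 by G0 is
open, nonempty, and its complement is open (it is the union of the translates by the other elements), so by connectedness
it is everything, which gives G0 = everything. So restriction to S is an injective linear map to a finite dimensional space. -/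

open Set Filter Topology MeasureTheory
open scoped ContDiff

namespace Pool.Agent.Work.MP_1ce82a_an

variable {Γ : Grp}

theorem Per_fin (hS : Surf Γ) {b : E → ℝ} (hb : HasCompactSupport b) (R : ℝ) :
    ∃ S : Finset Γ, ∀ x : E, ‖x‖ ≤ R → ∀ γ : Γ, γ ∉ S → b (γ • x) = 0 := by
  refine ⟨(hS.finite2 (isCompact_closedBall (0 : E) R) hb).toFinset, fun x hx γ hγ => ?_⟩
  by_contra h
  exact hγ ((Set.Finite.mem_toFinset _).2
    ⟨x, mem_closedBall_zero_iff.2 hx, subset_tsupport _ h⟩)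

theorem Per_sum {b : E → ℝ} {x : E} {S : Finset Γ} (h : ∀ γ : Γ, γ ∉ S → b (γ • x) = 0)
    (w : Γ → ℝ) : ∑ᶠ γ : Γ, b (γ • x) * w γ = ∑ γ ∈ S, b (γ • x) * w γ :=
  finsum_eq_sum_of_support_subset _ fun γ hγ => by
    by_contra e
    exact hγ (by simp only [h γ e, zero_mul])

theorem Per_sum' {b : E → ℝ} {x : E} {S : Finset Γ} (h : ∀ γ : Γ, γ ∉ S → b (γ • x) = 0) :
    per Γ b x = ∑ γ ∈ S, b (γ • x) := by
  have := Per_sum h fun _ => 1
  simp only [mul_one] at this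
  exact this

theorem Per_smooth (hS : Surf Γ) {b : E → ℝ} (hb : ContDiff ℝ ∞ b) (hc : HasCompactSupport b)
    (w : Γ → ℝ) : ContDiff ℝ ∞ fun x : E => ∑ᶠ γ : Γ, b (γ • x) * w γ := by
  refine contDiff_iff_contDiffAt.2 fun x => ?_
  obtain ⟨S, h⟩ := Per_fin hS hc (‖x‖ + 1)
  have h1 : ContDiff ℝ ∞ fun y : E => ∑ γ ∈ S, b (γ • y) * w γ :=
    ContDiff.sum fun γ _ => (hb.comp (hS.smooth γ)).mul contDiff_const
  refine h1.contDiffAt.congr_of_eventuallyEq ?_
  filter_upwards [continuous_norm.continuousAt.eventually_lt continuousAt_const (lt_add_one ‖x‖)]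
    with y hy
  exact Per_sum (h y hy.le) w

theorem per_finite (hS : Surf Γ) {b : E → ℝ} (hb : HasCompactSupport b) (R : ℝ) :
    ∃ S : Finset Γ, ∀ x : E, ‖x‖ ≤ R →
      per Γ b x = ∑ γ ∈ S, b (γ • x) ∧ ∀ γ : Γ, γ ∉ S → b (γ • x) = 0 := by
  obtain ⟨S, h⟩ := Per_fin hS hb R
  exact ⟨S, fun x hx => ⟨Per_sum' (h x hx), h x hx⟩⟩

theorem per_contDiff (hS : Surf Γ) {b : E → ℝ} (hb : ContDiff ℝ ∞ b) (hc : HasCompactSupport b) :
    ContDiff ℝ ∞ (per Γ b) := by
  have := Per_smooth hS hb hc fun _ => 1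
  simp only [mul_one] at this
  exact this

theorem per_inv (b : E → ℝ) : Inv Γ (per Γ b) := fun δ x => by
  simp only [per, ← mul_smul]
  exact finsum_comp_equiv (Equiv.mulRight δ) (f := fun γ : Γ => b (γ • x))

theorem per_nonneg {b : E → ℝ} (hb : ∀ x, 0 ≤ b x) (x : E) : 0 ≤ per Γ b x :=
  finsum_nonneg fun _ => hb _

theorem le_per (hS : Surf Γ) {b : E → ℝ} (hc : HasCompactSupport b) (hb : ∀ x, 0 ≤ b x) (γ : Γ)
    (x : E) : b (γ • x) ≤ per Γ b x := by
  obtain ⟨S, h⟩ := Per_fin hS hc ‖x‖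
  by_cases hγ : γ ∈ S
  · rw [Per_sum' (h x le_rfl)]
    exact Finset.single_le_sum (f := fun γ : Γ => b (γ • x)) (fun _ _ => hb _) hγ
  · rw [h x le_rfl γ hγ]
    exact per_nonneg hb x

theorem exists_of_per_ne_zero {b : E → ℝ} {x : E} (h : per Γ b x ≠ 0) :
    ∃ γ : Γ, b (γ • x) ≠ 0 := by
  by_contra e
  exact h (finsum_eq_zero_of_forall_eq_zero fun γ => not_not.1 fun e' => e ⟨γ, e'⟩)

theorem per_eq_of_unique {b : E → ℝ} {x : E} (h : ∀ γ : Γ, γ ≠ 1 → b (γ • x) = 0) :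
    per Γ b x = b x :=
  (finsum_eq_single _ 1 h).trans (by rw [one_smul])

theorem per_le_per (hS : Surf Γ) {b1 b2 : E → ℝ} (h1 : HasCompactSupport b1)
    (h2 : HasCompactSupport b2) {k1 k2 : ℝ} (h : ∀ x, k1 * b1 x ≤ k2 * b2 x) (x : E) :
    k1 * per Γ b1 x ≤ k2 * per Γ b2 x := by
  classical
  obtain ⟨S, a⟩ := Per_fin hS h1 ‖x‖
  obtain ⟨T, b⟩ := Per_fin hS h2 ‖x‖
  rw [Per_sum' (S := S ∪ T) fun γ e => a x le_rfl γ fun e' => e (Finset.mem_union_left _ e'),
    Per_sum' (S := S ∪ T) fun γ e => b x le_rfl γ fun e' => e (Finset.mem_union_right _ e'),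
    Finset.mul_sum, Finset.mul_sum]
  exact Finset.sum_le_sum fun γ _ => h _

theorem exists_eqv_smooth (hS : Surf Γ) (c : H1 Γ) : ∃ U : E → ℝ, ContDiff ℝ ∞ U ∧ Eqv c U := by
  obtain ⟨R0, h0, hR⟩ := hS.exists_R0
  let b : ContDiffBump (0 : E) := ⟨R0, R0 + 1, h0, lt_add_one _⟩
  have hp : ∀ x, per Γ b x ≠ 0 := fun x => by
    obtain ⟨γ, hγ⟩ := hR x
    have h1 := le_per hS b.hasCompactSupport b.nonneg' γ x
    rw [b.one_of_mem_closedBall (mem_closedBall_zero_iff.2 hγ)] at h1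
    exact (zero_lt_one.trans_le h1).ne'
  refine ⟨fun x => -(∑ᶠ γ : Γ, b (γ • x) * c.1 γ) / per Γ b x,
    (Per_smooth hS b.contDiff b.hasCompactSupport _).neg.div
      (per_contDiff hS b.contDiff b.hasCompactSupport) hp, fun δ x => ?_⟩
  have h1 : ∑ᶠ γ : Γ, b (γ • δ • x) * c.1 γ = ∑ᶠ γ : Γ, b (γ • x) * (c.1 γ - c.1 δ) := by
    rw [← finsum_comp_equiv (Equiv.mulRight δ) (f := fun γ : Γ => b (γ • x) * (c.1 γ - c.1 δ))]
    refine finsum_congr fun γ => ?_
    rw [Equiv.coe_mulRight, H1.map_mul, add_sub_cancel_right, mul_smul]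
  obtain ⟨S, h⟩ := Per_fin hS b.hasCompactSupport ‖x‖
  have h2 : ∑ᶠ γ : Γ, b (γ • x) * (c.1 γ - c.1 δ) =
      ∑ᶠ γ : Γ, b (γ • x) * c.1 γ - per Γ b x * c.1 δ := by
    rw [Per_sum (h x le_rfl), Per_sum (h x le_rfl), Per_sum' (h x le_rfl), Finset.sum_mul,
      ← Finset.sum_sub_distrib]
    exact Finset.sum_congr rfl fun γ _ => mul_sub _ _ _
  have h3 := hp x
  beta_reduce
  rw [h1, h2, per_inv b δ x]
  field_simp
  ring

theorem finDim (hS : Surf Γ) : ∃ b : ℕ, Nonempty ((Fin b → ℝ) ≃ₗ[ℝ] H1 Γ) := by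
  obtain ⟨R0, h0, hR⟩ := hS.exists_R0
  have hF := (hS.finite_ball (R0 + 1) (R0 + 1)).to_subtype
  let r : H1 Γ →ₗ[ℝ] ({γ : Γ | ∃ x : E, ‖x‖ ≤ R0 + 1 ∧ ‖γ • x‖ ≤ R0 + 1} → ℝ) :=
    LinearMap.funLeft ℝ ℝ Subtype.val ∘ₗ (H1 Γ).subtype
  have hr : Function.Injective r := by
    refine (injective_iff_map_eq_zero r).2 fun c hc => Subtype.ext (funext fun δ => ?_)
    have ho : ∀ p : Γ → Prop, IsOpen {x : E | ∃ γ : Γ, p γ ∧ ‖γ • x‖ < R0 + 1} := fun p => by
      rw [Set.ofPred_exists]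
      refine isOpen_iUnion fun γ => ?_
      by_cases e : p γ
      · simpa only [e, true_and] using isOpen_lt (hS.cont γ).norm continuous_const
      · simp [e]
    by_contra hδ
    obtain ⟨x, -, ⟨γ, h1, h2⟩, γ', h3, h4⟩ := isPreconnected_univ _ _ (ho fun γ => c.1 γ = 0)
      (ho fun γ => c.1 γ ≠ 0) (fun x _ => by
        obtain ⟨γ, hγ⟩ := hR x
        by_cases e : c.1 γ = 0
        · exact .inl ⟨γ, e, by linarith⟩
        · exact .inr ⟨γ, e, by linarith⟩)
      ⟨0, trivial, 1, H1.map_one c, by rw [one_smul, norm_zero]; linarith⟩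
      ⟨δ⁻¹ • 0, trivial, δ, hδ, by rw [smul_inv_smul, norm_zero]; linarith⟩
    have h5 : c.1 (γ' * γ⁻¹) = 0 :=
      congrFun hc ⟨γ' * γ⁻¹, γ • x, h2.le, by rw [mul_smul, inv_smul_smul]; exact h4.le⟩
    rw [H1.map_mul, H1.map_inv, h1, neg_zero, add_zero] at h5
    exact h3 h5
  have := Module.Finite.of_injective r hr
  exact ⟨_, ⟨(Module.finBasis ℝ (H1 Γ)).equivFun.symm⟩⟩

theorem Per_hess {u : E → E} (hu : ContDiff ℝ ∞ u) {p : E} (hp : u p = 0) (w : E) :
    ‖fderiv ℝ u p w‖ ^ 2 ≤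
      fderiv ℝ (fderiv ℝ fun y => (u y).1 * (u y).1 + (u y).2 * (u y).2) p w w := by
  have hd : ∀ y, HasFDerivAt u (fderiv ℝ u y) y := fun y =>
    (hu.differentiable (by simp) y).hasFDerivAt
  have hD : HasFDerivAt (fderiv ℝ u) (fderiv ℝ (fderiv ℝ u) p) p :=
    ((contDiff_infty_iff_fderiv.1 hu).2.differentiable (by simp) p).hasFDerivAt
  have key : ∀ l : E →L[ℝ] ℝ, (∀ y, HasFDerivAt (fun y => l (u y) * l (u y))
      (l (u y) • l.comp (fderiv ℝ u y) + l (u y) • l.comp (fderiv ℝ u y)) y) ∧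
      ∃ A : E →L[ℝ] E →L[ℝ] ℝ, HasFDerivAt (fun y => l (u y) • l.comp (fderiv ℝ u y)) A p ∧
        A w w = l (fderiv ℝ u p w) ^ 2 := fun l => by
    have h1 : ∀ y, HasFDerivAt (fun y => l (u y)) (l.comp (fderiv ℝ u y)) y := fun y =>
      l.hasFDerivAt.comp y (hd y)
    refine ⟨fun y => (h1 y).mul (h1 y), _,
      (h1 p).smul ((ContinuousLinearMap.compL ℝ E E ℝ l).hasFDerivAt.comp p hD), ?_⟩
    simp [hp, sq]
  obtain ⟨a1, A, a2, a3⟩ := key (ContinuousLinearMap.fst ℝ ℝ ℝ)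
  obtain ⟨b1, B, b2, b3⟩ := key (ContinuousLinearMap.snd ℝ ℝ ℝ)
  have e := funext fun y => ((a1 y).fun_add (b1 y)).fderiv
  have e' := ((a2.fun_add a2).fun_add (b2.fun_add b2)).fderiv
  rw [← e] at e'
  refine le_of_le_of_eq ?_ (congrArg (fun T : E →L[ℝ] E →L[ℝ] ℝ => T w w) e').symm
  simp only [add_apply, a3, b3, ContinuousLinearMap.coe_fst',
    ContinuousLinearMap.coe_snd']
  generalize fderiv ℝ u p w = v
  have c1 := sq_nonneg v.1
  have c2 := sq_nonneg v.2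
  rw [Prod.norm_def]
  rcases max_choice ‖v.1‖ ‖v.2‖ with h | h <;> rw [h, Real.norm_eq_abs, sq_abs] <;> linarith

/-- An invariant function vanishing exactly on one orbit, with quadratic growth there. -/
theorem exists_quadPot (hS : Surf Γ) (x0 : E) : ∃ q : E → ℝ, ContDiff ℝ ∞ q ∧ Inv Γ q ∧
    q x0 = 0 ∧ (∀ x, 0 ≤ q x) ∧ (∀ x, q x = 0 → ∃ γ : Γ, x = γ • x0) ∧
    ∀ γ : Γ, ∃ μ : ℝ, 0 < μ ∧ ∀ w : E,
      μ * ‖w‖ ^ 2 ≤ fderiv ℝ (fderiv ℝ q) (γ • x0) w w := by
  obtain ⟨r, h0, hr⟩ := hS.embedded x0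
  let β : ContDiffBump x0 := ⟨r / 2, r, half_pos h0, half_lt_self h0⟩
  let n : E → ℝ := fun y => (y - x0).1 * (y - x0).1 + (y - x0).2 * (y - x0).2
  let h : E → ℝ := fun y => β y * (1 - n y)
  have hn : ∀ y, 0 ≤ n y := fun y => add_nonneg (mul_self_nonneg _) (mul_self_nonneg _)
  have hc : ContDiff ℝ ∞ h := β.contDiff.mul (by fun_prop)
  have hs : ∀ y, h y ≠ 0 → ‖y - x0‖ ≤ r := fun y hy => by
    have : y ∈ Function.support β := left_ne_zero_of_mul hy
    rw [β.support_eq] at this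
    exact (mem_ball_iff_norm.1 this).le
  have hu : ∀ y, ‖y - x0‖ ≤ r → per Γ h y = h y := fun y hy =>
    per_eq_of_unique fun γ hγ => not_not.1 fun e => hγ (hr γ y hy (hs _ e))
  have ha : ∀ x, per Γ h x = 0 ∨ ∃ γ : Γ, per Γ h x = h (γ • x) := fun x => by
    by_cases e : per Γ h x = 0
    · exact .inl e
    · obtain ⟨γ, hγ⟩ := exists_of_per_ne_zero e
      exact .inr ⟨γ, (per_inv h γ x).symm.trans (hu _ (hs _ hγ))⟩
  have hb : ∀ y, h y = β y - β y * n y := fun y => by simp only [h]; ring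
  have hi : Inv Γ fun x => 1 - per Γ h x := fun γ x => by simp only [per_inv h γ x]
  have hl : ∀ y, ‖y - x0‖ < r / 2 → 1 - per Γ h y = n y := fun y hy => by
    rw [hu y (by linarith), hb, β.one_of_mem_closedBall (mem_closedBall_iff_norm.2 hy.le)]
    ring
  refine ⟨fun x => 1 - per Γ h x,
    contDiff_const.sub (per_contDiff hS hc β.hasCompactSupport.mul_right), hi, ?_, fun x => ?_,
    fun x hx => ?_, fun γ => ?_⟩
  · exact (hl x0 (by rw [sub_self, norm_zero]; exact half_pos h0)).trans (by simp [n])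
  · rcases ha x with e | ⟨γ, e⟩
    · simp [e]
    · have := mul_nonneg (β.nonneg' (γ • x)) (hn (γ • x))
      have := β.le_one (x := γ • x)
      rw [hb] at e
      linarith
  · rcases ha x with e | ⟨γ, e⟩
    · simp [e] at hx
    · have a1 := mul_nonneg (β.nonneg' (γ • x)) (hn (γ • x))
      have a2 := β.le_one (x := γ • x)
      rw [hb] at e
      have a3 : β (γ • x) = 1 := by linarith
      rw [a3, one_mul] at e
      have a4 : n (γ • x) = 0 := by linarith
      obtain ⟨a5, a6⟩ := mul_self_add_mul_self_eq_zero.1 a4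
      exact ⟨γ⁻¹, eq_inv_smul_iff.2 (sub_eq_zero.1 (Prod.ext a5 a6))⟩
  · have hu : ContDiff ℝ ∞ fun y : E => γ⁻¹ • y - x0 := (hS.smooth γ⁻¹).sub contDiff_const
    have hp : γ⁻¹ • γ • x0 - x0 = 0 := by rw [inv_smul_smul, sub_self]
    have he : (fun x => 1 - per Γ h x) =ᶠ[𝓝 (γ • x0)] fun y => n (γ⁻¹ • y) := by
      filter_upwards [hu.continuous.norm.continuousAt.eventually_lt (x₀ := γ • x0)
        continuousAt_const (by rw [hp, norm_zero]; exact half_pos h0)] with y hy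
      exact (hi γ⁻¹ y).symm.trans (hl _ hy)
    refine ⟨((‖dk γ x0‖ + 1) ^ 2)⁻¹, by positivity, fun w => ?_⟩
    rw [he.fderiv.fderiv_eq]
    refine le_trans ?_ (Per_hess hu hp w)
    rw [((hS.hasFDerivAt γ⁻¹ (γ • x0)).sub_const x0).fderiv, inv_mul_le_iff₀ (by positivity),
      ← mul_pow]
    refine pow_le_pow_left₀ (norm_nonneg _) ?_ 2
    have a1 := hS.dk_inv' γ (γ • x0) w
    rw [inv_smul_smul] at a1
    have a2 := (dk γ x0).le_opNorm (dk γ⁻¹ (γ • x0) w)
    rw [a1] at a2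
    exact a2.trans (mul_le_mul_of_nonneg_right (lt_add_one _).le (norm_nonneg _))

end Pool.Agent.Work.MP_1ce82a_an
end
end

-- merged part: Pool.Agent.Work.MP_1ce82a_an.A.ClsB
section
/-! Pointwise consequences of the modulus class.
PLAN. All statements are one variable Taylor formulas along segments, which stay in the product of balls
(convex). D2 is symmetric (ContDiffAt.isSymmSndFDerivAt). For the second difference write
F(z+y)+F(z-y)-2F(z) as an average of D2 F(z+sy)(y,y) and expand y=(y1,0)+(0,y2); absorb the mixed term by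
2ab <= a^2/e + e b^2. Domination: test with the segment of unit speed (time = distance), resp. with short
segments of velocity v and let the time go to zero. -/

open Set Filter Topology MeasureTheory
open scoped ContDiff

namespace Pool.Agent.Work.MP_1ce82a_an

variable {Γ : Grp}

theorem Cls.mono {m : Md} {R R' : ℝ} {F : E × E → ℝ} (h : Cls m R F) (hR : R' ≤ R) :
    Cls m R' F := by
  exact ⟨h.c2, h.conv, fun A x v hx => h.sup A x v (hx.trans hR),
    fun K x v hx => h.bd0 K x v (hx.trans hR), fun K x v hx => h.bd1 K x v (hx.trans hR),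
    fun K x v hx => h.bd2 K x v (hx.trans hR), fun K x v w hx => h.lo K x v w (hx.trans hR)⟩

theorem Cls.cont {m : Md} {R : ℝ} {F : E × E → ℝ} (h : Cls m R F) : Continuous F := by
  exact h.c2.continuous

theorem D2_symm {F : E × E → ℝ} (hF : ContDiff ℝ 2 F) (z a b : E × E) :
    D2 F z a b = D2 F z b a := by
  exact (hF.contDiffAt.isSymmSndFDerivAt (by simp)).eq a b

theorem ClsB_c1 {F : E × E → ℝ} (hF : ContDiff ℝ 2 F) : ContDiff ℝ 1 (fderiv ℝ F) :=
  hF.fderiv_right (by norm_num)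

theorem continuous_D2 {F : E × E → ℝ} (hF : ContDiff ℝ 2 F) : Continuous (D2 F) := by
  exact (ClsB_c1 hF).continuous_fderiv one_ne_zero

theorem hasFDerivAt_fderiv {F : E × E → ℝ} (hF : ContDiff ℝ 2 F) (z : E × E) :
    HasFDerivAt (fderiv ℝ F) (D2 F z) z := by
  exact ((ClsB_c1 hF).differentiable one_ne_zero z).hasFDerivAt

theorem clm_split (p : E × E →L[ℝ] ℝ) (a b : E) : p (a, b) = xpart p a + vpart p b := by
  have e : (a, b) = ((a, 0) : E × E) + (0, b) := by simp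
  rw [e, map_add]
  rfl

theorem vpart_apply (p : E × E →L[ℝ] ℝ) (b : E) : vpart p b = p (0, b) := by
  rfl

theorem xpart_apply (p : E × E →L[ℝ] ℝ) (a : E) : xpart p a = p (a, 0) := by
  rfl

theorem norm_vpart_le (p : E × E →L[ℝ] ℝ) : ‖vpart p‖ ≤ ‖p‖ := by
  refine ContinuousLinearMap.opNorm_le_bound _ (norm_nonneg _) fun b => ?_
  have h := p.le_opNorm (0, b)
  rwa [Prod.norm_mk, norm_zero, max_eq_right (norm_nonneg b)] at h

theorem norm_xpart_le (p : E × E →L[ℝ] ℝ) : ‖xpart p‖ ≤ ‖p‖ := by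
  refine ContinuousLinearMap.opNorm_le_bound _ (norm_nonneg _) fun b => ?_
  have h := p.le_opNorm (b, 0)
  rwa [Prod.norm_mk, norm_zero, max_eq_left (norm_nonneg b)] at h

theorem ClsB_mono {f f' : ℝ → ℝ} (h1 : ∀ s, HasDerivAt f (f' s) s)
    (h2 : ∀ s ∈ Icc (0 : ℝ) 1, 0 ≤ f' s) {s : ℝ} (hs : s ∈ Icc (0 : ℝ) 1) : f 0 ≤ f s :=
  monotoneOn_of_deriv_nonneg (convex_Icc 0 1)
    (fun t _ => (h1 t).continuousAt.continuousWithinAt)
    (fun t _ => (h1 t).differentiableAt.differentiableWithinAt)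
    (fun t ht => by rw [(h1 t).deriv]; exact h2 t (interior_subset ht))
    (left_mem_Icc.2 zero_le_one) hs hs.1

theorem ClsB_one {g g' g'' : ℝ → ℝ} (h1 : ∀ s, HasDerivAt g (g' s) s)
    (h2 : ∀ s, HasDerivAt g' (g'' s) s) {c : ℝ} (hc : ∀ s ∈ Icc (0 : ℝ) 1, c ≤ g'' s) :
    g' 0 + c ≤ g' 1 ∧ g 0 + g' 0 + c / 2 ≤ g 1 := by
  have k1 : ∀ s ∈ Icc (0 : ℝ) 1, g' 0 + c * s ≤ g' s := by
    intro s hs
    have h3 := ClsB_mono (f := fun s => g' s - c * s) (f' := fun s => g'' s - c * 1)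
      (fun s => (h2 s).sub ((hasDerivAt_id s).const_mul c))
      (fun s hs => by have := hc s hs; linarith) hs
    linarith
  have k2 := ClsB_mono (f := fun s => g s - g' 0 * s - c / 2 * (s * s))
    (f' := fun s => g' s - g' 0 * 1 - c / 2 * (1 * s + s * 1))
    (fun s => ((h1 s).sub ((hasDerivAt_id s).const_mul _)).sub
      (((hasDerivAt_id s).mul (hasDerivAt_id s)).const_mul _))
    (fun s hs => by have := k1 s hs; linarith) (right_mem_Icc.2 zero_le_one)
  have k3 := k1 1 (right_mem_Icc.2 zero_le_one)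
  constructor <;> linarith

theorem ClsB_line (z d : E × E) (s : ℝ) : HasDerivAt (fun s : ℝ => z + s • d) d s := by
  have h := ((hasDerivAt_id s).smul_const d).const_add z
  rwa [one_smul] at h

theorem ClsB_d1 {F : E × E → ℝ} (hF : ContDiff ℝ 2 F) (z d : E × E) (s : ℝ) :
    HasDerivAt (fun s : ℝ => F (z + s • d)) (fderiv ℝ F (z + s • d) d) s :=
  (hF.differentiable two_ne_zero _).hasFDerivAt.comp_hasDerivAt s (ClsB_line z d s)

theorem ClsB_d2 {F : E × E → ℝ} (hF : ContDiff ℝ 2 F) (z d : E × E) (s : ℝ) :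
    HasDerivAt (fun s : ℝ => fderiv ℝ F (z + s • d) d) (D2 F (z + s • d) d d) s :=
  (ContinuousLinearMap.apply ℝ ℝ d).hasFDerivAt.comp_hasDerivAt s
    ((hasFDerivAt_fderiv hF _).comp_hasDerivAt s (ClsB_line z d s))

theorem ClsB_tay {F : E × E → ℝ} (hF : ContDiff ℝ 2 F) (z d : E × E) {c : ℝ}
    (hc : ∀ s ∈ Icc (0 : ℝ) 1, c ≤ D2 F (z + s • d) d d) :
    fderiv ℝ F z d + c ≤ fderiv ℝ F (z + d) d ∧ F z + fderiv ℝ F z d + c / 2 ≤ F (z + d) := by
  have h := ClsB_one (ClsB_d1 hF z d) (ClsB_d2 hF z d) hc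
  simpa only [zero_smul, add_zero, one_smul] using h

theorem ClsB_tay' {F : E × E → ℝ} (hF : ContDiff ℝ 2 F) (z d : E × E) {c : ℝ}
    (hc : ∀ s ∈ Icc (0 : ℝ) 1, D2 F (z + s • d) d d ≤ c) :
    F (z + d) ≤ F z + fderiv ℝ F z d + c / 2 := by
  have h := (ClsB_one (fun s => (ClsB_d1 hF z d s).fun_neg) (fun s => (ClsB_d2 hF z d s).fun_neg)
    (c := -c) fun s hs => neg_le_neg (hc s hs)).2
  simp only [zero_smul, add_zero, one_smul] at h
  linarith

theorem ClsB_end (x v w : E) : ((x, w) : E × E) + (0, v - w) = (x, v) := by simp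

theorem ClsB_mid (x v w : E) (s : ℝ) :
    ((x, w) : E × E) + s • (0, v - w) = (x, w + s • (v - w)) := by simp

theorem ClsB_ball {K : ℝ} {a b : E} (ha : ‖a‖ ≤ K) (hb : ‖b‖ ≤ K) {s : ℝ}
    (hs : s ∈ Icc (0 : ℝ) 1) : ‖a + s • (b - a)‖ ≤ K :=
  mem_closedBall_zero_iff.1 ((convex_closedBall (0 : E) K).add_smul_sub_mem
    (mem_closedBall_zero_iff.2 ha) (mem_closedBall_zero_iff.2 hb) hs)

theorem ClsB_conv (R K : ℝ) : Convex ℝ {z : E × E | ‖z.1‖ ≤ R ∧ ‖z.2‖ ≤ K} := by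
  have e : {z : E × E | ‖z.1‖ ≤ R ∧ ‖z.2‖ ≤ K} =
      Metric.closedBall (0 : E) R ×ˢ Metric.closedBall (0 : E) K := by
    ext z
    simp only [mem_ofPred_eq, mem_prod, mem_closedBall_zero_iff]
  rw [e]
  exact (convex_closedBall _ _).prod (convex_closedBall _ _)

/-- Linear minorant, from fibrewise convexity. -/
theorem minor_of_conv {F : E × E → ℝ} (hF : ContDiff ℝ 2 F)
    (hc : ∀ (z : E × E) (w : E), w ≠ 0 → 0 < D2 F z (0, w) (0, w)) (x v w : E) :
    F (x, w) + vpart (fderiv ℝ F (x, w)) (v - w) ≤ F (x, v) := by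
  have h := (ClsB_tay hF (x, w) (0, v - w) (c := 0) fun s _ => by
    by_cases h0 : v - w = 0
    · rw [h0, Prod.mk_zero_zero, map_zero]
    · exact (hc _ _ h0).le).2
  rw [ClsB_end] at h
  rw [vpart_apply]
  linarith

/-- A covector below a strictly convex function touches it at most once, and is the derivative
there. -/
theorem touch_unique {F : E × E → ℝ} (hF : ContDiff ℝ 2 F)
    (hc : ∀ (z : E × E) (w : E), w ≠ 0 → 0 < D2 F z (0, w) (0, w)) {x : E} {p : E →L[ℝ] ℝ}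
    (hp : ∀ v, p v ≤ F (x, v)) {v w : E} (hv : p v = F (x, v)) (hw : p w = F (x, w)) :
    v = w ∧ p = vpart (fderiv ℝ F (x, v)) := by
  have key : ∀ v, p v = F (x, v) → p = vpart (fderiv ℝ F (x, v)) := by
    intro v hv
    have h1 : HasFDerivAt (fun v => F (x, v)) (vpart (fderiv ℝ F (x, v))) v :=
      (hF.differentiable two_ne_zero _).hasFDerivAt.comp v (hasFDerivAt_prodMk_right x v)
    have h2 : IsLocalMin (fun v => F (x, v) - p v) v := Eventually.of_forall fun u => by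
      have := hp u
      linarith
    exact (sub_eq_zero.1 (h2.hasFDerivAt_eq_zero (h1.sub p.hasFDerivAt))).symm
  refine ⟨?_, key v hv⟩
  by_contra hne
  obtain ⟨s, -, hs⟩ := exists_hasDerivAt_eq_zero zero_lt_one
    (fun t _ => (ClsB_d2 hF (x, w) (0, v - w) t).continuousAt.continuousWithinAt)
    (by
      simp only [zero_smul, add_zero, one_smul, ClsB_end]
      rw [← vpart_apply, ← vpart_apply, ← key v hv, ← key w hw])
    fun t _ => ClsB_d2 hF (x, w) (0, v - w) t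
  exact (hc _ _ (sub_ne_zero.2 hne)).ne' hs

theorem ClsB_str {m : Md} {R : ℝ} {F : E × E → ℝ} (h : Cls m R F) {K : ℝ} {x v w : E}
    (hx : ‖x‖ ≤ R) (hv : ‖v‖ ≤ K) (hw : ‖w‖ ≤ K) :
    fderiv ℝ F (x, w) (0, v - w) + m.mu K * ‖v - w‖ ^ 2 ≤ fderiv ℝ F (x, v) (0, v - w) ∧
      F (x, w) + fderiv ℝ F (x, w) (0, v - w) + m.mu K * ‖v - w‖ ^ 2 / 2 ≤ F (x, v) := by
  have h1 := ClsB_tay h.c2 (x, w) (0, v - w) (c := m.mu K * ‖v - w‖ ^ 2) fun s hs => by
    rw [ClsB_mid]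
    exact h.lo K x _ _ hx (ClsB_ball hw hv hs)
  rwa [ClsB_end] at h1

theorem Cls.strong {m : Md} {R : ℝ} {F : E × E → ℝ} (h : Cls m R F) {K : ℝ} {x v w : E}
    (hx : ‖x‖ ≤ R) (hv : ‖v‖ ≤ K) (hw : ‖w‖ ≤ K) :
    F (x, w) + vpart (fderiv ℝ F (x, w)) (v - w) + m.mu K / 2 * ‖v - w‖ ^ 2 ≤ F (x, v) := by
  have h1 := (ClsB_str h hx hv hw).2
  rw [vpart_apply]
  linarith

theorem Cls.strong_mono {m : Md} {R : ℝ} {F : E × E → ℝ} (h : Cls m R F) {K : ℝ} {x v w : E}
    (hx : ‖x‖ ≤ R) (hv : ‖v‖ ≤ K) (hw : ‖w‖ ≤ K) :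
    m.mu K * ‖v - w‖ ≤ ‖vpart (fderiv ℝ F (x, v)) - vpart (fderiv ℝ F (x, w))‖ := by
  have h1 := (ClsB_str h hx hv hw).1
  have h2 := (vpart (fderiv ℝ F (x, v)) - vpart (fderiv ℝ F (x, w))).le_opNorm (v - w)
  have h3 := (le_abs_self _).trans h2
  rw [sub_apply, vpart_apply, vpart_apply] at h3
  rcases (norm_nonneg (v - w)).eq_or_lt with h0 | h0
  · rw [← h0, mul_zero]
    exact norm_nonneg _
  · refine le_of_mul_le_mul_right ?_ h0
    nlinarith

theorem Cls.lip0 {m : Md} {R : ℝ} {F : E × E → ℝ} (h : Cls m R F) {K : ℝ} {z y : E × E}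
    (hz : ‖z.1‖ ≤ R ∧ ‖z.2‖ ≤ K) (hy : ‖y.1‖ ≤ R ∧ ‖y.2‖ ≤ K) :
    |F z - F y| ≤ m.La K * ‖z - y‖ := by
  exact (ClsB_conv R K).norm_image_sub_le_of_norm_fderiv_le (𝕜 := ℝ)
    (fun q _ => h.c2.differentiable two_ne_zero q) (fun q hq => h.bd1 K q.1 q.2 hq.1 hq.2) hy hz

theorem Cls.lip1 {m : Md} {R : ℝ} {F : E × E → ℝ} (h : Cls m R F) {K : ℝ} {z y : E × E}
    (hz : ‖z.1‖ ≤ R ∧ ‖z.2‖ ≤ K) (hy : ‖y.1‖ ≤ R ∧ ‖y.2‖ ≤ K) :
    ‖fderiv ℝ F z - fderiv ℝ F y‖ ≤ m.La K * ‖z - y‖ := by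
  exact (ClsB_conv R K).norm_image_sub_le_of_norm_fderiv_le (𝕜 := ℝ)
    (fun q _ => (ClsB_c1 h.c2).differentiable one_ne_zero q)
    (fun q hq => h.bd2 K q.1 q.2 hq.1 hq.2) hy hz

theorem ClsB_bd {m : Md} {R : ℝ} {F : E × E → ℝ} (h : Cls m R F) {K : ℝ} {q : E × E}
    (hq : ‖q.1‖ ≤ R ∧ ‖q.2‖ ≤ K) (a b : E × E) : |D2 F q a b| ≤ m.La K * ‖a‖ * ‖b‖ :=
  (D2 F q).le_of_opNorm₂_le_of_le (h.bd2 K q.1 q.2 hq.1 hq.2) le_rfl le_rfl

theorem ClsB_low {m : Md} {R : ℝ} {F : E × E → ℝ} (h : Cls m R F) {K : ℝ} {q : E × E}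
    (hq : ‖q.1‖ ≤ R ∧ ‖q.2‖ ≤ K) (d : E × E) :
    m.mu K / 2 * ‖d.2‖ ^ 2 - (m.La K + 2 * m.La K ^ 2 / m.mu K) * ‖d.1‖ ^ 2 ≤ D2 F q d d := by
  obtain ⟨a, b⟩ := d
  have e : ((a, b) : E × E) = (a, 0) + (0, b) := by simp
  have n1 : ‖((a, 0) : E × E)‖ = ‖a‖ := by
    rw [Prod.norm_mk, norm_zero, max_eq_left (norm_nonneg a)]
  have n2 : ‖((0, b) : E × E)‖ = ‖b‖ := by
    rw [Prod.norm_mk, norm_zero, max_eq_right (norm_nonneg b)]
  have h1 := (abs_le.1 (ClsB_bd h hq (a, 0) (a, 0))).1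
  have h2 := (abs_le.1 (ClsB_bd h hq (a, 0) (0, b))).1
  have h3 := (abs_le.1 (ClsB_bd h hq (0, b) (a, 0))).1
  have h4 := h.lo K q.1 q.2 b hq.1 hq.2
  have e2 : D2 F q (a, b) (a, b) = D2 F q (a, 0) (a, 0) + D2 F q (a, 0) (0, b) +
      D2 F q (0, b) (a, 0) + D2 F q (0, b) (0, b) := by
    rw [e]
    simp only [map_add, add_apply]
    ring
  rw [n1] at h1 h2 h3
  rw [n2] at h2 h3
  have hm := m.mu_pos K
  have h5 : 0 ≤ m.mu K / 2 * (‖b‖ - 2 * m.La K / m.mu K * ‖a‖) ^ 2 := by positivity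
  have h6 : m.mu K / 2 * (‖b‖ - 2 * m.La K / m.mu K * ‖a‖) ^ 2 = m.mu K / 2 * ‖b‖ ^ 2 -
      2 * (m.La K * ‖a‖ * ‖b‖) + 2 * m.La K ^ 2 / m.mu K * ‖a‖ ^ 2 := by
    field_simp
    ring
  rw [e2]
  dsimp only at h4 ⊢
  nlinarith

theorem Cls.taylor {m : Md} {R : ℝ} {F : E × E → ℝ} (h : Cls m R F) {K : ℝ} {z y : E × E}
    (hz : ‖z.1‖ ≤ R ∧ ‖z.2‖ ≤ K) (hy : ‖y.1‖ ≤ R ∧ ‖y.2‖ ≤ K) :
    |F y - F z - fderiv ℝ F z (y - z)| ≤ m.La K * ‖y - z‖ ^ 2 := by
  have k : ∀ s ∈ Icc (0 : ℝ) 1, |D2 F (z + s • (y - z)) (y - z) (y - z)| ≤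
      m.La K * ‖y - z‖ * ‖y - z‖ := fun s hs =>
    ClsB_bd h ((ClsB_conv R K).add_smul_sub_mem hz hy hs) _ _
  have h1 := (ClsB_tay h.c2 z (y - z) fun s hs => (abs_le.1 (k s hs)).1).2
  have h2 := ClsB_tay' h.c2 z (y - z) fun s hs => (abs_le.1 (k s hs)).2
  rw [add_sub_cancel] at h1 h2
  have h3 : 0 ≤ m.La K * ‖y - z‖ * ‖y - z‖ := by
    have := m.La_nonneg K
    positivity
  rw [abs_le]
  constructor <;> nlinarith

theorem Cls.second_diff (m : Md) (K : ℝ) : ∃ C : ℝ, 0 ≤ C ∧ ∀ (R : ℝ) (F : E × E → ℝ), Cls m R F →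
    ∀ z y : E × E, ‖z.1‖ ≤ R ∧ ‖z.2‖ ≤ K → ‖y.1‖ ≤ R ∧ ‖y.2‖ ≤ K →
      m.mu K / 8 * ‖z.2 - y.2‖ ^ 2 - C * ‖z.1 - y.1‖ ^ 2 ≤
        F z + F y - 2 * F ((1 / 2 : ℝ) • (z + y)) := by
  have hm := m.mu_pos K
  have hl := m.La_nonneg K
  have hC : 0 ≤ m.La K + 2 * m.La K ^ 2 / m.mu K := by positivity
  refine ⟨m.La K + 2 * m.La K ^ 2 / m.mu K, hC, fun R F h z y hz hy => ?_⟩
  have hp : (1 / 2 : ℝ) • (z + y) ∈ {z : E × E | ‖z.1‖ ≤ R ∧ ‖z.2‖ ≤ K} := by
    rw [smul_add]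
    exact ClsB_conv R K hz hy (by norm_num) (by norm_num) (by norm_num)
  have key : ∀ z y : E × E, ‖z.1‖ ≤ R ∧ ‖z.2‖ ≤ K → ∀ p : E × E, ‖p.1‖ ≤ R ∧ ‖p.2‖ ≤ K →
      z - p = (1 / 2 : ℝ) • (z - y) →
      F p + 1 / 2 * fderiv ℝ F p (z - y) + (m.mu K / 8 * ‖z.2 - y.2‖ ^ 2 -
        (m.La K + 2 * m.La K ^ 2 / m.mu K) / 4 * ‖z.1 - y.1‖ ^ 2) / 2 ≤ F z := by
    intro z y hz p hp e
    have h1 := (ClsB_tay h.c2 p (z - p) fun s hs =>
      ClsB_low h ((ClsB_conv R K).add_smul_sub_mem hp hz hs) (z - p)).2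
    rw [add_sub_cancel, e, map_smul, Prod.smul_fst, Prod.smul_snd, norm_smul, norm_smul,
      Prod.fst_sub, Prod.snd_sub, smul_eq_mul, Real.norm_of_nonneg (by norm_num)] at h1
    linarith
  have h1 := key z y hz _ hp (by module)
  have h2 := key y z hy _ hp (by module)
  rw [← neg_sub z y, map_neg, norm_sub_rev y.1, norm_sub_rev y.2] at h2
  have h3 := mul_nonneg hC (sq_nonneg ‖z.1 - y.1‖)
  linarith

theorem ClsB_seg {m : Md} {R : ℝ} {F : E × E → ℝ} (h : Cls m R F) {x y : E} (hx : ‖x‖ ≤ R)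
    (hy : ‖y‖ ≤ R) {a b : ℝ} (hab : ‖y - x‖ ≤ b - a) :
    ∃ z : ℝ → E, IsPath z a b ∧ z a = x ∧ z b = y ∧ |act F z a b| ≤ m.La 1 * (b - a) := by
  have h0 : 0 ≤ b - a := (norm_nonneg _).trans hab
  have e : ∀ t : ℝ, x - a • (b - a)⁻¹ • (y - x) + t • (b - a)⁻¹ • (y - x) =
      x + ((t - a) / (b - a)) • (y - x) := by
    intro t
    rw [div_eq_mul_inv]
    module
  refine ⟨fun t => x - a • (b - a)⁻¹ • (y - x) + t • (b - a)⁻¹ • (y - x),
    isPath_line _ _ (sub_nonneg.1 h0), sub_add_cancel _ _, (e b).trans ?_, ?_⟩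
  · rcases h0.eq_or_lt with h1 | h1
    · rw [← h1] at hab
      rw [norm_le_zero_iff.1 hab, smul_zero, add_zero]
      exact (sub_eq_zero.1 (norm_le_zero_iff.1 hab)).symm
    · rw [div_self h1.ne', one_smul, add_sub_cancel]
  · have h1 := intervalIntegral.norm_integral_le_of_norm_le_const (a := a) (b := b)
      (C := m.La 1) (f := fun t => F (ph (fun t =>
        x - a • (b - a)⁻¹ • (y - x) + t • (b - a)⁻¹ • (y - x)) t)) fun t ht => by
      rw [uIoc_of_le (sub_nonneg.1 h0)] at ht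
      rw [ph_line, e]
      refine h.bd0 1 _ _ (ClsB_ball hx hy ⟨div_nonneg (sub_nonneg.2 ht.1.le) h0,
        div_le_one_of_le₀ (sub_le_sub_right ht.2 a) h0⟩) ?_
      rw [norm_smul, Real.norm_of_nonneg (inv_nonneg.2 h0), ← div_eq_inv_mul]
      exact div_le_one_of_le₀ hab h0
    rwa [abs_of_nonneg h0] at h1

theorem Dom.lip {m : Md} {R : ℝ} {F : E × E → ℝ} (h : Cls m R F) {u : E → ℝ} (hu : Dom F u)
    {x y : E} (hx : ‖x‖ ≤ R) (hy : ‖y‖ ≤ R) : |u x - u y| ≤ m.La 1 * ‖x - y‖ := by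
  have key : ∀ x y : E, ‖x‖ ≤ R → ‖y‖ ≤ R → u y - u x ≤ m.La 1 * ‖y - x‖ := by
    intro x y hx hy
    obtain ⟨z, h1, h2, h3, h4⟩ := ClsB_seg h hx hy (a := 0) (b := ‖y - x‖) (sub_zero _).ge
    have h5 := hu z _ _ h1
    rw [h2, h3] at h5
    rw [sub_zero] at h4
    exact h5.trans (abs_le.1 h4).2
  have h1 := key x y hx hy
  have h2 := key y x hy hx
  rw [norm_sub_rev] at h1
  rw [abs_le]
  constructor <;> linarith

theorem Dom.continuous {F : E × E → ℝ} (hF : Ton0 F) {u : E → ℝ} (hu : Dom F u) :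
    Continuous u := by
  refine continuous_iff_continuousAt.2 fun x => ?_
  obtain ⟨m, h⟩ := hF (‖x‖ + 1)
  have h1 : LipschitzOnWith (m.La 1).toNNReal u (Metric.closedBall 0 (‖x‖ + 1)) :=
    LipschitzOnWith.of_dist_le' fun a ha b hb => by
      rw [Real.dist_eq, dist_eq_norm]
      exact Dom.lip h hu (mem_closedBall_zero_iff.1 ha) (mem_closedBall_zero_iff.1 hb)
  exact h1.continuousOn.continuousAt
    (Metric.closedBall_mem_nhds_of_mem (mem_ball_zero_iff.2 (lt_add_one _)))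

theorem Dom.le_of_hasFDerivAt {F : E × E → ℝ} (hF : Continuous F) {u : E → ℝ} (hu : Dom F u)
    {x : E} {p : E →L[ℝ] ℝ} (hp : HasFDerivAt u p x) (v : E) : p v ≤ F (x, v) := by
  have hc : Continuous fun s : ℝ => F (x + s • v, v) := hF.comp (by fun_prop)
  have h1 := (hc.integral_hasStrictDerivAt 0 0).hasDerivAt
  have h2 : HasDerivAt (fun s : ℝ => x + s • v) v 0 := by
    have h := ((hasDerivAt_id (0 : ℝ)).smul_const v).const_add x
    rwa [one_smul] at h
  have h3 : HasFDerivAt u p (x + (0 : ℝ) • v) := by rwa [zero_smul, add_zero]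
  have h4 := (h1.sub (h3.comp_hasDerivAt (0 : ℝ) h2)).tendsto_slope_zero_right
  rw [zero_smul, add_zero] at h4
  refine sub_nonneg.1 (ge_of_tendsto h4 ?_)
  filter_upwards [self_mem_nhdsWithin] with t ht
  have ht' : (0 : ℝ) ≤ t := le_of_lt ht
  have h5 := hu _ 0 t (isPath_line x v ht')
  simp only [act, ph_line] at h5
  refine smul_nonneg (inv_nonneg.2 ht') ?_
  simp only [Pi.sub_apply, Function.comp_apply, zero_add, intervalIntegral.integral_same]
  linarith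

theorem dom_of_contDiff {F : E × E → ℝ} (hF : Continuous F) {u : E → ℝ} (hu : ContDiff ℝ 1 u)
    (h : ∀ x v, fderiv ℝ u x v ≤ F (x, v)) : Dom F u := by
  intro z a b hz
  rw [← hz.ftc_comp hu]
  refine intervalIntegral.integral_mono_on hz.1 ?_ (hz.ii_act hF) fun t _ => h _ _
  exact hz.intervalIntegrable (Φ := fun q => fderiv ℝ u q.2.1 q.2.2)
    (((hu.continuous_fderiv one_ne_zero).comp (continuous_fst.comp continuous_snd)).clm_apply
      (continuous_snd.comp continuous_snd))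

/-- The action of the segment from `x` to `y` in a time at least the distance. -/
theorem Cls.seg {m : Md} {R : ℝ} {F : E × E → ℝ} (h : Cls m R F) {x y : E} (hx : ‖x‖ ≤ R)
    (hy : ‖y‖ ≤ R) {a b : ℝ} (hab : ‖y - x‖ ≤ b - a) :
    ∃ z : ℝ → E, IsPath z a b ∧ z a = x ∧ z b = y ∧ |act F z a b| ≤ m.La 1 * (b - a) := by
  exact ClsB_seg h hx hy hab

/-- Reversal of the velocity. -/
noncomputable def ClsB_A : E × E →L[ℝ] E × E :=
  (ContinuousLinearMap.id ℝ E).prodMap (-ContinuousLinearMap.id ℝ E)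

theorem ClsB_A_apply (z : E × E) : ClsB_A z = (z.1, -z.2) := rfl

theorem ClsB_r1 {F : E × E → ℝ} (hF : ContDiff ℝ 2 F) (z : E × E) :
    fderiv ℝ (revL F) z = (fderiv ℝ F (ClsB_A z)).comp ClsB_A :=
  ((hF.differentiable two_ne_zero _).hasFDerivAt.comp z ClsB_A.hasFDerivAt).fderiv

theorem ClsB_r2 {F : E × E → ℝ} (hF : ContDiff ℝ 2 F) (z a b : E × E) :
    D2 (revL F) z a b = D2 F (ClsB_A z) (ClsB_A a) (ClsB_A b) := by
  have h1 := ((ContinuousLinearMap.compL ℝ (E × E) (E × E) ℝ).flip ClsB_A).hasFDerivAt.comp z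
    ((hasFDerivAt_fderiv hF _).comp z ClsB_A.hasFDerivAt)
  have e : fderiv ℝ (revL F) = ((ContinuousLinearMap.compL ℝ (E × E) (E × E) ℝ).flip ClsB_A) ∘
      fderiv ℝ F ∘ ClsB_A := funext fun z => ClsB_r1 hF z
  rw [D2, e, h1.fderiv]
  rfl

theorem Cls.revL {m : Md} {R : ℝ} {F : E × E → ℝ} (h : Cls m R F) : Cls m R (revL F) := by
  have hn : ∀ z : E × E, ‖ClsB_A z‖ = ‖z‖ := fun z => by
    rw [ClsB_A_apply, Prod.norm_mk, norm_neg, Prod.norm_def z]
  refine ⟨h.c2.comp ClsB_A.contDiff, fun z w hw => ?_, fun A x v hx => ?_,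
    fun K x v hx hv => h.bd0 K x (-v) hx (by rwa [norm_neg]), fun K x v hx hv => ?_,
    fun K x v hx hv => ?_, fun K x v w hx hv => ?_⟩
  · rw [ClsB_r2 h.c2]
    exact h.conv _ (-w) (neg_ne_zero.2 hw)
  · have h1 := h.sup A x (-v) hx
    rwa [norm_neg] at h1
  · rw [ClsB_r1 h.c2]
    refine ContinuousLinearMap.opNorm_le_bound _ (m.La_nonneg K) fun a => ?_
    rw [← hn a]
    exact (fderiv ℝ F (ClsB_A (x, v))).le_of_opNorm_le
      (h.bd1 K x (-v) hx (by rwa [norm_neg])) _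
  · refine ContinuousLinearMap.opNorm_le_bound₂ _ (m.La_nonneg K) fun a b => ?_
    rw [ClsB_r2 h.c2, ← hn a, ← hn b]
    exact ClsB_bd h (q := (x, -v)) ⟨hx, by rwa [norm_neg]⟩ _ _
  · rw [ClsB_r2 h.c2, ← norm_neg w]
    exact h.lo K x (-v) (-w) hx (by rwa [norm_neg])

end Pool.Agent.Work.MP_1ce82a_an
end

-- merged part: Pool.Agent.Work.MP_1ce82a_an.A.PathS
section
-- merged part: Pool.Agent.Work.MP_1ce82a_an.A.PathS
section
/-! Structural operations on paths: shift, reversal, concatenation, deck translation, defects.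
PLAN. deriv_comp_add_const and intervalIntegral.integral_comp_add_right; deriv_comp_neg and
integral_comp_neg; for the concatenation use EqOn on the two pieces with act_congr and act_add;
for deck translates Surf.deriv_smul gives the phase point at every time, Surf.lip the Lipschitz bound. -/

open Set Filter Topology MeasureTheory
open scoped ContDiff

namespace Pool.Agent.Work.MP_1ce82a_an

variable {Γ : Grp}

theorem ph_shift (z : ℝ → E) (s t : ℝ) : ph (fun r => z (r + s)) t = ph z (t + s) := by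
  rw [ph, ph, deriv_comp_add_const]

theorem IsPath.shift {z : ℝ → E} {a b : ℝ} (s : ℝ) (h : IsPath z (a + s) (b + s)) :
    IsPath (fun r => z (r + s)) a b := by
  obtain ⟨hab, K, hK⟩ := h
  refine ⟨by linarith, K, LipschitzOnWith.of_dist_le_mul fun x hx y hy => ?_⟩
  have := hK.dist_le_mul (x + s) ⟨by linarith [hx.1], by linarith [hx.2]⟩ (y + s)
    ⟨by linarith [hy.1], by linarith [hy.2]⟩
  rwa [dist_add_right] at this

theorem act_shift (F : E × E → ℝ) (z : ℝ → E) (a b s : ℝ) :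
    act F (fun r => z (r + s)) a b = act F z (a + s) (b + s) := by
  simp only [act, ph_shift]
  exact intervalIntegral.integral_comp_add_right (fun t => F (ph z t)) s

theorem pot_shift (g : E → ℝ) (z : ℝ → E) (a b s : ℝ) :
    pot g (fun r => z (r + s)) a b = pot g z (a + s) (b + s) :=
  intervalIntegral.integral_comp_add_right (fun t => g (z t)) s

theorem dfc_shift (F : E × E → ℝ) (u : E → ℝ) (z : ℝ → E) (a b s : ℝ) :
    dfc F u (fun r => z (r + s)) a b = dfc F u z (a + s) (b + s) := by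
  rw [dfc, dfc, act_shift]

theorem IsPath.rev {z : ℝ → E} {a b : ℝ} (h : IsPath z a b) :
    IsPath (fun r => z (-r)) (-b) (-a) := by
  obtain ⟨hab, K, hK⟩ := h
  refine ⟨by linarith, K, LipschitzOnWith.of_dist_le_mul fun x hx y hy => ?_⟩
  have := hK.dist_le_mul (-x) ⟨by linarith [hx.2], by linarith [hx.1]⟩ (-y)
    ⟨by linarith [hy.2], by linarith [hy.1]⟩
  rwa [dist_neg_neg] at this

theorem act_rev (F : E × E → ℝ) (z : ℝ → E) (a b : ℝ) :
    act (revL F) (fun r => z (-r)) (-b) (-a) = act F z a b := by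
  have h := intervalIntegral.integral_comp_neg (a := -b) (b := -a) fun t => F (ph z t)
  rw [neg_neg, neg_neg] at h
  simp only [act, revL, ph, deriv_comp_neg, neg_neg]
  exact h

theorem revL_revL (F : E × E → ℝ) : revL (revL F) = F := by
  funext z
  simp [revL]

theorem Dom.rev {F : E × E → ℝ} {u : E → ℝ} (h : Dom F u) : Dom (revL F) (fun x => -u x) := by
  intro z a b hz
  have h1 := h _ _ _ hz.rev
  have h2 := act_rev (revL F) z a b
  rw [revL_revL] at h2
  simp only [neg_neg] at h1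
  rw [← h2]
  linarith

theorem cat_left (z y : ℝ → E) (a b : ℝ) : EqOn (cat z y b) z (Icc a b) := fun _ ht =>
  if_pos ht.2

theorem cat_right {z y : ℝ → E} {b : ℝ} (h : z b = y b) (c : ℝ) :
    EqOn (cat z y b) y (Icc b c) := fun t ht => by
  unfold cat
  split_ifs with h1
  · rw [le_antisymm h1 ht.1, h]
  · rfl

theorem PathS_glue {w : ℝ → E} {a b c : ℝ} (h1 : IsPath w a b) (h2 : IsPath w b c) :
    IsPath w a c := by
  obtain ⟨hab, K, hK⟩ := h1
  obtain ⟨hbc, L, hL⟩ := h2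
  have k1 := hK.weaken (le_max_left K L)
  have k2 := hL.weaken (le_max_right K L)
  have key : ∀ s ∈ Icc a c, ∀ t ∈ Icc a c, s ≤ t →
      dist (w s) (w t) ≤ (max K L : NNReal) * dist s t := fun s hs t ht hst => by
    rcases le_total t b with h | h
    · exact k1.dist_le_mul s ⟨hs.1, hst.trans h⟩ t ⟨ht.1, h⟩
    rcases le_total b s with h' | h'
    · exact k2.dist_le_mul s ⟨h', hs.2⟩ t ⟨h, ht.2⟩
    have e1 := k1.dist_le_mul s ⟨hs.1, h'⟩ b ⟨hab, le_rfl⟩
    have e2 := k2.dist_le_mul b ⟨le_rfl, hbc⟩ t ⟨h, ht.2⟩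
    have e3 : dist s t = dist s b + dist b t := by
      rw [Real.dist_eq, Real.dist_eq, Real.dist_eq, abs_of_nonpos (sub_nonpos.2 hst),
        abs_of_nonpos (sub_nonpos.2 h), abs_of_nonpos (sub_nonpos.2 h')]
      ring
    rw [e3, mul_add]
    exact (dist_triangle _ _ _).trans (add_le_add e1 e2)
  refine ⟨hab.trans hbc, max K L, LipschitzOnWith.of_dist_le_mul fun s hs t ht => ?_⟩
  rcases le_total s t with h | h
  · exact key s hs t ht h
  · rw [dist_comm, dist_comm s]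
    exact key t ht s hs h

theorem IsPath.cat {z y : ℝ → E} {a b c : ℝ} (hz : IsPath z a b) (hy : IsPath y b c)
    (h : z b = y b) : IsPath (cat z y b) a c :=
  PathS_glue (hz.congr (cat_left z y a b).symm) (hy.congr (cat_right h c).symm)

theorem act_cat {F : E × E → ℝ} (hF : Continuous F) {z y : ℝ → E} {a b c : ℝ} (hz : IsPath z a b)
    (hy : IsPath y b c) (h : z b = y b) :
    act F (cat z y b) a c = act F z a b + act F y b c := by
  rw [← act_add hF (hz.cat hy h) hz.1 hy.1, act_congr F hz.1 (cat_left z y a b),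
    act_congr F hy.1 (cat_right h c)]

theorem pot_cat {g : E → ℝ} (hg : Continuous g) {z y : ℝ → E} {a b c : ℝ} (hz : IsPath z a b)
    (hy : IsPath y b c) (h : z b = y b) :
    pot g (cat z y b) a c = pot g z a b + pot g y b c := by
  rw [← pot_add hg (hz.cat hy h) hz.1 hy.1, pot_congr g hz.1 (cat_left z y a b),
    pot_congr g hy.1 (cat_right h c)]

theorem dfc_cat {F : E × E → ℝ} (hF : Continuous F) (u : E → ℝ) {z y : ℝ → E} {a b c : ℝ}
    (hz : IsPath z a b) (hy : IsPath y b c) (h : z b = y b) :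
    dfc F u (cat z y b) a c = dfc F u z a b + dfc F u y b c := by
  rw [dfc, dfc, dfc, act_cat hF hz hy h, cat_left z y a b (left_mem_Icc.2 hz.1),
    cat_right h c (right_mem_Icc.2 hy.1), h]
  ring

theorem IsPath.smul (hS : Surf Γ) (γ : Γ) {z : ℝ → E} {a b : ℝ} (h : IsPath z a b) :
    IsPath (fun t => γ • z t) a b := by
  obtain ⟨K, hK⟩ := h.2
  obtain ⟨K', hK'⟩ := (((hS.smooth γ).of_le (by exact_mod_cast le_top) :
    ContDiff ℝ 1 fun x : E => γ • x).locallyLipschitz.locallyLipschitzOn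
      (s := z '' Icc a b)).exists_lipschitzOnWith_of_compact
      (isCompact_Icc.image_of_continuousOn h.continuousOn)
  exact ⟨h.1, _, hK'.comp hK (mapsTo_image z _)⟩

theorem act_smul (hS : Surf Γ) {F : E × E → ℝ} (hF : InvL Γ F) (γ : Γ) (z : ℝ → E) (a b : ℝ) :
    act F (fun t => γ • z t) a b = act F z a b := by
  simp only [act, ph, hS.deriv_smul, hF γ]

theorem pot_smul {g : E → ℝ} (hg : Inv Γ g) (γ : Γ) (z : ℝ → E) (a b : ℝ) :
    pot g (fun t => γ • z t) a b = pot g z a b := by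
  simp only [pot, hg γ]

theorem dfc_smul (hS : Surf Γ) {F : E × E → ℝ} (hF : InvL Γ F) {c : H1 Γ} {u : E → ℝ}
    (hu : Eqv c u) (γ : Γ) (z : ℝ → E) (a b : ℝ) :
    dfc F u (fun t => γ • z t) a b = dfc F u z a b := by
  rw [dfc, dfc, act_smul hS hF, hu, hu]
  ring

theorem dfc_congr (F : E × E → ℝ) (u : E → ℝ) {z y : ℝ → E} {a b : ℝ} (hab : a ≤ b)
    (he : EqOn z y (Icc a b)) : dfc F u z a b = dfc F u y a b := by
  rw [dfc, dfc, act_congr F hab he, he (left_mem_Icc.2 hab), he (right_mem_Icc.2 hab)]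

theorem Dom.dfc_nonneg {F : E × E → ℝ} {u : E → ℝ} (hu : Dom F u) {z : ℝ → E} {a b : ℝ}
    (h : IsPath z a b) : 0 ≤ dfc F u z a b :=
  sub_nonneg.2 (hu z a b h)

theorem dfc_add {F : E × E → ℝ} (hF : Continuous F) (u : E → ℝ) {z : ℝ → E} {a b c : ℝ}
    (h : IsPath z a c) (hab : a ≤ b) (hbc : b ≤ c) :
    dfc F u z a b + dfc F u z b c = dfc F u z a c := by
  rw [dfc, dfc, dfc, ← act_add hF h hab hbc]
  ring

theorem Dom.dfc_mono {F : E × E → ℝ} (hF : Continuous F) {u : E → ℝ} (hu : Dom F u) {z : ℝ → E}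
    {a b c d : ℝ} (h : IsPath z a b) (hac : a ≤ c) (hcd : c ≤ d) (hdb : d ≤ b) :
    dfc F u z c d ≤ dfc F u z a b := by
  have h1 := dfc_add hF u h (hac.trans hcd) hdb
  have h2 := dfc_add hF u (h.mono le_rfl (hac.trans hcd) hdb) hac hcd
  have h3 := hu.dfc_nonneg (h.mono le_rfl hac (hcd.trans hdb))
  have h4 := hu.dfc_nonneg (h.mono (hac.trans hcd) hdb le_rfl)
  linarith

theorem Cal.mono {F : E × E → ℝ} (hF : Continuous F) {u : E → ℝ} (hu : Dom F u) {z : ℝ → E}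
    {a b c d : ℝ} (h : Cal F u z a b) (hac : a ≤ c) (hcd : c ≤ d) (hdb : d ≤ b) :
    Cal F u z c d :=
  ⟨h.1.mono hac hcd hdb, le_antisymm (h.2 ▸ hu.dfc_mono hF h.1 hac hcd hdb)
    (hu.dfc_nonneg (h.1.mono hac hcd hdb))⟩

theorem Cal.shift {F : E × E → ℝ} {u : E → ℝ} {z : ℝ → E} {a b : ℝ} (s : ℝ)
    (h : Cal F u z (a + s) (b + s)) : Cal F u (fun r => z (r + s)) a b :=
  ⟨h.1.shift s, (dfc_shift F u z a b s).trans h.2⟩

theorem Cal.smul (hS : Surf Γ) {F : E × E → ℝ} (hF : InvL Γ F) {c : H1 Γ} {u : E → ℝ}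
    (hu : Eqv c u) (γ : Γ) {z : ℝ → E} {a b : ℝ} (h : Cal F u z a b) :
    Cal F u (fun t => γ • z t) a b :=
  ⟨h.1.smul hS γ, (dfc_smul hS hF hu γ z a b).trans h.2⟩

theorem Cal.cat {F : E × E → ℝ} (hF : Continuous F) {u : E → ℝ} {z y : ℝ → E} {a b c : ℝ}
    (hz : Cal F u z a b) (hy : Cal F u y b c) (h : z b = y b) : Cal F u (cat z y b) a c :=
  ⟨hz.1.cat hy.1 h, by rw [dfc_cat hF u hz.1 hy.1 h, hz.2, hy.2, add_zero]⟩

theorem CalR.shift {F : E × E → ℝ} {u : E → ℝ} {z : ℝ → E} (h : CalR F u z) (s : ℝ) :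
    CalR F u (fun r => z (r + s)) := fun a b hab =>
  (h (a + s) (b + s) (by linarith)).shift s

theorem CalR.smul (hS : Surf Γ) {F : E × E → ℝ} (hF : InvL Γ F) {c : H1 Γ} {u : E → ℝ}
    (hu : Eqv c u) (γ : Γ) {z : ℝ → E} (h : CalR F u z) : CalR F u (fun t => γ • z t) :=
  fun a b hab => (h a b hab).smul hS hF hu γ

theorem CalR.nxt (hS : Surf Γ) {F : E × E → ℝ} (hF : InvL Γ F) {c : H1 Γ} {u : E → ℝ}
    (hu : Eqv c u) (σ : Γ) (T : ℝ) {z : ℝ → E} (h : CalR F u z) : CalR F u (nxt σ z T) := by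
  have e : Pool.Agent.Work.MP_1ce82a_an.nxt σ z T = fun t => σ⁻¹ • z (t + T) := by
    funext t
    rw [add_comm]
    rfl
  rw [e]
  exact (h.shift T).smul hS hF hu σ⁻¹

theorem IsLoop.dfc_eq {F : E × E → ℝ} {c : H1 Γ} {u : E → ℝ} (hu : Eqv c u) {z : ℝ → E} {T : ℝ}
    {γ : Γ} (h : IsLoop z T γ) : dfc F u z 0 T = act F z 0 T - c.1 γ := by
  rw [dfc, h.2.2, hu]
  ring

/-- Joining two arcs whose ends match up to a deck transformation. -/
theorem exists_join (hS : Surf Γ) {z y : ℝ → E} {a b c d : ℝ} (hz : IsPath z a b)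
    (hy : IsPath y c d) (ρ : Γ) (h : z b = ρ • y c) :
    ∃ w : ℝ → E, IsPath w 0 ((b - a) + (d - c)) ∧ w 0 = z a ∧ w ((b - a) + (d - c)) = ρ • y d ∧
      (∀ F : E × E → ℝ, Continuous F → InvL Γ F →
        act F w 0 ((b - a) + (d - c)) = act F z a b + act F y c d) ∧
      ∀ g : E → ℝ, Continuous g → Inv Γ g →
        pot g w 0 ((b - a) + (d - c)) = pot g z a b + pot g y c d := by
  have h1 : IsPath (fun r => z (r + a)) 0 (b - a) := IsPath.shift a (by simpa using hz)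
  have e1 : b - a + (c - (b - a)) = c := by ring
  have e2 : b - a + (d - c) + (c - (b - a)) = d := by ring
  have h2 : IsPath (fun r => ρ • y (r + (c - (b - a)))) (b - a) (b - a + (d - c)) :=
    (IsPath.shift (c - (b - a)) (by rwa [e1, e2])).smul hS ρ
  have h3 : (fun r => z (r + a)) (b - a) = (fun r => ρ • y (r + (c - (b - a)))) (b - a) := by
    simp only [e1, sub_add_cancel, h]
  refine ⟨_, h1.cat h2 h3, ?_, ?_, fun F hF hi => ?_, fun g hg hi => ?_⟩
  · rw [cat_left _ _ 0 _ (left_mem_Icc.2 h1.1), zero_add]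
  · rw [cat_right h3 _ (right_mem_Icc.2 h2.1), e2]
  · rw [act_cat hF h1 h2 h3, act_smul hS hi ρ fun r => y (r + (c - (b - a))), act_shift, act_shift,
      e1, e2, zero_add, sub_add_cancel]
  · rw [pot_cat hg h1 h2 h3, pot_smul hi ρ fun r => y (r + (c - (b - a))), pot_shift, pot_shift,
      e1, e2, zero_add, sub_add_cancel]

/-- Iterating a loop. -/
theorem IsLoop.iterate (hS : Surf Γ) {z : ℝ → E} {T : ℝ} {γ : Γ} (h : IsLoop z T γ) (n : ℕ) :
    ∃ w : ℝ → E, IsPath w 0 (n * T) ∧ w 0 = z 0 ∧ w (n * T) = γ ^ n • z 0 ∧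
      (∀ F : E × E → ℝ, Continuous F → InvL Γ F → act F w 0 (n * T) = n * act F z 0 T) ∧
      ∀ g : E → ℝ, Continuous g → Inv Γ g → pot g w 0 (n * T) = n * pot g z 0 T := by
  induction n with
  | zero =>
    refine ⟨z, ?_, rfl, by simp, fun F _ _ => by simp [act], fun g _ _ => by simp [pot]⟩
    rw [Nat.cast_zero, zero_mul]
    exact h.2.1.mono le_rfl le_rfl h.1.le
  | succ n ih =>
    obtain ⟨w, w1, w2, w3, w4, w5⟩ := ih
    obtain ⟨v, v1, v2, v3, v4, v5⟩ := exists_join hS w1 h.2.1 (γ ^ n) w3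
    have e : (n : ℝ) * T - 0 + (T - 0) = ((n + 1 : ℕ) : ℝ) * T := by
      push_cast
      ring
    rw [e] at v1 v3 v4 v5
    refine ⟨v, v1, v2.trans w2, by rw [v3, h.2.2, pow_succ, mul_smul], fun F hF hi => ?_,
      fun g hg hi => ?_⟩
    · rw [v4 F hF hi, w4 F hF hi]
      push_cast
      ring
    · rw [v5 g hg hi, w5 g hg hi]
      push_cast
      ring

theorem PathS_zpow {x : ℝ → E} {P : ℝ} {σ : Γ} (hx : Perd x P σ) (k : ℤ) (t : ℝ) :
    x (t + k * P) = σ ^ k • x t := by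
  induction k using Int.induction_on with
  | zero => simp
  | succ n ih =>
    rw [Int.cast_add, Int.cast_one, add_mul, one_mul, ← add_assoc, hx.2, ih, ← mul_smul, add_comm,
      zpow_one_add]
  | pred n ih =>
    rw [sub_eq_neg_add (-n : ℤ), zpow_add, mul_smul, ← ih, zpow_neg_one, eq_inv_smul_iff, ← hx.2]
    congr 1
    push_cast
    ring

/-- A periodic curve with zero excess is calibrated by every equivariant dominated function. -/
theorem allCal_of_perd (hS : Surf Γ) {F : E × E → ℝ} (hF : Continuous F) (hi : InvL Γ F)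
    {c : H1 Γ} {x : ℝ → E} {P : ℝ} {σ : Γ} (hx : Perd x P σ) (hp : ∀ a b, a ≤ b → IsPath x a b)
    (h0 : act F x 0 P = c.1 σ) : AllCal F c x := by
  intro u hu a b hab
  have h1 : dfc F u x 0 P = 0 := by
    have := hx.2 0
    rw [zero_add] at this
    rw [IsLoop.dfc_eq hu.1 ⟨hx.1, hp 0 P hx.1.le, this⟩, h0, sub_self]
  have h2 : ∀ k : ℤ, dfc F u x (k * P) ((k + 1) * P) = 0 := fun k => by
    have := dfc_shift F u x 0 P (k * P)
    rw [funext (PathS_zpow hx k), dfc_smul hS hi hu.1, h1, zero_add] at this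
    rw [add_mul, one_mul, add_comm, ← this]
  have h3 : ∀ n : ℕ, dfc F u x (-(n * P)) (n * P) = 0 := fun n => by
    induction n with
    | zero => simp [dfc, act]
    | succ n ih =>
      have p0 : 0 ≤ (n : ℝ) * P := mul_nonneg n.cast_nonneg hx.1.le
      have p1 := hx.1
      have a1 := h2 n
      have a2 := h2 (-(n + 1))
      push_cast at a1 a2 ⊢
      rw [show (-((n : ℝ) + 1) + 1) * P = -(n * P) by ring, neg_mul] at a2
      rw [← dfc_add hF u (b := n * P) (hp _ _ (by linarith)) (by linarith) (by linarith),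
        ← dfc_add hF u (a := -((n + 1) * P)) (b := -(n * P)) (hp _ _ (by linarith)) (by linarith)
          (by linarith), a1, a2, ih, add_zero, add_zero]
  obtain ⟨n, hn⟩ := exists_nat_ge (max |a| |b| / P)
  rw [div_le_iff₀ hx.1, max_le_iff, abs_le, abs_le] at hn
  exact Cal.mono hF hu.2 ⟨hp _ _ (hn.1.1.trans hn.1.2), h3 n⟩ hn.1.1 hab hn.2.2

theorem Perd.zpow {x : ℝ → E} {P : ℝ} {σ : Γ} (hx : Perd x P σ) (k : ℤ) (t : ℝ) :
    x (t + k * P) = σ ^ k • x t := PathS_zpow hx k t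

end Pool.Agent.Work.MP_1ce82a_an
end

-- merged part: Pool.Agent.Work.MP_1ce82a_an.A.Ton
section
/-! Tonelli Lagrangians have moduli, uniformly under small perturbations by potentials.
PLAN. Uniform superlinearity on the compact ball: for A >= 0 and each x0 choose r with
F(x0,v)-F(x0,0) > (A+1) r on the sphere of radius r, keep the inequality with A for x near x0 (compactness of the
sphere), extend it to all norms >= r by convexity (minor_of_conv or ConvexOn along rays), finite subcover; for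
norms <= r use boundedness. For A < 0 use the bound for A = 0. La and mu come from continuity on compact sets
(for K < 0 or R < 0 the conditions are vacuous). The derivatives of addPot F h are those of F plus those of
h composed with the first projection; the vv block is unchanged. -/

open Set Filter Topology MeasureTheory
open scoped ContDiff

namespace Pool.Agent.Work.MP_1ce82a_an

variable {Γ : Grp}

theorem fderiv_addPot {F : E × E → ℝ} (hF : ContDiff ℝ 2 F) {h : E → ℝ} (hh : ContDiff ℝ 2 h)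
    (z : E × E) : fderiv ℝ (addPot F h) z =
      fderiv ℝ F z + (fderiv ℝ h z.1).comp (ContinuousLinearMap.fst ℝ E E) :=
  ((hF.differentiable two_ne_zero z).hasFDerivAt.add
    ((hh.differentiable two_ne_zero z.1).hasFDerivAt.comp z hasFDerivAt_fst)).fderiv

theorem D2_addPot {F : E × E → ℝ} (hF : ContDiff ℝ 2 F) {h : E → ℝ} (hh : ContDiff ℝ 2 h)
    (z a b : E × E) :
    D2 (addPot F h) z a b = D2 F z a b + fderiv ℝ (fderiv ℝ h) z.1 a.1 b.1 := by
  have h1 : HasFDerivAt (fderiv ℝ h) (fderiv ℝ (fderiv ℝ h) z.1) z.1 :=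
    ((hh.fderiv_right (m := 1) le_rfl).differentiable one_ne_zero z.1).hasFDerivAt
  have h2 := (hasFDerivAt_fderiv hF z).add
    (((ContinuousLinearMap.compL ℝ (E × E) E ℝ).flip (ContinuousLinearMap.fst ℝ E E)).hasFDerivAt.comp z
      (h1.comp z hasFDerivAt_fst))
  rw [D2, funext (fderiv_addPot hF hh)]
  exact (congrArg (fun B : E × E →L[ℝ] E × E →L[ℝ] ℝ => B a b) h2.fderiv).trans rfl

theorem norm_D2_addPot_sub {F : E × E → ℝ} (hF : ContDiff ℝ 2 F) {h : E → ℝ}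
    (hh : ContDiff ℝ 2 h) (z : E × E) :
    ‖D2 (addPot F h) z - D2 F z‖ ≤ ‖fderiv ℝ (fderiv ℝ h) z.1‖ := by
  refine ContinuousLinearMap.opNorm_le_bound₂ _ (ContinuousLinearMap.opNorm_nonneg _) fun a b => ?_
  rw [_root_.sub_apply, _root_.sub_apply, D2_addPot hF hh,
    add_sub_cancel_left]
  refine (ContinuousLinearMap.le_opNorm₂ _ _ _).trans ?_
  gcongr
  · exact norm_fst_le a
  · exact norm_fst_le b

theorem vpart_addPot {F : E × E → ℝ} (hF : ContDiff ℝ 2 F) {h : E → ℝ} (hh : ContDiff ℝ 2 h)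
    (z : E × E) : vpart (fderiv ℝ (addPot F h) z) = vpart (fderiv ℝ F z) := by
  refine ContinuousLinearMap.ext fun v => ?_
  rw [vpart_apply, vpart_apply, fderiv_addPot hF hh]
  simp

theorem energy_addPot {F : E × E → ℝ} (hF : ContDiff ℝ 2 F) {h : E → ℝ} (hh : ContDiff ℝ 2 h)
    (z : E × E) : energy (addPot F h) z = energy F z - h z.1 := by
  rw [energy, energy, ← vpart_apply, vpart_addPot hF hh, vpart_apply, addPot]
  ring

theorem fderiv_addPot_const (F : E × E → ℝ) (k : ℝ) :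
    fderiv ℝ (addPot F (fun _ => k)) = fderiv ℝ F := funext fun _ => fderiv_add_const k

theorem Tonelli.invL {F : E × E → ℝ} (hF : Tonelli Γ F) : InvL Γ F := hF.inv

theorem Tonelli.cont {F : E × E → ℝ} (hF : Tonelli Γ F) : Continuous F := hF.c2.continuous

theorem Ton_vv {F : E × E → ℝ} (hF : ContDiff ℝ 2 F) {h : E → ℝ} (hh : ContDiff ℝ 2 h)
    (z : E × E) (w : E) : D2 (addPot F h) z (0, w) (0, w) = D2 F z (0, w) (0, w) := by
  rw [D2_addPot hF hh]
  simp

theorem Ton_c2 {F : E × E → ℝ} (hF : ContDiff ℝ 2 F) {h : E → ℝ} (hh : ContDiff ℝ 2 h) :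
    ContDiff ℝ 2 (addPot F h) := hF.add (hh.comp contDiff_fst)

theorem Ton_zero (F : E × E → ℝ) : addPot F (fun _ => 0) = F := funext fun _ => add_zero _

theorem Tonelli.addPot {F : E × E → ℝ} (hF : Tonelli Γ F) {h : E → ℝ} (hh : ContDiff ℝ 2 h)
    (hi : Inv Γ h) : Tonelli Γ (addPot F h) := by
  refine ⟨Ton_c2 hF.c2 hh, fun γ x v => ?_, fun z w hw => ?_, fun x => ?_⟩
  · simp only [MP_1ce82a_an.addPot, hF.inv γ x v, hi γ x]
  · rw [Ton_vv hF.c2 hh]
    exact hF.conv z w hw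
  · simp only [MP_1ce82a_an.addPot, add_div]
    exact (hF.super x).atTop_add (tendsto_norm_cocompact_atTop.const_div_atTop _)

theorem Ton_loc {F : E × E → ℝ} (hF : Tonelli Γ F) {A : ℝ} (hA : 0 ≤ A) (x0 : E) :
    ∃ t : ℝ, ∀ᶠ x in 𝓝 x0, ∀ v, A * ‖v‖ - t ≤ F (x, v) := by
  obtain ⟨r0, hr0⟩ := (Metric.hasBasis_cobounded_compl_closedBall (0 : E)).eventually_iff.1
    (Metric.cobounded_eq_cocompact (α := E) ▸
      (hF.super x0).eventually_ge_atTop (A + 1 + |F (x0, 0)|))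
  obtain ⟨r, r1, hr⟩ : ∃ r : ℝ, 1 ≤ r ∧ ∀ v ∈ Metric.sphere (0 : E) r,
      A * r + F (x0, 0) < F (x0, v) := by
    refine ⟨max r0 0 + 1, by simp, fun v hv => ?_⟩
    rw [mem_sphere_zero_iff_norm] at hv
    have h1 : r0 ≤ max r0 0 := le_max_left _ _
    have h2 : 0 ≤ max r0 0 := le_max_right _ _
    have h3 := hr0.2 (x := v) (by simp only [mem_compl_iff, mem_closedBall_zero_iff]; linarith)
    rw [le_div_iff₀ (by linarith), hv] at h3
    nlinarith [le_abs_self (F (x0, 0)), abs_nonneg (F (x0, 0))]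
  have h1 : ∀ᶠ x in 𝓝 x0, ∀ v ∈ Metric.sphere (0 : E) r, A * r + F (x, 0) < F (x, v) :=
    (isCompact_sphere 0 r).eventually_forall_of_forall_eventually fun v hv =>
      ContinuousAt.eventually_lt (f := fun z : E × E => A * r + F (z.1, 0)) (g := F)
        (by have := hF.cont; fun_prop) hF.cont.continuousAt (hr v hv)
  obtain ⟨M, hM⟩ := ((isCompact_closedBall x0 1).prod
    (isCompact_closedBall (0 : E) r)).exists_bound_of_continuousOn hF.cont.continuousOn
  refine ⟨A * r + M, ?_⟩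
  filter_upwards [h1, Metric.closedBall_mem_nhds x0 one_pos] with x h2 h3 v
  have h4 : ∀ w : E, ‖w‖ ≤ r → -M ≤ F (x, w) := fun w hw =>
    (abs_le.1 (hM (x, w) ⟨h3, mem_closedBall_zero_iff.2 hw⟩)).1
  rcases le_total ‖v‖ r with k | k
  · nlinarith [h4 v k]
  obtain ⟨s, w, s0, hw, rfl⟩ : ∃ (s : ℝ) (w : E), 0 ≤ s ∧ ‖w‖ = r ∧ v = w + s • w := by
    have k0 : 0 < ‖v‖ := by linarith
    refine ⟨‖v‖ / r - 1, (r / ‖v‖) • v, by rw [sub_nonneg, one_le_div] <;> linarith, ?_, ?_⟩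
    · rw [norm_smul, Real.norm_of_nonneg (by positivity), div_mul_cancel₀ _ k0.ne']
    · rw [smul_smul, ← add_smul, show r / ‖v‖ + (‖v‖ / r - 1) * (r / ‖v‖) = 1 by field_simp; ring,
        one_smul]
  have h5 := minor_of_conv hF.c2 hF.conv x (w + s • w) w
  have h6 := minor_of_conv hF.c2 hF.conv x 0 w
  have h7 := h2 w (mem_sphere_zero_iff_norm.2 hw)
  have h8 : ‖w + s • w‖ = r + s * r := by
    rw [show w + s • w = (1 + s) • w by rw [add_smul, one_smul], norm_smul, Real.norm_of_nonneg (by positivity), hw]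
    ring
  rw [add_sub_cancel_left, map_smul, smul_eq_mul] at h5
  rw [zero_sub, map_neg] at h6
  rw [h8]
  nlinarith [h4 w hw.le]

theorem Ton_sup {F : E × E → ℝ} (hF : Tonelli Γ F) (R A : ℝ) :
    ∃ t : ℝ, 0 ≤ t ∧ ∀ x v : E, ‖x‖ ≤ R → A * ‖v‖ - t ≤ F (x, v) := by
  obtain ⟨t, ht⟩ := (isCompact_closedBall (0 : E) R).induction_on
    (p := fun S => ∃ t : ℝ, ∀ x ∈ S, ∀ v, max A 0 * ‖v‖ - t ≤ F (x, v)) ⟨0, by simp⟩
    (fun _ _ h ⟨t, k⟩ => ⟨t, fun x hx => k x (h hx)⟩)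
    (fun _ _ ⟨t, k⟩ ⟨t', k'⟩ => ⟨max t t', fun x hx v => hx.elim
      (fun h => (sub_le_sub_left (le_max_left _ _) _).trans (k x h v))
      fun h => (sub_le_sub_left (le_max_right _ _) _).trans (k' x h v)⟩)
    fun x _ => (Ton_loc hF (le_max_right A 0) x).elim fun t k =>
      ⟨_, mem_nhdsWithin_of_mem_nhds k, t, fun _ h => h⟩
  refine ⟨max t 0, le_max_right _ _, fun x v hx => le_trans ?_ (ht x (mem_closedBall_zero_iff.2 hx) v)⟩
  exact sub_le_sub (mul_le_mul_of_nonneg_right (le_max_left _ _) (norm_nonneg _)) (le_max_left _ _)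

theorem Ton_bd {F : E × E → ℝ} (hF : ContDiff ℝ 2 F) (R K : ℝ) : ∃ t : ℝ, 0 ≤ t ∧ ∀ x v : E,
    ‖x‖ ≤ R → ‖v‖ ≤ K → |F (x, v)| ≤ t ∧ ‖fderiv ℝ F (x, v)‖ ≤ t ∧ ‖D2 F (x, v)‖ ≤ t := by
  have hc : Continuous fun z => ‖D2 F z‖ :=
    (continuous_norm (E := E × E →L[ℝ] E × E →L[ℝ] ℝ)).comp (continuous_D2 hF)
  obtain ⟨M, hM⟩ := (((isCompact_closedBall (0 : E) R).prod
    (isCompact_closedBall (0 : E) K)).image ((hF.continuous.abs.max
      ((hF.continuous_fderiv two_ne_zero).norm.max hc)))).bddAbove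
  refine ⟨max M 0, le_max_right _ _, fun x v hx hv => ?_⟩
  have h := (hM ⟨(x, v), ⟨mem_closedBall_zero_iff.2 hx, mem_closedBall_zero_iff.2 hv⟩, rfl⟩).trans
    (le_max_left M 0)
  rwa [max_le_iff, max_le_iff] at h

theorem Ton_lo {F : E × E → ℝ} (hF : Tonelli Γ F) (R K : ℝ) : ∃ t : ℝ, 0 < t ∧ ∀ x v w : E,
    ‖x‖ ≤ R → ‖v‖ ≤ K → t * ‖w‖ ^ 2 ≤ D2 F (x, v) (0, w) (0, w) := by
  have hc := continuous_D2 hF.c2
  obtain ⟨t, t0, ht⟩ := (((isCompact_closedBall (0 : E) R).prod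
    (isCompact_closedBall (0 : E) K)).prod (isCompact_sphere (0 : E) 1)).exists_forall_le'
    (f := fun q => D2 F q.1 (0, q.2) (0, q.2)) (a := 0) (by fun_prop)
    fun q hq => hF.conv _ _ (ne_zero_of_mem_unit_sphere ⟨q.2, hq.2⟩)
  refine ⟨t, t0, fun x v w hx hv => ?_⟩
  obtain ⟨s, u, hu, rfl⟩ : ∃ (s : ℝ) (u : E), ‖u‖ = 1 ∧ w = s • u := by
    by_cases h0 : w = 0
    · exact ⟨0, (1, 0), by simp, by simp [h0]⟩
    · exact ⟨‖w‖, ‖w‖⁻¹ • w, norm_smul_inv_norm h0, by rw [smul_inv_smul₀ (norm_ne_zero_iff.2 h0)]⟩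
  have h := ht ((x, v), u) ⟨⟨mem_closedBall_zero_iff.2 hx, mem_closedBall_zero_iff.2 hv⟩,
    mem_sphere_zero_iff_norm.2 hu⟩
  rw [show ((0 : E), s • u) = s • ((0 : E), u) by simp, map_smul, map_smul,
    _root_.smul_apply, norm_smul, hu, mul_one, Real.norm_eq_abs, sq_abs, smul_eq_mul,
    smul_eq_mul]
  nlinarith [sq_nonneg s]

theorem Tonelli.cls_unif {F : E × E → ℝ} (hF : Tonelli Γ F) (R : ℝ) :
    ∃ m : Md, ∀ h : E → ℝ, ContDiff ℝ 2 h → Small R 1 h → Cls m R (MP_1ce82a_an.addPot F h) := by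
  choose th t0 ht using Ton_sup hF R
  choose La l0 hl using Ton_bd hF.c2 R
  choose mu m0 hm using Ton_lo hF R
  refine ⟨⟨fun A => th A + 1, fun K => La K + 1, mu, fun A => by linarith [t0 A],
    fun K => by linarith [l0 K], m0⟩, fun h hh hs => ⟨Ton_c2 hF.c2 hh, fun z w hw => ?_,
    fun A x v hx => ?_, fun K x v hx hv => ?_, fun K x v hx hv => ?_, fun K x v hx hv => ?_,
    fun K x v w hx hv => ?_⟩⟩
  · rw [Ton_vv hF.c2 hh]
    exact hF.conv z w hw
  · have h1 := (abs_le.1 (hs x hx).1).1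
    have h2 := ht A x v hx
    simp only [MP_1ce82a_an.addPot]
    linarith
  · exact (abs_add_le _ _).trans (add_le_add (hl K x v hx hv).1 (hs x hx).1)
  · rw [fderiv_addPot hF.c2 hh]
    refine (norm_add_le _ _).trans (add_le_add (hl K x v hx hv).2.1
      ((ContinuousLinearMap.opNorm_comp_le _ _).trans ?_))
    exact mul_le_one₀ (hs x hx).2.1 (norm_nonneg _) (ContinuousLinearMap.norm_fst_le ℝ E E)
  · exact (norm_le_norm_add_norm_sub' _ (D2 F (x, v))).trans (add_le_add (hl K x v hx hv).2.2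
      ((norm_D2_addPot_sub hF.c2 hh _).trans (hs x hx).2.2))
  · rw [Ton_vv hF.c2 hh]
    exact hm K x v w hx hv

theorem Ton_small (R : ℝ) {ε : ℝ} (hε : 0 ≤ ε) : Small R ε (fun _ => 0) := fun x _ => by
  simp [hε, ContinuousLinearMap.opNorm_zero]

theorem Tonelli.ton0 {F : E × E → ℝ} (hF : Tonelli Γ F) : Ton0 F := fun R =>
  (hF.cls_unif R).imp fun _ h => Ton_zero F ▸ h _ contDiff_const (Ton_small R zero_le_one)

theorem Small.mono {R R' ε ε' : ℝ} {h : E → ℝ} (hs : Small R ε h) (hR : R' ≤ R) (hε : ε ≤ ε') :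
    Small R' ε' h := fun x hx =>
  (hs x (hx.trans hR)).imp (·.trans hε) (And.imp (·.trans hε) (·.trans hε))

theorem small_zero (R : ℝ) {ε : ℝ} (hε : 0 ≤ ε) : Small R ε (fun _ => 0) := Ton_small R hε

theorem tendsto_nb_iff {ι : Type} {l : Filter ι} {F : E × E → ℝ} {c : H1 Γ} {p : ι → Par Γ} :
    Tendsto p l (nb F c) ↔ (∀ᶠ i in l, Adm F (p i)) ∧
      (∀ R ε : ℝ, 0 < ε → ∀ᶠ i in l, Small R ε (p i).1) ∧
      ∀ γ : Γ, Tendsto (fun i => (p i).2.1 γ) l (𝓝 (c.1 γ)) := by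
  simp only [nb, tendsto_inf, tendsto_iInf, tendsto_principal, tendsto_comap_iff, tendsto_pi_nhds,
    and_assoc]
  rfl

theorem nb_adm (F : E × E → ℝ) (c : H1 Γ) : ∀ᶠ p in nb F c, Adm F p :=
  (tendsto_nb_iff.1 tendsto_id).1

theorem nb_small (F : E × E → ℝ) (c : H1 Γ) (R : ℝ) {ε : ℝ} (hε : 0 < ε) :
    ∀ᶠ p in nb F c, Small R ε p.1 := (tendsto_nb_iff.1 tendsto_id).2.1 R ε hε

theorem nb_cls {F : E × E → ℝ} (hF : Tonelli Γ F) (c : H1 Γ) (R : ℝ) :
    ∃ m : Md, Cls m R F ∧ ∀ᶠ p in nb F c, Cls m R (MP_1ce82a_an.addPot F p.1) := by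
  obtain ⟨m, hm⟩ := hF.cls_unif R
  refine ⟨m, Ton_zero F ▸ hm _ contDiff_const (small_zero R zero_le_one), ?_⟩
  filter_upwards [nb_adm F c, nb_small F c R one_pos] with p h1 h2 using hm _ h1.1 h2

theorem tendsto_nb_const {ι : Type} (l : Filter ι) {F : E × E → ℝ} {c : H1 Γ} (hc : Crit F c) :
    Tendsto (fun _ : ι => ((fun _ => 0, c) : Par Γ)) l (nb F c) :=
  tendsto_nb_iff.2 ⟨.of_forall fun _ => ⟨contDiff_const, fun _ _ => rfl, (Ton_zero F).symm ▸ hc⟩,
    fun R _ hε => .of_forall fun _ => small_zero R hε.le, fun _ => tendsto_const_nhds⟩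

theorem nb_self {F : E × E → ℝ} {c : H1 Γ} (hc : Crit F c) {Q : Par Γ → Prop}
    (h : ∀ᶠ p in nb F c, Q p) : Q (fun _ => 0, c) :=
  (tendsto_nb_const (pure ()) hc).eventually h

/-- Negating a statement of the form: some positive `δ` works eventually. -/
theorem exists_ultra {α : Type} {l : Filter α} {Q : ℝ → α → Prop}
    (hm : ∀ δ δ' p, 0 < δ' → δ' ≤ δ → Q δ p → Q δ' p)
    (h : ¬ ∃ δ, 0 < δ ∧ ∀ᶠ p in l, Q δ p) :
    ∃ U : Ultrafilter (ℝ × α), Tendsto Prod.fst (U : Filter (ℝ × α)) (𝓝[>] 0) ∧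
      Tendsto Prod.snd (U : Filter (ℝ × α)) l ∧ ∀ᶠ q in (U : Filter (ℝ × α)), ¬ Q q.1 q.2 := by
  have _ := hm
  have : NeBot ((𝓝[>] (0 : ℝ) ×ˢ l) ⊓ 𝓟 {q | ¬ Q q.1 q.2}) := by
    refine frequently_iff_neBot.1 fun k => h ?_
    obtain ⟨pa, ha, pb, hb, k⟩ := eventually_prod_iff.1 k
    obtain ⟨δ, h1, h2⟩ := (ha.and self_mem_nhdsWithin).exists
    exact ⟨δ, h2, hb.mono fun p hp => not_not.1 (k h1 hp)⟩
  have hU := Ultrafilter.of_le ((𝓝[>] (0 : ℝ) ×ˢ l) ⊓ 𝓟 {q | ¬ Q q.1 q.2})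
  exact ⟨_, tendsto_fst.mono_left (hU.trans inf_le_left), tendsto_snd.mono_left (hU.trans inf_le_left),
    le_principal_iff.1 (hU.trans inf_le_right)⟩

end Pool.Agent.Work.MP_1ce82a_an
end

-- merged part: Pool.Agent.Work.MP_1ce82a_an.B.Alc
section
/-! The critical value defined by loops.
PLAN. The set is nonempty (constant loop). Upper bound: U from exists_eqv_smooth; dU_x v - F(x,v) is bounded above for x in
the ball of radius R0 (superlinearity with A = bound of the norm of dU) and is invariant, so bounded by some M everywhere; along a loop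
c(g) = integral of dU(z') <= act + M T. Convexity: a supremum of affine functions (csSup_le, le_csSup).
Continuity: ConvexOn.continuousOn on the finite dimensional space (compose with e). sd_slope: take m between the left slopes and the
right slopes at 0 (supremum of the left slopes), so a(-s) >= a 0 - m s for all s. -/

open Set Filter Topology MeasureTheory
open scoped ContDiff

namespace Pool.Agent.Work.MP_1ce82a_an

variable {Γ : Grp}

theorem alc_bdd (hS : Surf Γ) {F : E × E → ℝ} (hF : Tonelli Γ F) (c : H1 Γ) :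
    ∃ M : ℝ, ∀ (z : ℝ → E) (T : ℝ) (γ : Γ), IsLoop z T γ → c.1 γ - act F z 0 T ≤ M * T := by
  obtain ⟨U, hU, hE⟩ := exists_eqv_smooth hS c
  obtain ⟨R, -, hR⟩ := hS.exists_R0
  obtain ⟨m, hm⟩ := hF.ton0 R
  have h1 : ContDiff ℝ 1 U := hU.of_le (by exact_mod_cast le_top)
  have h2 : Continuous (fderiv ℝ U) := h1.continuous_fderiv one_ne_zero
  obtain ⟨A, hA⟩ := (isCompact_closedBall (0 : E) R).exists_bound_of_continuousOn h2.continuousOn
  have key : ∀ x v : E, fderiv ℝ U x v ≤ F (x, v) + m.th A := fun x v => by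
    obtain ⟨γ, hγ⟩ := hR x
    have k1 := (h1.differentiable one_ne_zero (γ • x)).hasFDerivAt.comp x (hS.hasFDerivAt γ x)
    have k2 : HasFDerivAt (U ∘ fun y => γ • y) (fderiv ℝ U x) x := by
      rw [show (U ∘ fun y => γ • y) = fun y => U y + c.1 γ from funext (hE γ)]
      exact (h1.differentiable one_ne_zero x).hasFDerivAt.add_const _
    have k3 := hm.sup A _ (dk γ x v) hγ
    have k4 := ((fderiv ℝ U (γ • x)).le_of_opNorm_le (hA _ (mem_closedBall_zero_iff.2 hγ))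
      (dk γ x v))
    rw [k2.unique k1, ← hF.inv γ x v, ContinuousLinearMap.comp_apply]
    linarith [le_of_abs_le k4]
  refine ⟨m.th A, fun z T γ h => ?_⟩
  have k1 := h.2.1.ftc_comp h1
  have k2 := intervalIntegral.integral_mono_on h.1.le
    (h.2.1.intervalIntegrable (Φ := fun p => fderiv ℝ U p.2.1 p.2.2) (by fun_prop))
    ((h.2.1.ii_act hF.cont).add (intervalIntegrable_const (c := m.th A)))
    fun t _ => key (z t) (deriv z t)
  rw [intervalIntegral.integral_add (h.2.1.ii_act hF.cont) intervalIntegrable_const,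
    intervalIntegral.integral_const, sub_zero, smul_eq_mul] at k2
  rw [h.2.2, hE] at k1
  have k3 : ∫ t in (0 : ℝ)..T, fderiv ℝ U (z t) (deriv z t) ≤ act F z 0 T + T * m.th A := k2
  linarith

theorem le_alc (hS : Surf Γ) {F : E × E → ℝ} (hF : Tonelli Γ F) (c : H1 Γ) {z : ℝ → E} {T : ℝ}
    {γ : Γ} (h : IsLoop z T γ) : c.1 γ - act F z 0 T ≤ alc F c * T := by
  obtain ⟨M, hM⟩ := alc_bdd hS hF c
  refine (div_le_iff₀ h.1).1 (le_csSup ⟨M, ?_⟩ ⟨z, T, γ, h, rfl⟩)
  rintro _ ⟨z, T, γ, h, rfl⟩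
  exact (div_le_iff₀ h.1).2 (hM z T γ h)

theorem alc_le {F : E × E → ℝ} {c : H1 Γ} {M : ℝ}
    (h : ∀ (z : ℝ → E) (T : ℝ) (γ : Γ), IsLoop z T γ → c.1 γ - act F z 0 T ≤ M * T) :
    alc F c ≤ M := by
  refine csSup_le ⟨_, fun _ => 0, 1, 1, ⟨one_pos, ⟨zero_le_one, 0,
    (LipschitzWith.const _).lipschitzOnWith⟩, (one_smul _ _).symm⟩, rfl⟩ ?_
  rintro _ ⟨z, T, γ, k, rfl⟩
  exact (div_le_iff₀ k.1).2 (h z T γ k)

theorem crit_alc (hS : Surf Γ) {F : E × E → ℝ} (hF : Tonelli Γ F) (c : H1 Γ) :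
    Crit (addPot F (fun _ => alc F c)) c := by
  refine ⟨fun z T γ h => ?_, fun δ hδ => ?_⟩
  · rw [act_addPot hF.cont continuous_const h.2.1, pot_const, sub_zero]
    linarith [le_alc hS hF c h]
  · by_contra hn
    have h1 : alc F c ≤ alc F c - δ := alc_le fun z T γ h => by
      have h2 := not_le.1 fun k => hn ⟨z, T, γ, h, k⟩
      rw [act_addPot hF.cont continuous_const h.2.1, pot_const, sub_zero] at h2
      linarith
    linarith

theorem Alc_one (hS : Surf Γ) {F : E × E → ℝ} (hF : Tonelli Γ F) (c : H1 Γ) {f g : E → ℝ}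
    (hf : ContDiff ℝ 2 f) (hg : ContDiff ℝ 2 g) (hgi : Inv Γ g) {M : ℝ}
    (hM : ∀ x, |g x - f x| ≤ M) : alc (addPot F f) c ≤ alc (addPot F g) c + M := by
  refine alc_le fun z T γ h => ?_
  have h1 := le_alc hS (hF.addPot hg hgi) c h
  have h2 := abs_pot_le (g := fun x => g x - f x) (z := z) h.1.le fun t _ => hM (z t)
  rw [pot, intervalIntegral.integral_sub (h.2.1.ii_pot hg.continuous)
    (h.2.1.ii_pot hf.continuous)] at h2
  rw [act_addPot hF.cont hg.continuous h.2.1, pot] at h1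
  rw [act_addPot hF.cont hf.continuous h.2.1, pot]
  linarith [le_of_abs_le h2]

theorem alc_lip (hS : Surf Γ) {F : E × E → ℝ} (hF : Tonelli Γ F) (c : H1 Γ) {f g : E → ℝ}
    (hf : ContDiff ℝ 2 f) (hfi : Inv Γ f) (hg : ContDiff ℝ 2 g) (hgi : Inv Γ g) {M : ℝ}
    (hM : ∀ x, |f x - g x| ≤ M) : |alc (addPot F f) c - alc (addPot F g) c| ≤ M := by
  have h1 := Alc_one hS hF c hf hg hgi fun x => (abs_sub_comm _ _).trans_le (hM x)
  have h2 := Alc_one hS hF c hg hf hfi hM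
  exact abs_sub_le_iff.2 ⟨by linarith, by linarith⟩

theorem Alc_pot {F : E × E → ℝ} (hF : Tonelli Γ F) {g : E → ℝ} (hg : ContDiff ℝ 2 g) (s : ℝ)
    {z : ℝ → E} {a b : ℝ} (h : IsPath z a b) :
    act (addPot F (fun x => s * g x)) z a b = act F z a b + s * pot g z a b := by
  rw [act_addPot (g := fun x => s * g x) hF.cont (continuous_const.mul hg.continuous) h, pot, pot,
    intervalIntegral.integral_const_mul]

theorem Alc_le (hS : Surf Γ) {F : E × E → ℝ} (hF : Tonelli Γ F) (c : H1 Γ) {g : E → ℝ}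
    (hg : ContDiff ℝ 2 g) (hgi : Inv Γ g) (s : ℝ) {z : ℝ → E} {T : ℝ} {γ : Γ} (h : IsLoop z T γ) :
    c.1 γ - (act F z 0 T + s * pot g z 0 T) ≤ alc (addPot F (fun x => s * g x)) c * T := by
  rw [← Alc_pot hF hg s h.2.1]
  exact le_alc hS (hF.addPot (contDiff_const.mul hg) fun γ x => by simp only [hgi γ x]) c h

theorem alc_convex_pot (hS : Surf Γ) {F : E × E → ℝ} (hF : Tonelli Γ F) (c : H1 Γ) {g : E → ℝ}
    (hg : ContDiff ℝ 2 g) (hgi : Inv Γ g) :
    ConvexOn ℝ univ (fun s : ℝ => alc (addPot F (fun x => s * g x)) c) := by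
  refine ⟨convex_univ, fun s _ t _ a b ha hb hab => alc_le fun z T γ h => ?_⟩
  have h1 := mul_le_mul_of_nonneg_left (Alc_le hS hF c hg hgi s h) ha
  have h2 := mul_le_mul_of_nonneg_left (Alc_le hS hF c hg hgi t h) hb
  rw [Alc_pot hF hg _ h.2.1]
  obtain rfl : b = 1 - a := by linarith
  simp only [smul_eq_mul]
  linarith

theorem alc_convex_cls (hS : Surf Γ) {F : E × E → ℝ} (hF : Tonelli Γ F) :
    ConvexOn ℝ univ (fun c : H1 Γ => alc F c) := by
  refine ⟨convex_univ, fun c _ d _ a b ha hb hab => alc_le fun z T γ h => ?_⟩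
  have h1 := mul_le_mul_of_nonneg_left (le_alc hS hF c h) ha
  have h2 := mul_le_mul_of_nonneg_left (le_alc hS hF d h) hb
  rw [show (a • c + b • d).1 γ = a * c.1 γ + b * d.1 γ from rfl]
  obtain rfl : b = 1 - a := by linarith
  simp only [smul_eq_mul]
  linarith

theorem alc_cont (hS : Surf Γ) {F : E × E → ℝ} (hF : Tonelli Γ F) {b : ℕ}
    (e : (Fin b → ℝ) ≃ₗ[ℝ] H1 Γ) : Continuous (fun t : Fin b → ℝ => alc F (e t)) :=
  continuousOn_univ.1 (((alc_convex_cls hS hF).comp_linearMap e.toLinearMap).continuousOn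
    isOpen_univ)

theorem sd_slope {a : ℝ → ℝ} (hc : ConvexOn ℝ univ a) (hs : SD a) :
    ∃ m C δ : ℝ, 0 ≤ C ∧ 0 < δ ∧ ∀ s : ℝ, |s| ≤ δ → a s ≤ a 0 + m * s + C * s ^ 2 := by
  obtain ⟨C, δ, hδ, h⟩ := hs
  have h1 : ∀ s t : ℝ, 0 < s → 0 < t → (a 0 - a (-s)) / s ≤ (a t - a 0) / t := fun s t k1 k2 => by
    simpa using hc.slope_mono_adjacent (mem_univ (-s)) (mem_univ t) (neg_lt_zero.2 k1) k2
  obtain ⟨m, hm⟩ : ∃ m, ∀ s, a 0 + m * s ≤ a s := by
    refine ⟨sSup ((fun s => (a 0 - a (-s)) / s) '' Ioi 0), fun s => ?_⟩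
    rcases lt_trichotomy s 0 with k | rfl | k
    · have k0 : BddAbove ((fun s => (a 0 - a (-s)) / s) '' Ioi 0) :=
        ⟨_, forall_mem_image.2 fun t kt => h1 t 1 kt one_pos⟩
      have k1 := (div_le_iff₀ (neg_pos.2 k)).1 (le_csSup k0
        (mem_image_of_mem (fun s => (a 0 - a (-s)) / s)
          (mem_Ioi.2 (neg_pos.2 k))))
      rw [neg_neg] at k1
      linarith
    · simp
    · have k1 := (le_div_iff₀ k).1 (csSup_le (nonempty_Ioi.image _)
        (forall_mem_image.2 fun t kt => h1 t s kt k))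
      linarith
  refine ⟨m, max C 0, δ, le_max_right _ _, hδ, fun s k => ?_⟩
  have k1 := mul_le_mul_of_nonneg_right (le_max_left C 0) (sq_nonneg s)
  linarith [h s k, hm (-s)]

theorem qg_of_sd_pot (hS : Surf Γ) {F : E × E → ℝ} (hF : Tonelli Γ F) (c : H1 Γ) {g : E → ℝ}
    (hg : ContDiff ℝ 2 g) (hgi : Inv Γ g)
    (hs : SD (fun s : ℝ => alc (addPot F (fun x => s * g x)) c)) :
    ∃ m, QG (addPot F (fun _ => alc F c)) c 0 g m := by
  obtain ⟨m, C, δ, hC, hδ, h⟩ := sd_slope (alc_convex_pot hS hF c hg hgi) hs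
  refine ⟨-m, C, δ, hC, hδ, fun z T γ k s ks => ?_⟩
  have h1 := mul_le_mul_of_nonneg_right (h (-s) (by rwa [abs_neg])) k.1.le
  have h2 := Alc_le hS hF c hg hgi (-s) k
  simp only [zero_mul, addPot_zero] at h1
  rw [act_addPot hF.cont continuous_const k.2.1, pot_const, show (0 : H1 Γ).1 γ = 0 from rfl]
  linarith

theorem qg_of_sd_cls (hS : Surf Γ) {F : E × E → ℝ} (hF : Tonelli Γ F) (c c' : H1 Γ)
    (hs : SD (fun s : ℝ => alc F (c + s • c'))) :
    ∃ m, QG (addPot F (fun _ => alc F c)) c c' (fun _ => 0) m := by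
  have h0 : ConvexOn ℝ univ (fun s : ℝ => alc F (c + s • c')) := by
    refine ⟨convex_univ, fun s _ t _ a b ha hb hab => ?_⟩
    have e : c + (a • s + b • t) • c' = a • (c + s • c') + b • (c + t • c') := by
      rw [smul_add, smul_add, add_add_add_comm, ← add_smul a, hab, one_smul, add_smul,
        smul_assoc, smul_assoc]
    exact (congrArg (alc F) e).trans_le
      ((alc_convex_cls hS hF).2 (mem_univ _) (mem_univ _) ha hb hab)
  obtain ⟨m, C, δ, hC, hδ, h⟩ := sd_slope h0 hs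
  refine ⟨m, C, δ, hC, hδ, fun z T γ k s ks => ?_⟩
  have h1 := mul_le_mul_of_nonneg_right (h s ks) k.1.le
  have h2 := le_alc hS hF (c + s • c') k
  simp only [zero_smul, add_zero] at h1
  rw [show (c + s • c').1 γ = c.1 γ + s * c'.1 γ from rfl] at h2
  rw [act_addPot hF.cont continuous_const k.2.1, pot_const, pot_const]
  linarith

end Pool.Agent.Work.MP_1ce82a_an
end
end

-- merged part: Pool.Agent.Work.MP_1ce82a_an.A.Mod
section
/-! Affine modification of paths.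
PLAN. At differentiability times the phase point of aff is ph z t plus (h t, (h1-h0)/(b-a)); Cls.taylor with
the velocity bound K + 2/tau and the radius R+1, then integrate. Linearity: fv is the integral of a continuous linear
expression; define P0 and P1 as Bochner integrals of covectors (IsPath.intervalIntegrable, and
ContinuousLinearMap.intervalIntegral_apply), or as linear maps on the finite dimensional space.
fv_orb: the derivative of mo F z t (h t) is the integrand; fundamental theorem of calculus.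
quad_lip: test with y = x1 + h, |h| = |x1-x2|, and combine three estimates; for x1 = x2 use uniqueness. -/

open Set Filter Topology MeasureTheory
open scoped ContDiff

namespace Pool.Agent.Work.MP_1ce82a_an

variable {Γ : Grp}

/-- The affine displacement. -/
noncomputable def Mod_h (a b : ℝ) (h0 h1 : E) (t : ℝ) : E :=
  ((b - t) / (b - a)) • h0 + ((t - a) / (b - a)) • h1

theorem Mod_aff (z : ℝ → E) (a b : ℝ) (h0 h1 : E) (t : ℝ) :
    aff z a b h0 h1 t = z t + Mod_h a b h0 h1 t := add_assoc _ _ _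

theorem Mod_der (a b : ℝ) (h0 h1 : E) (t : ℝ) :
    HasDerivAt (Mod_h a b h0 h1) ((1 / (b - a)) • (h1 - h0)) t := by
  have d0 := (((hasDerivAt_id t).const_sub b).div_const (b - a)).smul_const h0
  have d1 := (((hasDerivAt_id t).sub_const a).div_const (b - a)).smul_const h1
  refine (d0.add d1).congr_deriv ?_
  rw [neg_div]
  module

theorem Mod_cont (a b : ℝ) (h0 h1 : E) : Continuous (Mod_h a b h0 h1) :=
  continuous_iff_continuousAt.2 fun t => (Mod_der a b h0 h1 t).continuousAt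

theorem Mod_left {a b : ℝ} (hab : a < b) (h0 h1 : E) : Mod_h a b h0 h1 a = h0 := by
  rw [Mod_h, div_self (sub_pos.2 hab).ne', sub_self, zero_div, one_smul, zero_smul, add_zero]

theorem Mod_right {a b : ℝ} (hab : a < b) (h0 h1 : E) : Mod_h a b h0 h1 b = h1 := by
  rw [Mod_h, div_self (sub_pos.2 hab).ne', sub_self, zero_div, one_smul, zero_smul, zero_add]

theorem Mod_le {a b : ℝ} (hab : a < b) (h0 h1 : E) {t : ℝ} (ht : t ∈ Icc a b) :
    ‖Mod_h a b h0 h1 t‖ ≤ max ‖h0‖ ‖h1‖ := by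
  have hp := sub_pos.2 hab
  have := convex_closedBall (0 : E) (max ‖h0‖ ‖h1‖)
    (mem_closedBall_zero_iff.2 (le_max_left ‖h0‖ ‖h1‖))
    (mem_closedBall_zero_iff.2 (le_max_right ‖h0‖ ‖h1‖))
    (div_nonneg (sub_nonneg.2 ht.2) hp.le) (div_nonneg (sub_nonneg.2 ht.1) hp.le)
    (by field_simp; ring)
  exact mem_closedBall_zero_iff.1 this

theorem Mod_ph {z : ℝ → E} (a b : ℝ) (h0 h1 : E) {t : ℝ} (h : HasDerivAt z (deriv z t) t) :
    ph (aff z a b h0 h1) t = ph z t + (Mod_h a b h0 h1 t, (1 / (b - a)) • (h1 - h0)) := by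
  have e : aff z a b h0 h1 = fun t => z t + Mod_h a b h0 h1 t := funext (Mod_aff z a b h0 h1)
  refine Prod.ext (Mod_aff z a b h0 h1 t) ?_
  show deriv (aff z a b h0 h1) t = deriv z t + (1 / (b - a)) • (h1 - h0)
  rw [e]
  exact (h.add (Mod_der a b h0 h1 t)).deriv

theorem Mod_ii {F : E × E → ℝ} (hF : ContDiff ℝ 2 F) {z : ℝ → E} {a b : ℝ} (h : IsPath z a b)
    (h0 h1 : E) : IntervalIntegrable (fun t => fderiv ℝ F (ph z t)
      (Mod_h a b h0 h1 t, (1 / (b - a)) • (h1 - h0))) volume a b :=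
  h.intervalIntegrable (Φ := fun q : ℝ × (E × E) => fderiv ℝ F q.2
      (Mod_h a b h0 h1 q.1, (1 / (b - a)) • (h1 - h0)))
    (((hF.continuous_fderiv (by simp)).comp continuous_snd).clm_apply
      (((Mod_cont a b h0 h1).comp continuous_fst).prodMk continuous_const))

theorem aff_left (z : ℝ → E) {a b : ℝ} (hab : a < b) (h0 h1 : E) : aff z a b h0 h1 a = z a + h0 :=
  by rw [Mod_aff, Mod_left hab]

theorem aff_right (z : ℝ → E) {a b : ℝ} (hab : a < b) (h0 h1 : E) :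
    aff z a b h0 h1 b = z b + h1 := by rw [Mod_aff, Mod_right hab]

theorem aff_sub_le (z : ℝ → E) {a b : ℝ} (hab : a < b) (h0 h1 : E) {t : ℝ} (ht : t ∈ Icc a b) :
    ‖aff z a b h0 h1 t - z t‖ ≤ max ‖h0‖ ‖h1‖ := by
  rw [Mod_aff, add_sub_cancel_left]
  exact Mod_le hab h0 h1 ht

theorem IsPath.aff {z : ℝ → E} {a b : ℝ} (h : IsPath z a b) (h0 h1 : E) :
    IsPath (aff z a b h0 h1) a b := by
  obtain ⟨hab, K, hK⟩ := h
  obtain ⟨-, K', hK'⟩ := isPath_of_hasDerivAt hab (fun t _ => Mod_der a b h0 h1 t) continuousOn_const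
  refine IsPath.congr ⟨hab, K + K', hK.add hK'⟩ fun t _ => ?_
  exact (Mod_aff z a b h0 h1 t).symm

theorem mod_le (m : Md) (K τ T : ℝ) (hτ : 0 < τ) : ∃ C : ℝ, 0 ≤ C ∧
    ∀ (R : ℝ) (F : E × E → ℝ) (z : ℝ → E) (a b : ℝ), Cls m (R + 1) F → τ ≤ b - a → b - a ≤ T →
      LipschitzOnWith K.toNNReal z (Icc a b) → (∀ t ∈ Icc a b, ‖z t‖ ≤ R) →
      ∀ h0 h1 : E, ‖h0‖ ≤ 1 → ‖h1‖ ≤ 1 →
        act F (aff z a b h0 h1) a b ≤
          act F z a b + fv F z a b h0 h1 + C * (‖h0‖ ^ 2 + ‖h1‖ ^ 2) := by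
  have hL := m.La_nonneg (K.toNNReal + 2 / τ)
  refine ⟨m.La (K.toNNReal + 2 / τ) * (2 * (1 + 1 / τ) ^ 2) * |T|, by positivity, ?_⟩
  intro R F z a b hF h1 h2 hz hR h0 h1' n0 n1
  have hab : a < b := by linarith
  have hp : IsPath z a b := ⟨hab.le, _, hz⟩
  have hw : ‖(1 / (b - a)) • (h1' - h0)‖ ≤ 1 / τ * (‖h0‖ + ‖h1'‖) := by
    rw [norm_smul, Real.norm_of_nonneg (one_div_pos.2 (sub_pos.2 hab)).le]
    exact mul_le_mul (one_div_le_one_div_of_le hτ h1) ((norm_sub_le _ _).trans (add_comm _ _).le)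
      (norm_nonneg _) (by positivity)
  have hτ' : 0 < 1 / τ := by positivity
  have n2 := norm_nonneg h0
  have n3 := norm_nonneg h1'
  have i1 := (hp.aff h0 h1').ii_act hF.cont
  have i2 := hp.ii_act hF.cont
  have i3 := Mod_ii hF.c2 hp h0 h1'
  have key : ∫ t in a..b, F (ph (aff z a b h0 h1') t) ≤ ∫ t in a..b, (F (ph z t) + fderiv ℝ F (ph z t)
      (Mod_h a b h0 h1' t, (1 / (b - a)) • (h1' - h0)) +
      m.La (K.toNNReal + 2 / τ) * (2 * (1 + 1 / τ) ^ 2) * (‖h0‖ ^ 2 + ‖h1'‖ ^ 2)) := by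
    refine intervalIntegral.integral_mono_ae_restrict hab.le i1
      ((i2.add i3).add intervalIntegrable_const) ?_
    rw [← Measure.restrict_congr_set Ioo_ae_eq_Icc]
    refine (ae_restrict_iff' measurableSet_Ioo).2 ?_
    filter_upwards [hp.ae_hasDerivAt] with t ht hm
    have hm' := Ioo_subset_Icc_self hm
    have v1 : ‖deriv z t‖ ≤ K.toNNReal := norm_deriv_le_lip hz hm
    have v2 := Mod_le hab h0 h1' hm'
    have v3 : 0 < 2 / τ := by positivity
    have v4 : ‖(1 / (b - a)) • (h1' - h0)‖ ≤ 2 / τ :=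
      hw.trans (by rw [show 2 / τ = 1 / τ * 2 by ring]; exact mul_le_mul_of_nonneg_left (by linarith) hτ'.le)
    have t1 := hF.taylor (K := K.toNNReal + 2 / τ) (z := ph z t)
      (y := ph z t + (Mod_h a b h0 h1' t, (1 / (b - a)) • (h1' - h0)))
      ⟨(hR t hm').trans (by linarith), v1.trans (by linarith)⟩
      ⟨(norm_add_le _ _).trans (add_le_add (hR t hm') (v2.trans (max_le n0 n1))),
        (norm_add_le _ _).trans (add_le_add v1 v4)⟩
    rw [add_sub_cancel_left] at t1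
    have v5 : ‖(Mod_h a b h0 h1' t, (1 / (b - a)) • (h1' - h0))‖ ≤ (1 + 1 / τ) * (‖h0‖ + ‖h1'‖) := by
      rw [Prod.norm_mk]
      have := mul_nonneg hτ'.le (add_nonneg n2 n3)
      refine max_le (v2.trans (max_le ?_ ?_)) (hw.trans ?_) <;> linarith
    have v6 : ‖(Mod_h a b h0 h1' t, (1 / (b - a)) • (h1' - h0))‖ ^ 2 ≤
        2 * (1 + 1 / τ) ^ 2 * (‖h0‖ ^ 2 + ‖h1'‖ ^ 2) := by
      refine (pow_le_pow_left₀ (norm_nonneg _) v5 2).trans ?_
      rw [mul_pow, mul_comm 2, mul_assoc]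
      exact mul_le_mul_of_nonneg_left (by nlinarith [sq_nonneg (‖h0‖ - ‖h1'‖)]) (sq_nonneg _)
    have v7 := mul_le_mul_of_nonneg_left v6 hL
    rw [Mod_ph a b h0 h1' (ht hm)]
    have := (abs_le.1 t1).2
    linarith
  rw [intervalIntegral.integral_add (i2.add i3) intervalIntegrable_const,
    intervalIntegral.integral_add i2 i3, intervalIntegral.integral_const, smul_eq_mul] at key
  refine key.trans (add_le_add le_rfl ?_)
  have := mul_le_mul_of_nonneg_right (h2.trans (le_abs_self T))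
    (show 0 ≤ m.La (K.toNNReal + 2 / τ) * (2 * (1 + 1 / τ) ^ 2) * (‖h0‖ ^ 2 + ‖h1'‖ ^ 2) by positivity)
  linarith

theorem fv_lin {F : E × E → ℝ} (hF : ContDiff ℝ 2 F) {z : ℝ → E} {a b : ℝ} (h : IsPath z a b) :
    ∃ P0 P1 : E →L[ℝ] ℝ, ∀ h0 h1 : E, fv F z a b h0 h1 = P0 h0 + P1 h1 := by
  have c : Continuous fun q : ℝ × (E × E) => fderiv ℝ F q.2 :=
    (hF.continuous_fderiv (by simp)).comp continuous_snd
  have cx : Continuous fun q : ℝ × (E × E) => xpart (fderiv ℝ F q.2) := c.clm_comp continuous_const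
  have cv : Continuous fun q : ℝ × (E × E) => vpart (fderiv ℝ F q.2) := c.clm_comp continuous_const
  have i0 := h.intervalIntegrable (Φ := fun q : ℝ × (E × E) =>
    ((b - q.1) / (b - a)) • xpart (fderiv ℝ F q.2) - (1 / (b - a)) • vpart (fderiv ℝ F q.2))
    (((show Continuous fun q : ℝ × (E × E) => (b - q.1) / (b - a) by fun_prop).smul cx).sub
      (cv.const_smul (1 / (b - a))))
  have i1 := h.intervalIntegrable (Φ := fun q : ℝ × (E × E) =>
    ((q.1 - a) / (b - a)) • xpart (fderiv ℝ F q.2) + (1 / (b - a)) • vpart (fderiv ℝ F q.2))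
    (((show Continuous fun q : ℝ × (E × E) => (q.1 - a) / (b - a) by fun_prop).smul cx).add
      (cv.const_smul (1 / (b - a))))
  dsimp only at i0 i1
  have j : ∀ {f : ℝ → E →L[ℝ] ℝ}, IntervalIntegrable f volume a b → ∀ v,
      IntervalIntegrable (fun t => f t v) volume a b := fun hf v =>
    ⟨hf.1.apply_continuousLinearMap v, hf.2.apply_continuousLinearMap v⟩
  refine ⟨∫ t in a..b, (((b - t) / (b - a)) • xpart (fderiv ℝ F (ph z t)) -
      (1 / (b - a)) • vpart (fderiv ℝ F (ph z t))),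
    ∫ t in a..b, (((t - a) / (b - a)) • xpart (fderiv ℝ F (ph z t)) +
      (1 / (b - a)) • vpart (fderiv ℝ F (ph z t))), fun h0 h1 => ?_⟩
  rw [ContinuousLinearMap.intervalIntegral_apply i0, ContinuousLinearMap.intervalIntegral_apply i1,
    ← intervalIntegral.integral_add (j i0 h0) (j i1 h1)]
  refine intervalIntegral.integral_congr fun t _ => ?_
  simp only [clm_split, map_add, map_smul, map_sub, sub_apply, add_apply, smul_apply, smul_eq_mul]
  ring

theorem fv_orb {F : E × E → ℝ} (hF : ContDiff ℝ 2 F) {z : ℝ → E} {a b : ℝ} (hab : a < b)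
    (h : OrbOn F z a b) (h0 h1 : E) : fv F z a b h0 h1 = mo F z b h1 - mo F z a h0 := by
  have hp : IsPath z a b := isPath_of_hasDerivAt hab.le (fun t ht => (h t ht).1)
    fun t ht => (h t ht).2.1.continuousWithinAt
  have := intervalIntegral.integral_eq_sub_of_hasDerivAt
    (f := fun t => mo F z t (Mod_h a b h0 h1 t)) (fun t ht => by
      rw [uIcc_of_le hab.le] at ht
      rw [clm_split]
      exact (h t ht).2.2.clm_apply (Mod_der a b h0 h1 t)) (Mod_ii hF hp h0 h1)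
  rw [Mod_left hab, Mod_right hab] at this
  exact this

theorem pot_aff_le {g : E → ℝ} (hg : ContDiff ℝ 1 g) (R T : ℝ) : ∃ C : ℝ, 0 ≤ C ∧
    ∀ (z : ℝ → E) (a b : ℝ), a < b → b - a ≤ T → IsPath z a b → (∀ t ∈ Icc a b, ‖z t‖ ≤ R) →
      ∀ h0 h1 : E, ‖h0‖ ≤ 1 → ‖h1‖ ≤ 1 →
        |pot g (aff z a b h0 h1) a b - pot g z a b| ≤ C * (‖h0‖ + ‖h1‖) := by
  obtain ⟨L, hL⟩ := (hg.locallyLipschitz.locallyLipschitzOn
    (s := Metric.closedBall (0 : E) (R + 1))).exists_lipschitzOnWith_of_compact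
      (isCompact_closedBall _ _)
  refine ⟨L * |T|, by positivity, fun z a b hab hT hz hR h0 h1 n0 n1 => ?_⟩
  have n2 := norm_nonneg h0
  have n3 := norm_nonneg h1
  rw [pot, pot, ← intervalIntegral.integral_sub ((hz.aff h0 h1).ii_pot hg.continuous)
    (hz.ii_pot hg.continuous), ← Real.norm_eq_abs]
  refine (intervalIntegral.norm_integral_le_of_norm_le_const (C := L * (‖h0‖ + ‖h1‖))
    fun t ht => ?_).trans ?_
  · rw [uIoc_of_le hab.le] at ht
    have ht' := Ioc_subset_Icc_self ht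
    have v := aff_sub_le z hab h0 h1 ht'
    have v1 : ‖aff z a b h0 h1 t‖ ≤ R + 1 := by
      have := norm_le_norm_add_norm_sub' (aff z a b h0 h1 t) (z t)
      linarith [hR t ht', max_le n0 n1]
    refine (hL.norm_sub_le (mem_closedBall_zero_iff.2 v1)
      (mem_closedBall_zero_iff.2 ((hR t ht').trans (by linarith)))).trans ?_
    exact mul_le_mul_of_nonneg_left (v.trans (max_le (by linarith) (by linarith))) L.2
  · rw [abs_of_pos (sub_pos.2 hab), mul_right_comm]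
    exact mul_le_mul_of_nonneg_right (mul_le_mul_of_nonneg_left (hT.trans (le_abs_self T)) L.2)
      (add_nonneg n2 n3)

/-- A linear form bounded below by a negative quadratic term vanishes. -/
theorem clm_eq_of_quad {p q : E →L[ℝ] ℝ} {C r : ℝ} (hr : 0 < r)
    (h : ∀ y : E, ‖y‖ ≤ r → p y ≤ q y + C * ‖y‖ ^ 2) : p = q := by
  have key : ∀ y : E, p y ≤ q y := fun y => by
    have t1 : Tendsto (fun t : ℝ => q y + C * ‖y‖ ^ 2 * t) (𝓝[>] 0) (𝓝 (q y + C * ‖y‖ ^ 2 * 0)) :=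
      ((show Continuous fun t : ℝ => q y + C * ‖y‖ ^ 2 * t by fun_prop).tendsto 0).mono_left
        nhdsWithin_le_nhds
    have t2 : Tendsto (fun t : ℝ => ‖t • y‖) (𝓝[>] 0) (𝓝 ‖(0 : ℝ) • y‖) :=
      ((show Continuous fun t : ℝ => ‖t • y‖ by fun_prop).tendsto 0).mono_left nhdsWithin_le_nhds
    rw [mul_zero, add_zero] at t1
    rw [zero_smul, norm_zero] at t2
    refine ge_of_tendsto t1 ?_
    filter_upwards [t2.eventually (ge_mem_nhds hr), self_mem_nhdsWithin] with t ht ht0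
    have ht1 : 0 < t := ht0
    have := h _ ht
    rw [map_smul, map_smul, norm_smul, Real.norm_of_nonneg ht1.le, smul_eq_mul, smul_eq_mul] at this
    refine le_of_mul_le_mul_left ?_ ht1
    linarith
  refine ContinuousLinearMap.ext fun y => ?_
  have := key (-y)
  rw [map_neg, map_neg] at this
  linarith [key y]

theorem quad_lip {u : E → ℝ} {x1 x2 : E} {p1 p2 : E →L[ℝ] ℝ} {C r : ℝ} (hC : 0 ≤ C) (hr : 0 < r)
    (h1 : ∀ y, ‖y - x1‖ ≤ r → |u y - u x1 - p1 (y - x1)| ≤ C * ‖y - x1‖ ^ 2)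
    (h2 : ∀ y, ‖y - x2‖ ≤ r → |u y - u x2 - p2 (y - x2)| ≤ C * ‖y - x2‖ ^ 2)
    (hx : ‖x1 - x2‖ ≤ r / 2) : ‖p1 - p2‖ ≤ 6 * C * ‖x1 - x2‖ := by
  rcases (norm_nonneg (x1 - x2)).eq_or_lt with hd | hd
  · have e : x1 = x2 := sub_eq_zero.1 (norm_eq_zero.1 hd.symm)
    subst e
    rw [clm_eq_of_quad (p := p1) (q := p2) (C := 2 * C) hr fun y hy => ?_]
    · simp
    · have a1 := h1 (x1 + y)
      have a2 := h2 (x1 + y)
      rw [add_sub_cancel_left] at a1 a2
      linarith [(abs_le.1 (a1 hy)).1, (abs_le.1 (a2 hy)).2]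
  · refine ContinuousLinearMap.opNorm_le_of_unit_norm (by positivity) fun v hv => ?_
    obtain ⟨d, hd'⟩ : ∃ d, d = ‖x1 - x2‖ := ⟨_, rfl⟩
    rw [← hd'] at hd hx ⊢
    have n1 : ‖d • v‖ = d := by rw [norm_smul, hv, mul_one, Real.norm_of_nonneg hd.le]
    have n2 : ‖x1 + d • v - x2‖ ≤ 2 * d := by
      rw [add_sub_right_comm]
      linarith [norm_add_le (x1 - x2) (d • v)]
    have a1 := h1 (x1 + d • v)
    rw [add_sub_cancel_left, n1] at a1
    have a2 := (h2 (x1 + d • v) (by linarith)).trans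
      (mul_le_mul_of_nonneg_left (pow_le_pow_left₀ (norm_nonneg _) n2 2) hC)
    have a3 := h2 x1 (by linarith)
    rw [add_sub_right_comm, map_add] at a2
    rw [← hd'] at a3
    rw [map_smul, smul_eq_mul] at a1 a2
    have b1 := abs_le.1 (a1 (by linarith))
    have b2 := abs_le.1 a2
    have b3 := abs_le.1 a3
    rw [sub_apply, Real.norm_eq_abs, abs_le]
    constructor <;> refine le_of_mul_le_mul_left ?_ hd <;> linarith [b1.1, b1.2, b2.1, b2.2, b3.1, b3.2]

theorem hasFDerivAt_of_quad {u : E → ℝ} {x : E} {p : E →L[ℝ] ℝ} {C r : ℝ} (hr : 0 < r)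
    (h : ∀ y, ‖y - x‖ ≤ r → |u y - u x - p (y - x)| ≤ C * ‖y - x‖ ^ 2) : HasFDerivAt u p x := by
  rw [hasFDerivAt_iff_isLittleO_nhds_zero]
  have h1 : (fun y : E => u (x + y) - u x - p y) =O[𝓝 0] fun y : E => ‖y‖ ^ 2 := by
    refine Asymptotics.IsBigO.of_bound C ?_
    filter_upwards [Metric.closedBall_mem_nhds (0 : E) hr] with y hy
    have := h (x + y)
    rw [add_sub_cancel_left] at this
    rw [Real.norm_eq_abs, Real.norm_of_nonneg (sq_nonneg _)]
    exact this (mem_closedBall_zero_iff.1 hy)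
  exact h1.trans_isLittleO (Asymptotics.isLittleO_norm_pow_id one_lt_two)

/-- Uniform quadratic expansions on an open set give continuous differentiability. -/
theorem contDiffOn_of_quad {u : E → ℝ} {U : Set E} (hU : IsOpen U) {C r : ℝ} (hr : 0 < r)
    (h : ∀ x ∈ U, ∃ p : E →L[ℝ] ℝ,
      ∀ y, ‖y - x‖ ≤ r → |u y - u x - p (y - x)| ≤ C * ‖y - x‖ ^ 2) : ContDiffOn ℝ 1 u U := by
  have h' : ∀ x ∈ U, HasFDerivAt u (fderiv ℝ u x) x ∧ ∀ y, ‖y - x‖ ≤ r →
      |u y - u x - fderiv ℝ u x (y - x)| ≤ |C| * ‖y - x‖ ^ 2 := fun x hx => by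
    obtain ⟨p, hp⟩ := h x hx
    have d := hasFDerivAt_of_quad hr hp
    rw [d.fderiv]
    exact ⟨d, fun y hy => (hp y hy).trans (mul_le_mul_of_nonneg_right (le_abs_self C) (sq_nonneg _))⟩
  rw [show (1 : WithTop ℕ∞) = 0 + 1 from (zero_add _).symm, contDiffOn_succ_iff_fderiv_of_isOpen hU]
  refine ⟨fun x hx => (h' x hx).1.differentiableAt.differentiableWithinAt, by simp,
    contDiffOn_zero.2 fun x hx => ?_⟩
  refine tendsto_iff_norm_sub_tendsto_zero.2 (squeeze_zero' (Eventually.of_forall fun _ => norm_nonneg _)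
    (g := fun y => 6 * |C| * ‖y - x‖) ?_ ?_)
  · filter_upwards [self_mem_nhdsWithin,
      mem_nhdsWithin_of_mem_nhds (Metric.closedBall_mem_nhds x (half_pos hr))] with y hy hy'
    exact quad_lip (abs_nonneg C) hr (h' y hy).2 (h' x hx).2 (mem_closedBall_iff_norm.1 hy')
  · have := ((show Continuous fun y : E => 6 * |C| * ‖y - x‖ by fun_prop).tendsto x).mono_left
      (nhdsWithin_le_nhds (s := U))
    simpa using this

end Pool.Agent.Work.MP_1ce82a_an
end

-- merged part: Pool.Agent.Work.MP_1ce82a_an.A.Lsc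
section
/-! Lower semicontinuity of the action.
PLAN. jensen: on a mesh interval [s,t] of length d put w = (z t - z s)/d, |w| <= K+1; minor_of_conv at the
point (z r, w), replace F(z r,w) and its fibre derivative by their values at (z s,w) (lip0, lip1, error
La (K+1) 2 (K+1) d pointwise, times |deriv z r - w| for the derivative), and use that deriv z - w integrates to zero.
lsc: the limit is K-Lipschitz. The length of z i is bounded by act + th 1 (b-a). Sum jensen over the uniform mesh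
with n pieces, pass to the limit in i (finitely many points, continuity of F), then let n go to infinity:
the Riemann type sum equals the integral of F(y(s_n(r)), difference quotient over the mesh interval of r), which tends to
F(y r, deriv y r) at each point of differentiability (two sided difference quotients over shrinking intervals containing
r) and is bounded; dominated convergence. The case a = b is trivial. -/

open Set Filter Topology MeasureTheory
open scoped ContDiff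

namespace Pool.Agent.Work.MP_1ce82a_an

variable {Γ : Grp}

theorem jensen {m : Md} {R : ℝ} {F : E × E → ℝ} (hF : Cls m R F) {z : ℝ → E} {s t K : ℝ}
    (hK : 0 ≤ K) (hst : s < t) (hz : IsPath z s t) (hin : ∀ r ∈ Icc s t, ‖z r‖ ≤ R)
    (hl : ∀ r ∈ Icc s t, ‖z r - z s‖ ≤ K * (t - s)) :
    (t - s) * F (z s, (1 / (t - s)) • (z t - z s)) -
        m.La K * K * (t - s) * ((t - s) + K * (t - s) + ∫ r in s..t, ‖deriv z r‖) ≤
      act F z s t := by
  have hd : 0 < t - s := sub_pos.2 hst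
  obtain ⟨w, hw⟩ : ∃ w, w = (1 / (t - s)) • (z t - z s) := ⟨_, rfl⟩
  obtain ⟨c, hc⟩ : ∃ c, c = m.La K * K * (t - s) := ⟨_, rfl⟩
  have h1 : ‖w‖ ≤ K := by
    rw [hw, norm_smul, Real.norm_of_nonneg (by positivity), one_div, inv_mul_le_iff₀ hd, mul_comm]
    exact hl t (right_mem_Icc.2 hst.le)
  have hs := hin s (left_mem_Icc.2 hst.le)
  have i1 : IntervalIntegrable (fun r => vpart (fderiv ℝ F (z s, w)) (deriv z r - w)) volume s t :=
    hz.intervalIntegrable (Φ := fun p => vpart (fderiv ℝ F (z s, w)) (p.2.2 - w)) (by fun_prop)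
  have i2 : IntervalIntegrable (fun r => ‖deriv z r‖) volume s t :=
    hz.intervalIntegrable (Φ := fun p => ‖p.2.2‖) (by fun_prop)
  have i3 : IntervalIntegrable (fun r => deriv z r) volume s t :=
    hz.intervalIntegrable (Φ := fun p => p.2.2) (by fun_prop)
  have h2 : ∫ r in s..t, vpart (fderiv ℝ F (z s, w)) (deriv z r - w) = 0 := by
    rw [ContinuousLinearMap.intervalIntegral_comp_comm _ (i3.sub intervalIntegrable_const),
      intervalIntegral.integral_sub i3 intervalIntegrable_const, hz.ftc,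
      intervalIntegral.integral_const, hw, smul_smul, mul_one_div_cancel hd.ne', one_smul, sub_self,
      map_zero]
  have h3 := intervalIntegral.integral_mono_on hst.le (((intervalIntegrable_const
    (c := F (z s, w) - c * (1 + K))).add i1).sub (i2.const_mul c)) (hz.ii_act hF.cont) fun r hr => by
      have k0 : m.La K * ‖(z r, w) - (z s, w)‖ ≤ c := by
        rw [Prod.mk_sub_mk, sub_self, Prod.norm_mk, norm_zero, max_eq_left (norm_nonneg _), hc,
          mul_assoc]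
        exact mul_le_mul_of_nonneg_left (hl r hr) (m.La_nonneg K)
      have k1 := (abs_le.1 ((hF.lip0 (z := (z r, w)) (y := (z s, w)) ⟨hin r hr, h1⟩
        ⟨hs, h1⟩).trans k0)).1
      have k2 := (hF.lip1 (z := (z r, w)) (y := (z s, w)) ⟨hin r hr, h1⟩ ⟨hs, h1⟩).trans k0
      have k3 := minor_of_conv hF.c2 hF.conv (z r) (deriv z r) w
      have k4 := (abs_le.1 ((vpart (fderiv ℝ F (z r, w) - fderiv ℝ F (z s, w))).le_of_opNorm_le
        ((norm_vpart_le _).trans k2) (deriv z r - w))).1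
      have k5 := mul_le_mul_of_nonneg_left ((norm_sub_le (deriv z r) w).trans
        (add_le_add le_rfl h1)) ((norm_nonneg _).trans k2)
      simp only [vpart_apply, sub_apply] at k3 k4 ⊢
      rw [ph]
      linarith
  rw [intervalIntegral.integral_sub (intervalIntegrable_const.add i1) (i2.const_mul c),
    intervalIntegral.integral_add intervalIntegrable_const i1, h2, intervalIntegral.integral_const,
    intervalIntegral.integral_const_mul, smul_eq_mul] at h3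
  rw [← hw, ← hc, act]
  linarith

/-- The value of the Lagrangian at the difference quotient over a mesh interval. -/
noncomputable def Lsc_H (F : E × E → ℝ) (z : ℝ → E) (a d : ℝ) (k : ℕ) : ℝ :=
  F (z (a + k * d), (1 / d) • (z (a + (k + 1) * d) - z (a + k * d)))

theorem Lsc_sum {m : Md} {R : ℝ} {F : E × E → ℝ} (hF : Cls m R F) {z : ℝ → E} {a b d K : ℝ}
    (hK : 0 ≤ K) (hd : 0 < d) (hz : IsPath z a b) (hin : ∀ r ∈ Icc a b, ‖z r‖ ≤ R)
    (hl : ∀ s ∈ Icc a b, ∀ t ∈ Icc a b, ‖z t - z s‖ ≤ K * |t - s| + d) (n : ℕ)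
    (hn : a + n * d ≤ b) : ∑ k ∈ Finset.range n, d * Lsc_H F z a d k -
      m.La (K + 1) * (K + 1) * d * ((K + 2) * (n * d) + ∫ r in a..a + n * d, ‖deriv z r‖) ≤
        act F z a (a + n * d) := by
  induction n with
  | zero => simp [act]
  | succ n ih =>
    push_cast at hn ⊢
    have h1 : a ≤ a + n * d := le_add_of_nonneg_right (by positivity)
    have h2 : a + n * d < a + (n + 1) * d := by linarith
    have h3 : a + (n + 1) * d - (a + n * d) = d := by ring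
    have h4 := hz.mono le_rfl (h1.trans h2.le) hn
    have h5 := jensen hF (K := K + 1) (by linarith) h2 (hz.mono h1 h2.le hn)
      (fun r hr => hin r ⟨h1.trans hr.1, hr.2.trans hn⟩) fun r hr => by
        refine (hl _ ⟨h1, h2.le.trans hn⟩ r ⟨h1.trans hr.1, hr.2.trans hn⟩).trans ?_
        rw [abs_of_nonneg (sub_nonneg.2 hr.1), h3]
        nlinarith [hr.2]
    have i1 : ∀ {s t}, IsPath z s t → IntervalIntegrable (fun r => ‖deriv z r‖) volume s t :=
      fun h => h.intervalIntegrable (Φ := fun p => ‖p.2.2‖) (by fun_prop)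
    rw [h3] at h5
    rw [Finset.sum_range_succ, ← act_add hF.cont h4 h1 h2.le,
      ← intervalIntegral.integral_add_adjacent_intervals (i1 (h4.mono le_rfl h1 h2.le))
        (i1 (h4.mono h1 h2.le le_rfl)), Lsc_H]
    linarith [ih (h2.le.trans hn)]

theorem Lsc_len {m : Md} {R : ℝ} {F : E × E → ℝ} (hF : Cls m R F) {z : ℝ → E} {a b : ℝ}
    (hz : IsPath z a b) (hin : ∀ r ∈ Icc a b, ‖z r‖ ≤ R) :
    ∫ r in a..b, ‖deriv z r‖ ≤ act F z a b + (b - a) * m.th 1 := by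
  have i1 : IntervalIntegrable (fun r => ‖deriv z r‖) volume a b :=
    hz.intervalIntegrable (Φ := fun p => ‖p.2.2‖) (by fun_prop)
  have h := intervalIntegral.integral_mono_on hz.1 (i1.sub (intervalIntegrable_const (c := m.th 1)))
    (hz.ii_act hF.cont) fun r hr => by
      simpa only [one_mul, ph] using hF.sup 1 _ (deriv z r) (hin r hr)
  rw [intervalIntegral.integral_sub i1 intervalIntegrable_const, intervalIntegral.integral_const,
    smul_eq_mul] at h
  rw [act]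
  linarith

theorem Lsc_step (H : ℕ → ℝ) (a : ℝ) {d : ℝ} (hd : 0 < d) (n : ℕ) :
    IntervalIntegrable (fun r => H ⌊(r - a) / d⌋₊) volume a (a + n * d) ∧
      ∫ r in a..a + n * d, H ⌊(r - a) / d⌋₊ = ∑ k ∈ Finset.range n, d * H k := by
  induction n with
  | zero => simp
  | succ n ih =>
    push_cast
    have h2 : a + n * d ≤ a + (n + 1) * d := by linarith
    have h3 : ∀ᵐ r, r ∈ uIoc (a + n * d) (a + (n + 1) * d) → H n = H ⌊(r - a) / d⌋₊ := by
      filter_upwards [PathB_ae h2] with r h hr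
      obtain ⟨k1, k2⟩ := h hr
      have k3 : (n : ℝ) ≤ (r - a) / d := (le_div_iff₀ hd).2 (by linarith)
      rw [(Nat.floor_eq_iff ((Nat.cast_nonneg n).trans k3)).2
        ⟨k3, (div_lt_iff₀ hd).2 (by linarith)⟩]
    have h4 := (intervalIntegrable_const (μ := volume) (c := H n)).congr_ae
      ((ae_restrict_iff' measurableSet_uIoc).2 h3)
    refine ⟨ih.1.trans h4, ?_⟩
    rw [← intervalIntegral.integral_add_adjacent_intervals ih.1 h4, ih.2, Finset.sum_range_succ,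
      ← intervalIntegral.integral_congr_ae h3, intervalIntegral.integral_const, smul_eq_mul]
    ring

theorem Lsc_floor {a b d r : ℝ} {n : ℕ} (hd : 0 < d) (hb : a + n * d = b) (hr : r ∈ Ioo a b) :
    a ≤ a + ⌊(r - a) / d⌋₊ * d ∧ a + ⌊(r - a) / d⌋₊ * d ≤ r ∧
      r ≤ a + (⌊(r - a) / d⌋₊ + 1) * d ∧ a + (⌊(r - a) / d⌋₊ + 1) * d ≤ b := by
  have h0 : 0 ≤ (r - a) / d := div_nonneg (sub_nonneg.2 hr.1.le) hd.le
  have h1 := (le_div_iff₀ hd).1 (Nat.floor_le h0)
  have h2 := (div_lt_iff₀ hd).1 (Nat.lt_floor_add_one ((r - a) / d))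
  have h3 : ⌊(r - a) / d⌋₊ + 1 ≤ n :=
    (Nat.floor_lt h0).2 ((div_lt_iff₀ hd).2 (by linarith [hr.2]))
  have h4 : (⌊(r - a) / d⌋₊ : ℝ) + 1 ≤ n := by exact_mod_cast h3
  exact ⟨le_add_of_nonneg_right (by positivity), by linarith, by linarith, by nlinarith⟩

theorem Lsc_quot {y : ℝ → E} {v : E} {r : ℝ} (h : HasDerivAt y v r) {s t d : ℕ → ℝ}
    (hd : Tendsto d atTop (𝓝 0)) (h0 : ∀ n, 0 < d n) (h1 : ∀ n, s n ≤ r) (h2 : ∀ n, r ≤ t n)
    (h3 : ∀ n, t n - s n = d n) : Tendsto (fun n => (y (s n), (1 / d n) • (y (t n) - y (s n))))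
      atTop (𝓝 (y r, v)) := by
  have hs : Tendsto s atTop (𝓝 r) := tendsto_of_tendsto_of_tendsto_of_le_of_le
    (by simpa using hd.const_sub r) tendsto_const_nhds (fun n => by linarith [h2 n, h3 n]) h1
  have ht : Tendsto t atTop (𝓝 r) := tendsto_of_tendsto_of_tendsto_of_le_of_le
    tendsto_const_nhds (by simpa using hd.const_add r) h2 fun n => by linarith [h1 n, h3 n]
  refine (h.continuousAt.tendsto.comp hs).prodMk_nhds (Metric.tendsto_nhds.2 fun ε hε => ?_)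
  have h4 := (hasDerivAt_iff_isLittleO.1 h).def (half_pos hε)
  filter_upwards [hs.eventually h4, ht.eventually h4] with n k1 k2
  have k3 : (1 / d n) • (y (t n) - y (s n)) - v =
      (1 / d n) • ((y (t n) - y r - (t n - r) • v) - (y (s n) - y r - (s n - r) • v)) := by
    have : (y (t n) - y r - (t n - r) • v) - (y (s n) - y r - (s n - r) • v) =
        y (t n) - y (s n) - d n • v := by
      rw [← h3]
      module
    rw [this, smul_sub (1 / d n) _ (d n • v), smul_smul, one_div_mul_cancel (h0 n).ne', one_smul]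
  rw [Real.norm_of_nonpos (sub_nonpos.2 (h1 n))] at k1
  rw [Real.norm_of_nonneg (sub_nonneg.2 (h2 n))] at k2
  rw [dist_eq_norm, k3, norm_smul, Real.norm_of_nonneg (one_div_pos.2 (h0 n)).le, one_div,
    inv_mul_lt_iff₀ (h0 n)]
  refine (norm_sub_le _ _).trans_lt ?_
  nlinarith [h0 n, h3 n]

theorem Lsc_riem {m : Md} {R : ℝ} {F : E × E → ℝ} (hF : Cls m R F) {y : ℝ → E} {a b K : ℝ}
    (hy : IsPath y a b) (hin : ∀ r ∈ Icc a b, ‖y r‖ ≤ R)
    (hl : ∀ s ∈ Icc a b, ∀ t ∈ Icc a b, ‖y t - y s‖ ≤ K * |t - s|) {d : ℕ → ℝ}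
    (hd : Tendsto d atTop (𝓝 0)) (h0 : ∀ n, 0 < d n) (hb : ∀ n, a + (n + 1 : ℕ) * d n = b) :
    Tendsto (fun n => ∑ k ∈ Finset.range (n + 1), d n * Lsc_H F y a (d n) k) atTop
      (𝓝 (act F y a b)) := by
  have h1 := fun n => hb n ▸ Lsc_step (Lsc_H F y a (d n)) a (h0 n) (n + 1)
  refine Tendsto.congr (fun n => (h1 n).2)
    (intervalIntegral.tendsto_integral_filter_of_dominated_convergence (fun _ => m.La K)
      (Eventually.of_forall fun n => (h1 n).1.def'.aestronglyMeasurable)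
      (Eventually.of_forall fun n => ?_) intervalIntegrable_const ?_)
  · filter_upwards [PathB_ae hy.1] with r h hr
    obtain ⟨k1, k2, k3, k4⟩ := Lsc_floor (h0 n) (hb n) (h hr)
    have k5 := And.intro k1 (k2.trans (k3.trans k4))
    refine hF.bd0 K _ _ (hin _ k5) ?_
    rw [norm_smul, Real.norm_of_nonneg (one_div_pos.2 (h0 n)).le, one_div, inv_mul_le_iff₀ (h0 n)]
    refine (hl _ k5 _ ⟨k1.trans (k2.trans k3), k4⟩).trans (le_of_eq ?_)
    rw [abs_of_nonneg (sub_nonneg.2 (k2.trans k3))]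
    ring
  · filter_upwards [PathB_ae hy.1, hy.ae_hasDerivAt] with r h h' hr
    have k := fun n => Lsc_floor (h0 n) (hb n) (h hr)
    exact (hF.cont.tendsto _).comp (Lsc_quot (h' (h hr)) hd h0 (fun n => (k n).2.1)
      (fun n => (k n).2.2.1) fun n => by ring)

theorem lsc {ι : Type} {l : Filter ι} [l.NeBot] {m : Md} {R : ℝ} {F : E × E → ℝ} (hF : Cls m R F)
    {z : ι → ℝ → E} {y : ℝ → E} {a b K A : ℝ} (hK : 0 ≤ K) (hab : a ≤ b)
    (hz : ∀ ε : ℝ, 0 < ε → ∀ᶠ i in l, IsPath (z i) a b ∧ (∀ t ∈ Icc a b, ‖z i t‖ ≤ R) ∧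
      (∀ s ∈ Icc a b, ∀ t ∈ Icc a b, ‖z i t - z i s‖ ≤ K * |t - s| + ε) ∧
        act F (z i) a b ≤ A + ε)
    (hy : ∀ t ∈ Icc a b, Tendsto (fun i => z i t) l (𝓝 (y t))) :
    (∀ s ∈ Icc a b, ∀ t ∈ Icc a b, ‖y t - y s‖ ≤ K * |t - s|) ∧ IsPath y a b ∧
      act F y a b ≤ A := by
  have h1 : ∀ s ∈ Icc a b, ∀ t ∈ Icc a b, ‖y t - y s‖ ≤ K * |t - s| := fun s hs t ht =>
    le_of_forall_pos_le_add fun ε hε => le_of_tendsto ((hy t ht).sub (hy s hs)).norm
      ((hz ε hε).mono fun i hi => hi.2.2.1 s hs t ht)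
  have h2 : IsPath y a b := ⟨hab, ⟨K, hK⟩, LipschitzOnWith.of_dist_le_mul fun t ht s hs => by
    rw [dist_eq_norm, Real.dist_eq]
    exact h1 s hs t ht⟩
  have h3 : ∀ r ∈ Icc a b, ‖y r‖ ≤ R := fun r hr =>
    le_of_tendsto (hy r hr).norm ((hz 1 one_pos).mono fun i hi => hi.2.1 r hr)
  refine ⟨h1, h2, ?_⟩
  rcases hab.eq_or_lt with rfl | hab
  · refine le_of_forall_pos_le_add fun ε hε => ?_
    obtain ⟨i, hi⟩ := (hz ε hε).exists
    simpa [act] using hi.2.2.2
  obtain ⟨d, hd, h0, hb⟩ : ∃ d : ℕ → ℝ, Tendsto d atTop (𝓝 0) ∧ (∀ n, 0 < d n) ∧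
      ∀ n : ℕ, a + (n + 1 : ℕ) * d n = b := ⟨fun n : ℕ => (b - a) / ((n : ℝ) + 1),
    (tendsto_atTop_add_const_right _ 1 tendsto_natCast_atTop_atTop).const_div_atTop _,
    fun n => div_pos (sub_pos.2 hab) (by positivity), fun n => by
      push_cast
      field_simp
      ring⟩
  have h4 := (hd.const_mul (1 + m.La (K + 1) * (K + 1) *
    ((K + 2) * (b - a) + (A + 1 + (b - a) * m.th 1)))).const_add A
  rw [mul_zero, add_zero] at h4
  refine le_of_tendsto_of_tendsto' (Lsc_riem hF h2 h3 h1 hd h0 hb) h4 fun n => ?_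
  have h5 : ∀ k : ℕ, k ≤ n + 1 → a + k * d n ∈ Icc a b := fun k hk =>
    ⟨le_add_of_nonneg_right (mul_nonneg (Nat.cast_nonneg k) (h0 n).le), by
      rw [← hb n]
      exact add_le_add le_rfl (mul_le_mul_of_nonneg_right (Nat.cast_le.2 hk) (h0 n).le)⟩
  refine le_of_tendsto (f := fun i => ∑ k ∈ Finset.range (n + 1), d n * Lsc_H F (z i) a (d n) k)
    (x := l) (tendsto_finsetSum _ fun k hk => Tendsto.const_mul _ ((hF.cont.tendsto _).comp ?_)) ?_
  · have k1 := hy _ (h5 k (Finset.mem_range.1 hk).le)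
    have k2 := hy _ (h5 (k + 1) (Finset.mem_range.1 hk))
    rw [Nat.cast_succ] at k2
    exact k1.prodMk_nhds ((k2.sub k1).const_smul _)
  · filter_upwards [hz _ (h0 n), hz 1 one_pos] with i hi hi'
    have k1 := Lsc_sum hF hK (h0 n) hi.1 hi.2.1 hi.2.2.1 (n + 1) (hb n).le
    have k2 := Lsc_len hF hi.1 hi.2.1
    have k3 : ((n + 1 : ℕ) : ℝ) * d n = b - a := by linarith [hb n]
    have k4 : 0 ≤ m.La (K + 1) * (K + 1) * d n :=
      mul_nonneg (mul_nonneg (m.La_nonneg _) (by linarith)) (h0 n).le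
    rw [hb n, k3] at k1
    have k5 := mul_le_mul_of_nonneg_left (k2.trans (add_le_add hi'.2.2.2 le_rfl)) k4
    linarith [hi.2.2.2]

/-- Nearly equi-Lipschitz curves converging pointwise converge uniformly. -/
theorem unif_of_near {ι : Type} {l : Filter ι} {z : ι → ℝ → E} {y : ℝ → E} {a b K : ℝ}
    (hz : ∀ ε : ℝ, 0 < ε → ∀ᶠ i in l,
      ∀ s ∈ Icc a b, ∀ t ∈ Icc a b, ‖z i t - z i s‖ ≤ K * |t - s| + ε)
    (hyl : ∀ s ∈ Icc a b, ∀ t ∈ Icc a b, ‖y t - y s‖ ≤ K * |t - s|)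
    (hy : ∀ t ∈ Icc a b, Tendsto (fun i => z i t) l (𝓝 (y t))) :
    ∀ ε : ℝ, 0 < ε → ∀ᶠ i in l, ∀ t ∈ Icc a b, ‖z i t - y t‖ ≤ ε := by
  intro ε hε
  have hδ : 0 < ε / 4 / (|K| + 1) := by positivity
  obtain ⟨T, hT, hf, hc⟩ := finite_cover_balls_of_compact (isCompact_Icc (a := a) (b := b)) hδ
  have h1 : ∀ᶠ i in l, ∀ s ∈ T, dist (z i s) (y s) < ε / 4 := (eventually_all_finite hf).2
    fun s hs => Metric.tendsto_nhds.1 (hy s (hT hs)) _ (by positivity)
  filter_upwards [h1, hz (ε / 4) (by positivity)] with i k1 k2 t ht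
  obtain ⟨s, hs, k3⟩ := mem_iUnion₂.1 (hc ht)
  have k4 : |t - s| * (|K| + 1) < ε / 4 := (lt_div_iff₀ (by positivity)).1 k3
  have k5 : K * |t - s| ≤ ε / 4 := by nlinarith [le_abs_self K, abs_nonneg (t - s)]
  have k6 := k1 s hs
  have k7 := norm_sub_le_norm_sub_add_norm_sub (z i t) (z i s) (y t)
  have k8 := norm_sub_le_norm_sub_add_norm_sub (z i s) (y s) (y t)
  rw [dist_eq_norm] at k6
  rw [norm_sub_rev (y s)] at k8
  linarith [k2 s (hT hs) t ht, hyl s (hT hs) t ht]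

theorem tendsto_ulim {ι : Type} (U : Ultrafilter ι) {z : ι → ℝ → E} {t R : ℝ}
    (h : ∀ᶠ i in (U : Filter ι), ‖z i t‖ ≤ R) :
    Tendsto (fun i => z i t) (U : Filter ι) (𝓝 (ulim U z t)) := by
  obtain ⟨x, -, hx⟩ := (isCompact_closedBall (0 : E) R).ultrafilter_le_nhds' (U.map fun i => z i t)
    (h.mono fun i hi => mem_closedBall_zero_iff.2 hi)
  exact tendsto_nhds_limUnder ⟨x, hx⟩

end Pool.Agent.Work.MP_1ce82a_an
end
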